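import Pool.Agent.NH55.VA.Stm

/-!
# Dominant rational maps of finite degree: explicit data
-/

set_option autoImplicit false

open FF MvPolynomial Pool.Agent.W602.GT Pool.Agent.TH710.SP

namespace Pool.Agent.NH55.VA.Alg

variable {n : ℕ}

/-- homogenization -/
theorem homog (P : MvPolynomial (Fin (n + 1)) ℂ) (j0 : Fin (n + 1)) (D : ℕ)
    (hD : P.totalDegree ≤ D) :
    ∃ P' : MvPolynomial (Fin (n + 1)) ℂ, P'.IsHomogeneous D ∧
      ∀ (F : Type) [Field F] [Algebra ℂ F] (z : Fin (n + 1) → F), z j0 ≠ 0 →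
        aeval z P' = z j0 ^ D * aeval (fun i => z i / z j0) P := by
  classical
  refine ⟨∑ m ∈ P.support, monomial (m + Finsupp.single j0 (D - m.degree)) (P.coeff m), ?_, ?_⟩
  · apply IsHomogeneous.sum
    intro m hm
    apply isHomogeneous_monomial
    rw [map_add, Finsupp.degree_single]
    have h1 : m.degree ≤ D := by
      refine le_trans ?_ hD
      simpa [Finsupp.degree_apply, Finsupp.sum] using le_totalDegree hm
    omega
  · intro F _ _ z hz
    rw [map_sum]
    conv_rhs => rw [P.as_sum, map_sum, Finset.mul_sum]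
    refine Finset.sum_congr rfl fun m hm => ?_
    have h1 : m.degree ≤ D := by
      refine le_trans ?_ hD
      simpa [Finsupp.degree_apply, Finsupp.sum] using le_totalDegree hm
    rw [aeval_monomial, aeval_monomial, Finsupp.prod_fintype _ _ (fun i => pow_zero _),
      Finsupp.prod_fintype _ _ (fun i => pow_zero _)]
    have h2 : ∏ i, z i ^ (m + Finsupp.single j0 (D - m.degree)) i =
        (∏ i, z i ^ m i) * z j0 ^ (D - m.degree) := by
      simp only [Finsupp.add_apply, pow_add, Finset.prod_mul_distrib]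
      congr 1
      rw [Finset.prod_eq_single j0]
      · simp
      · intro i _ hi
        rw [Finsupp.single_eq_of_ne (by simpa using hi), pow_zero]
      · intro h
        exact absurd (Finset.mem_univ _) h
    have h3 : ∏ i, (z i / z j0) ^ m i = (∏ i, z i ^ m i) / z j0 ^ m.degree := by
      simp only [div_pow, Finset.prod_div_distrib]
      congr 1
      rw [Finset.prod_pow_eq_pow_sum, Finsupp.degree_eq_sum]
    rw [h2, h3]
    have h4 : z j0 ^ D = z j0 ^ (D - m.degree) * z j0 ^ m.degree := by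
      rw [← pow_add]
      congr 1
      omega
    rw [h4]
    field_simp

/-- pairs of an element of `E` and its value at `p` -/
def Gm {E : Type} [Field E] [Algebra ℂ E] (v : Fin (n + 1) → E) (p : Fin (n + 1) → ℂ) :
    Subring (E × ℂ) where
  carrier := {z | ∃ P S : MvPolynomial (Fin (n + 1)) ℂ, eval p S ≠ 0 ∧
    z.1 * aeval v S = aeval v P ∧ z.2 * eval p S = eval p P}
  mul_mem' := by
    rintro a b ⟨P, S, h1, h2, h3⟩ ⟨P', S', h1', h2', h3'⟩
    refine ⟨P * P', S * S', ?_, ?_, ?_⟩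
    · rw [map_mul]
      exact mul_ne_zero h1 h1'
    · rw [map_mul, map_mul, ← h2, ← h2', Prod.fst_mul]
      ring
    · rw [map_mul, map_mul, ← h3, ← h3', Prod.snd_mul]
      ring
  one_mem' := ⟨1, 1, by simp, by simp, by simp⟩
  add_mem' := by
    rintro a b ⟨P, S, h1, h2, h3⟩ ⟨P', S', h1', h2', h3'⟩
    refine ⟨P * S' + P' * S, S * S', ?_, ?_, ?_⟩
    · rw [map_mul]
      exact mul_ne_zero h1 h1'
    · rw [map_mul, map_add, map_mul, map_mul, ← h2, ← h2', Prod.fst_add]
      ring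
    · rw [map_mul, map_add, map_mul, map_mul, ← h3, ← h3', Prod.snd_add]
      ring
  zero_mem' := ⟨0, 1, by simp, by simp, by simp⟩
  neg_mem' := by
    rintro a ⟨P, S, h1, h2, h3⟩
    refine ⟨-P, S, h1, ?_, ?_⟩
    · rw [map_neg, ← h2, Prod.fst_neg, neg_mul]
    · rw [map_neg, ← h3, Prod.snd_neg, neg_mul]

/-- subrings of `E × ℂ` which are graphs -/
structure IsGr {E : Type} [Field E] [Algebra ℂ E] (Γ : Subring (E × ℂ)) : Prop where
  const : ∀ c : ℂ, (algebraMap ℂ E c, c) ∈ Γ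
  fn : ∀ w : ℂ, ((0 : E), w) ∈ Γ → w = 0

section

variable {E : Type} [Field E] [Algebra ℂ E] {Γ : Subring (E × ℂ)}

theorem IsGr.eq (h : IsGr Γ) {z : E} {w w' : ℂ} (h1 : (z, w) ∈ Γ) (h2 : (z, w') ∈ Γ) :
    w = w' := by
  have h3 := Γ.sub_mem h1 h2
  rw [Prod.mk_sub_mk, sub_self] at h3
  exact sub_eq_zero.1 (h.fn _ h3)

theorem IsGr.poly (h : IsGr Γ) {m : ℕ} {v : Fin m → E} {p : Fin m → ℂ}
    (hv : ∀ i, (v i, p i) ∈ Γ) (P : MvPolynomial (Fin m) ℂ) : (aeval v P, eval p P) ∈ Γ := by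
  induction P using MvPolynomial.induction_on with
  | C a => simpa using h.const a
  | add P Q hP hQ =>
    have := Γ.add_mem hP hQ
    rw [map_add, map_add]
    exact this
  | mul_X P i hP =>
    have := Γ.mul_mem hP (hv i)
    rw [map_mul, map_mul, aeval_X, eval_X]
    exact this

theorem IsGr.zero (h : IsGr Γ) {m : ℕ} {v : Fin m → E} {p : Fin m → ℂ}
    (hv : ∀ i, (v i, p i) ∈ Γ) {P : MvPolynomial (Fin m) ℂ} (hP : aeval v P = 0) :
    eval p P = 0 := by
  have h1 := h.poly hv P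
  rw [hP] at h1
  exact h.fn _ h1

theorem gm_gr {v : Fin (n + 1) → E} {p : Fin (n + 1) → ℂ}
    (hs : ∀ P : MvPolynomial (Fin (n + 1)) ℂ, aeval v P = 0 → eval p P = 0) : IsGr (Gm v p) where
  const := fun c => ⟨C c, 1, by simp, by simp, by simp⟩
  fn := by
    rintro w ⟨P, S, h1, h2, h3⟩
    rw [zero_mul] at h2
    rw [hs P h2.symm] at h3
    exact (mul_eq_zero.1 h3).resolve_right h1

theorem gm_mem (v : Fin (n + 1) → E) (p : Fin (n + 1) → ℂ) (i : Fin (n + 1)) :
    (v i, p i) ∈ Gm v p := ⟨X i, 1, by simp, by simp, by simp⟩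

theorem gm_inv {v : Fin (n + 1) → E} {p : Fin (n + 1) → ℂ}
    (hs : ∀ P : MvPolynomial (Fin (n + 1)) ℂ, aeval v P = 0 → eval p P = 0) {z : E} {w : ℂ}
    (h : (z, w) ∈ Gm v p) (hw : w ≠ 0) : (z⁻¹, w⁻¹) ∈ Gm v p := by
  have hz : z ≠ 0 := by
    rintro rfl
    exact hw ((gm_gr hs).fn w h)
  obtain ⟨P, S, h1, h2, h3⟩ := h
  simp only at h2 h3
  refine ⟨S, P, ?_, ?_, ?_⟩
  · rw [← h3]
    exact mul_ne_zero hw h1
  · show z⁻¹ * aeval v P = aeval v S
    rw [← h2]
    field_simp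
  · show w⁻¹ * eval p P = eval p S
    rw [← h3]
    field_simp

end

/-- adding an algebraic element to a graph -/
theorem extend {K L : Type} [Field K] [Algebra ℂ K] [Field L] [Algebra ℂ L] [Algebra L K]
    [IsScalarTower ℂ L K] {Γ0 : Subring (L × ℂ)} (h0 : IsGr Γ0) (θ : K) (hθ : IsIntegral L θ)
    (d : ℕ) (hd : (minpoly L θ).natDegree = d) (b : Fin d → ℂ)
    (hb : ∀ k : Fin d, ((minpoly L θ).coeff k, b k) ∈ Γ0) (τ : ℂ) (hτ : pol b τ = 0) :
    ∃ Γ : Subring (K × ℂ), IsGr Γ ∧ (∀ a c, (a, c) ∈ Γ0 → (algebraMap L K a, c) ∈ Γ) ∧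
      (θ, τ) ∈ Γ := by
  let φ1 : Γ0 →+* L := (RingHom.fst L ℂ).comp Γ0.subtype
  let φ2 : Γ0 →+* ℂ := (RingHom.snd L ℂ).comp Γ0.subtype
  have hφ1 : Function.Injective φ1 := by
    rw [injective_iff_map_eq_zero]
    rintro ⟨⟨a, c⟩, hac⟩ h
    have h1 : a = 0 := h
    subst h1
    have h2 := h0.fn c hac
    subst h2
    rfl
  let q : Polynomial Γ0 := ∑ k : Fin d, Polynomial.C ⟨_, hb k⟩ * Polynomial.X ^ (k : ℕ)
  have hq : q.degree < d := Polynomial.degree_sum_fin_lt _
  let m : Polynomial Γ0 := Polynomial.X ^ d + q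
  have hm : m.Monic := Polynomial.monic_X_pow_add hq
  have hmdeg : m.degree = d := by
    have h1 : (Polynomial.X ^ d + q).degree = (Polynomial.X ^ d : Polynomial Γ0).degree := by
      apply Polynomial.degree_add_eq_left_of_degree_lt
      rw [Polynomial.degree_X_pow]
      exact hq
    rw [Polynomial.degree_X_pow] at h1
    exact h1
  let Φ : Polynomial Γ0 →+* K × ℂ := Polynomial.eval₂RingHom
    ((RingHom.prodMap (algebraMap L K) (RingHom.id ℂ)).comp Γ0.subtype) (θ, τ)
  have hΦ1 : ∀ W, (Φ W).1 = Polynomial.aeval θ (W.map φ1) := by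
    intro W
    have h1 : (Φ W).1 = (RingHom.fst K ℂ) (Polynomial.eval₂
      ((RingHom.prodMap (algebraMap L K) (RingHom.id ℂ)).comp Γ0.subtype) (θ, τ) W) := rfl
    rw [h1, Polynomial.hom_eval₂, Polynomial.aeval_def, Polynomial.eval₂_map]
    rfl
  have hΦ2 : ∀ W, (Φ W).2 = Polynomial.eval₂ φ2 τ W := by
    intro W
    have h1 : (Φ W).2 = (RingHom.snd K ℂ) (Polynomial.eval₂
      ((RingHom.prodMap (algebraMap L K) (RingHom.id ℂ)).comp Γ0.subtype) (θ, τ) W) := rfl
    rw [h1, Polynomial.hom_eval₂]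
    rfl
  have hmτ : Polynomial.eval₂ φ2 τ m = 0 := by
    simp only [m, q, Polynomial.eval₂_add, Polynomial.eval₂_X_pow, Polynomial.eval₂_finsetSum,
      Polynomial.eval₂_mul, Polynomial.eval₂_C]
    exact hτ
  have hmθ : m.map φ1 = minpoly L θ := by
    have h1 := (minpoly.monic hθ).as_sum
    rw [hd, Finset.sum_range] at h1
    rw [h1]
    simp only [m, q, Polynomial.map_add, Polynomial.map_pow, Polynomial.map_X, Polynomial.map_sum,
      Polynomial.map_mul, Polynomial.map_C]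
    rfl
  refine ⟨Φ.range, ⟨?_, ?_⟩, ?_, ?_⟩
  · intro c
    refine ⟨Polynomial.C ⟨_, h0.const c⟩, ?_⟩
    simp only [Φ, Polynomial.coe_eval₂RingHom, Polynomial.eval₂_C]
    show (algebraMap L K (algebraMap ℂ L c), c) = _
    rw [← IsScalarTower.algebraMap_apply]
  · rintro w ⟨W, hW⟩
    have h1 : (Φ W).1 = 0 := by rw [hW]
    have h2 : (Φ W).2 = w := by rw [hW]
    rw [hΦ1] at h1
    rw [hΦ2] at h2
    have h3 := Polynomial.modByMonic_add_div W m
    have h4 : ((W %ₘ m).map φ1) = 0 := by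
      by_contra hne
      have h5 : Polynomial.aeval θ ((W %ₘ m).map φ1) = 0 := by
        have h6 := h1
        rw [← h3, Polynomial.map_add, Polynomial.map_mul, map_add, map_mul, hmθ, minpoly.aeval,
          zero_mul, add_zero] at h6
        exact h6
      have h7 := minpoly.degree_le_of_ne_zero L θ hne h5
      have h8 : ((W %ₘ m).map φ1).degree < d := by
        refine lt_of_le_of_lt Polynomial.degree_map_le ?_
        rw [← hmdeg]
        exact Polynomial.degree_modByMonic_lt W hm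
      have h9 : (minpoly L θ).degree = d := by
        rw [Polynomial.degree_eq_natDegree (minpoly.ne_zero hθ), hd]
      rw [h9] at h7
      exact absurd h8 (not_lt.2 h7)
    have h5 : W %ₘ m = 0 := by
      apply Polynomial.map_injective φ1 hφ1
      rw [h4, Polynomial.map_zero]
    rw [h5, zero_add] at h3
    rw [← h2, ← h3, Polynomial.eval₂_mul, hmτ, zero_mul]
  · intro a c hac
    refine ⟨Polynomial.C ⟨_, hac⟩, ?_⟩
    simp only [Φ, Polynomial.coe_eval₂RingHom, Polynomial.eval₂_C]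
    rfl
  · exact ⟨Polynomial.X, by simp [Φ]⟩

/-- common denominators -/
theorem com_den {E : Type} [Field E] [Algebra ℂ E] (u : Fin (n + 1) → E)
    (hu : IntermediateField.adjoin ℂ (Set.range u) = ⊤) {κ : Type} [Fintype κ] (a : κ → E) :
    ∃ (N : κ → MvPolynomial (Fin (n + 1)) ℂ) (G : MvPolynomial (Fin (n + 1)) ℂ),
      aeval u G ≠ 0 ∧ ∀ k, a k * aeval u G = aeval u (N k) := by
  classical
  have h1 : ∀ k, ∃ r s : MvPolynomial (Fin (n + 1)) ℂ, aeval u s ≠ 0 ∧
      a k * aeval u s = aeval u r := by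
    intro k
    have h2 : a k ∈ IntermediateField.adjoin ℂ (Set.range u) := by
      rw [hu]; trivial
    rw [IntermediateField.mem_adjoin_range_iff] at h2
    obtain ⟨r, s, hrs⟩ := h2
    by_cases hs : aeval u s = 0
    · refine ⟨0, 1, by simp, ?_⟩
      rw [hrs, hs]
      simp
    · refine ⟨r, s, hs, ?_⟩
      rw [hrs]
      field_simp
  choose r s hs hrs using h1
  refine ⟨fun k => r k * ∏ j ∈ Finset.univ.erase k, s j, ∏ j, s j, ?_, ?_⟩
  · rw [map_prod]
    exact Finset.prod_ne_zero_iff.2 fun j _ => hs j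
  · intro k
    rw [← Finset.mul_prod_erase Finset.univ s (Finset.mem_univ k), map_mul, map_mul, ← hrs]
    ring

/-- the field of the ratios is generated by those with a fixed denominator -/
theorem adjoin_ratio {E : Type} [Field E] [Algebra ℂ E] (x : Fin (n + 1) → E)
    (hx : coords ℂ x = ⊤) (i0 : Fin (n + 1)) (hi : x i0 ≠ 0) :
    IntermediateField.adjoin ℂ (Set.range fun i => x i / x i0) = ⊤ := by
  rw [eq_top_iff, ← hx]
  unfold coords
  rw [IntermediateField.adjoin_le_iff]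
  rintro _ ⟨i, j, hj, rfl⟩
  have h1 : x i / x j = (x i / x i0) / (x j / x i0) := by
    field_simp
  rw [h1]
  exact div_mem (IntermediateField.subset_adjoin ℂ _ ⟨i, rfl⟩)
    (IntermediateField.subset_adjoin ℂ _ ⟨j, rfl⟩)

theorem smul_form {F : Type} [Field F] [Algebra ℂ F] {G : MvPolynomial (Fin (n + 1)) ℂ} {d : ℕ}
    (hG : G.IsHomogeneous d) (c : F) (y : Fin (n + 1) → F) :
    aeval (fun i => c * y i) G = c ^ d * aeval y G := by
  rw [aeval_def, aeval_def, eval₂_eq', eval₂_eq', Finset.mul_sum]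
  refine Finset.sum_congr rfl fun a ha => ?_
  have h1 : ∑ i, a i = d := by
    have h2 := hG (mem_support_iff.1 ha)
    rw [← h2]
    simp [Finsupp.weight_apply, Finsupp.sum_fintype]
  have h2 : ∏ i, (c * y i) ^ a i = c ^ d * ∏ i, y i ^ a i := by
    rw [← h1, ← Finset.prod_pow_eq_pow_sum, ← Finset.prod_mul_distrib]
    exact Finset.prod_congr rfl fun i _ => by rw [mul_pow]
  rw [h2]
  ring

theorem ev (p : Fin (n + 1) → ℂ) (G : MvPolynomial (Fin (n + 1)) ℂ) : aeval p G = eval p G := by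
  rw [aeval_def, eval₂_eq', eval_eq']
  rfl

theorem form_nrm {F : Type} [Field F] [Algebra ℂ F] {G : MvPolynomial (Fin (n + 1)) ℂ}
    (hG : IsForm G) (x : Fin (n + 1) → F) (i0 : Fin (n + 1)) (hi : x i0 ≠ 0) :
    aeval x G = 0 ↔ aeval (fun i => x i / x i0) G = 0 := by
  obtain ⟨d, hd⟩ := hG
  have h1 : x = fun i => x i0 * (x i / x i0) := by
    funext i
    field_simp
  have h2 := smul_form hd (x i0) (fun i => x i / x i0)
  rw [← h1] at h2
  rw [h2]
  constructor
  · intro h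
    exact (mul_eq_zero.1 h).resolve_left (pow_ne_zero _ hi)
  · intro h
    rw [h, mul_zero]

theorem sp_pt {E : Type} [Field E] [Algebra ℂ E] (y : Fin (n + 1) → E) (j0 : Fin (n + 1))
    (hj : y j0 ≠ 0) (p : Fin (n + 1) → ℂ) (hp : p ∈ VarPts ℂ y) (hpj : p j0 ≠ 0)
    (P : MvPolynomial (Fin (n + 1)) ℂ) (hP : aeval (fun j => y j / y j0) P = 0) :
    eval (fun j => p j / p j0) P = 0 := by
  obtain ⟨P', h1, h2⟩ := homog P j0 _ le_rfl
  have h3 : val y P' = 0 := by
    unfold val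
    rw [h2 E y hj, hP, mul_zero]
  have h4 := hp.2 P' ⟨_, h1⟩ h3
  unfold val at h4
  rw [h2 ℂ p hpj] at h4
  rw [← ev]
  exact (mul_eq_zero.1 h4).resolve_left (pow_ne_zero _ hpj)

/-- a quotient of polynomials at normalized coordinates -/
noncomputable def qt (i0 : Fin (n + 1)) (N G : MvPolynomial (Fin (n + 1)) ℂ)
    (q : Fin (n + 1) → ℂ) : ℂ :=
  eval (fun i => q i / q i0) N / eval (fun i => q i / q i0) G

theorem cont_nrm (i0 : Fin (n + 1)) (P : MvPolynomial (Fin (n + 1)) ℂ) :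
    ContinuousOn (fun q : Fin (n + 1) → ℂ => eval (fun i => q i / q i0) P) {q | q i0 ≠ 0} := by
  refine (MvPolynomial.continuous_eval P).comp_continuousOn ?_
  refine continuousOn_pi.2 fun i => ?_
  exact (continuous_apply i).continuousOn.div (continuous_apply i0).continuousOn (fun q hq => hq)

theorem qt_cont (i0 : Fin (n + 1)) (N G : MvPolynomial (Fin (n + 1)) ℂ) :
    ContinuousOn (qt i0 N G) {q | q i0 ≠ 0 ∧ eval (fun i => q i / q i0) G ≠ 0} :=
  ((cont_nrm i0 N).mono fun _ h => h.1).div ((cont_nrm i0 G).mono fun _ h => h.1) fun _ h => h.2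

theorem nrm_smul (i0 : Fin (n + 1)) (c : ℂ) (hc : c ≠ 0) (q : Fin (n + 1) → ℂ) :
    (fun i => (c • q) i / (c • q) i0) = fun i => q i / q i0 := by
  funext i
  rw [Pi.smul_apply, Pi.smul_apply, smul_eq_mul, smul_eq_mul, mul_div_mul_left _ _ hc]

theorem qt_smul (i0 : Fin (n + 1)) (N G : MvPolynomial (Fin (n + 1)) ℂ) (c : ℂ) (hc : c ≠ 0)
    (q : Fin (n + 1) → ℂ) : qt i0 N G (c • q) = qt i0 N G q := by
  unfold qt
  rw [nrm_smul i0 c hc q]

theorem core {E : Type} [Field E] [Algebra ℂ E] {Γ : Subring (E × ℂ)} (hΓ : IsGr Γ)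
    {u : Fin (n + 1) → E} {q : Fin (n + 1) → ℂ} (hu : ∀ i, (u i, q i) ∈ Γ)
    {G N : MvPolynomial (Fin (n + 1)) ℂ} (hG0 : aeval u G ≠ 0)
    (hG : ((aeval u G)⁻¹, (eval q G)⁻¹) ∈ Γ) {a : E} (ha : a * aeval u G = aeval u N) :
    (a, eval q N / eval q G) ∈ Γ := by
  have h1 := Γ.mul_mem (hΓ.poly hu N) hG
  have h2 : (a, eval q N / eval q G) =
      (aeval u N, eval q N) * ((aeval u G)⁻¹, (eval q G)⁻¹) := by
    rw [Prod.mk_mul_mk, ← ha, div_eq_mul_inv]
    congr 1
    field_simp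
  rw [h2]
  exact h1

theorem sum_mem' {E : Type} [Field E] {Γ : Subring (E × ℂ)} {B : ℕ} (a : Fin B → E)
    (b : Fin B → ℂ) (h : ∀ k, (a k, b k) ∈ Γ) {θ : E} {τ : ℂ} (hθ : (θ, τ) ∈ Γ) (e : Fin B → ℕ) :
    (∑ k, a k * θ ^ e k, ∑ k, b k * τ ^ e k) ∈ Γ := by
  have h1 : (∑ k, a k * θ ^ e k, ∑ k, b k * τ ^ e k) = ∑ k, (a k, b k) * (θ, τ) ^ e k := by
    apply Prod.ext
    · rw [Prod.fst_sum]
      rfl
    · rw [Prod.snd_sum]
      rfl
  rw [h1]
  exact Γ.sum_mem fun k _ => Γ.mul_mem (h k) (Γ.pow_mem hθ _)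

section build

variable {K L : Type} [Field K] [Algebra ℂ K] [Field L] [Algebra ℂ L] [Algebra L K]
  [IsScalarTower ℂ L K] {M M' : ℕ}

theorem map_ev {n : ℕ} (u : Fin (n + 1) → L) (N : MvPolynomial (Fin (n + 1)) ℂ) :
    aeval (fun i => algebraMap L K (u i)) N = algebraMap L K (aeval u N) := by
  have h1 := MvPolynomial.aeval_algebraMap_apply K u N
  rw [← h1]
  rfl

theorem aev_comp {F : Type} [Field F] [Algebra ℂ F] (z : Fin (M' + 1) → F)
    (f : Fin (M + 1) → MvPolynomial (Fin (M' + 1)) ℂ) (g : MvPolynomial (Fin (M + 1)) ℂ) :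
    aeval z (aeval f g) = aeval (fun i => aeval z (f i)) g :=
  MvPolynomial.comp_aeval_apply f (aeval z) g

omit [Algebra ℂ K] [Algebra ℂ L] [IsScalarTower ℂ L K] in
/-- the minimal polynomial and its derivative -/
theorem mp_eval (θ : K) (hθ : IsIntegral L θ) (d : ℕ) (hd : (minpoly L θ).natDegree = d) :
    θ ^ d + ∑ k : Fin d, algebraMap L K ((minpoly L θ).coeff k) * θ ^ (k : ℕ) = 0 ∧
    Polynomial.aeval θ (Polynomial.derivative (minpoly L θ)) = d * θ ^ (d - 1) +
      ∑ k : Fin d, algebraMap L K ((minpoly L θ).coeff k) * ((k : ℕ) * θ ^ ((k : ℕ) - 1)) := by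
  have h1 := (minpoly.monic hθ).as_sum
  rw [hd, Finset.sum_range] at h1
  constructor
  · have h2 : Polynomial.aeval θ (minpoly L θ) = 0 := minpoly.aeval L θ
    rw [h1] at h2
    simpa using h2
  · conv_lhs => rw [h1]
    simp only [Polynomial.derivative_add, Polynomial.derivative_X_pow, Polynomial.derivative_sum,
      Polynomial.derivative_C_mul_X_pow, map_add, map_sum, map_mul, map_pow, Polynomial.aeval_X,
      Polynomial.aeval_C, map_natCast]
    congr 1
    refine Finset.sum_congr rfl fun k _ => ?_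
    ring

theorem build (x : Fin (M + 1) → L) (y : Fin (M' + 1) → K) (i0 : Fin (M + 1)) (j0 : Fin (M' + 1))
    (hi : x i0 ≠ 0) (hj : y j0 ≠ 0) (θ : K) (hθ : IsIntegral L θ) (d : ℕ)
    (hd : (minpoly L θ).natDegree = d)
    (hder : Polynomial.aeval θ (Polynomial.derivative (minpoly L θ)) ≠ 0)
    (P : Fin (M + 1) → MvPolynomial (Fin (M' + 1)) ℂ) (T Q : MvPolynomial (Fin (M' + 1)) ℂ)
    (hQ : aeval (fun j => y j / y j0) Q ≠ 0)
    (hP : ∀ i, algebraMap L K (x i / x i0) * aeval (fun j => y j / y j0) Q =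
      aeval (fun j => y j / y j0) (P i))
    (hT : θ * aeval (fun j => y j / y j0) Q = aeval (fun j => y j / y j0) T)
    (G : MvPolynomial (Fin (M + 1)) ℂ) (hG : aeval (fun i => x i / x i0) G ≠ 0)
    (mN : Fin d → MvPolynomial (Fin (M + 1)) ℂ)
    (hm : ∀ k : Fin d, (minpoly L θ).coeff k * aeval (fun i => x i / x i0) G =
      aeval (fun i => x i / x i0) (mN k)) (B : ℕ)
    (zc : Option (Option (Fin (M' + 1))) → Fin B → L)
    (zN : Option (Option (Fin (M' + 1))) → Fin B → MvPolynomial (Fin (M + 1)) ℂ)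
    (hz1 : ∀ j, y j / y j0 = ∑ k, algebraMap L K (zc (some (some j)) k) * θ ^ (k : ℕ))
    (hz2 : (aeval (fun j => y j / y j0) Q)⁻¹ =
      ∑ k, algebraMap L K (zc (some none) k) * θ ^ (k : ℕ))
    (hz3 : (Polynomial.aeval θ (Polynomial.derivative (minpoly L θ)))⁻¹ =
      ∑ k, algebraMap L K (zc none k) * θ ^ (k : ℕ))
    (hzN : ∀ a k, zc a k * aeval (fun i => x i / x i0) G = aeval (fun i => x i / x i0) (zN a k)) :
    Nonempty (CovDat x y d) := by
  classical
  obtain ⟨hm1, hm2⟩ := mp_eval θ hθ d hd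
  -- the forms
  obtain ⟨G', hG'1, hG'2⟩ := homog G i0 _ le_rfl
  obtain ⟨Q', hQ'1, hQ'2⟩ := homog Q j0 _ le_rfl
  set D : ℕ := Finset.univ.sup fun i => (P i).totalDegree with hD
  choose f hf1 hf2 using fun i => homog (P i) j0 D (Finset.le_sup (f := fun i =>
    (P i).totalDegree) (Finset.mem_univ i))
  set g : MvPolynomial (Fin (M + 1)) ℂ := X i0 * G' with hg
  have hgform : IsForm g := ⟨_, (isHomogeneous_X ℂ i0).mul hG'1⟩
  obtain ⟨eg, heg⟩ := id hgform
  have hgi : ∀ q : Fin (M + 1) → ℂ, eval q g ≠ 0 → q i0 ≠ 0 := by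
    intro q h h0
    rw [hg, map_mul, eval_X, h0, zero_mul] at h
    exact h rfl
  have hgG : ∀ q : Fin (M + 1) → ℂ, eval q g ≠ 0 → eval (fun i => q i / q i0) G ≠ 0 := by
    intro q h h0
    have h1 := hG'2 ℂ q (hgi q h)
    rw [ev, ev, h0, mul_zero] at h1
    rw [hg, map_mul, h1, mul_zero] at h
    exact h rfl
  set h : MvPolynomial (Fin (M' + 1)) ℂ := X j0 * Q' * aeval f g with hh
  have hhform : IsForm h := ⟨_, ((isHomogeneous_X ℂ j0).mul hQ'1).mul (heg.aeval f hf1)⟩
  have hevf : ∀ p : Fin (M' + 1) → ℂ, eval p (aeval f g) = eval (fun i => eval p (f i)) g := by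
    intro p
    have h1 : (fun i => eval p (f i)) = fun i => aeval p (f i) := by
      funext i
      rw [ev]
    rw [← ev, ← ev, h1, aev_comp]
  have hh1 : ∀ p : Fin (M' + 1) → ℂ, eval p h = p j0 * eval p Q' *
      eval (fun i => eval p (f i)) g := by
    intro p
    rw [hh, map_mul, map_mul, eval_X, hevf]
  have hhj : ∀ p : Fin (M' + 1) → ℂ, eval p h ≠ 0 → p j0 ≠ 0 := by
    intro p hp h0
    rw [hh1, h0, zero_mul, zero_mul] at hp
    exact hp rfl
  have hhQ : ∀ p : Fin (M' + 1) → ℂ, eval p h ≠ 0 → eval (fun j => p j / p j0) Q ≠ 0 := by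
    intro p hp h0
    have h1 := hQ'2 ℂ p (hhj p hp)
    rw [ev, ev, h0, mul_zero] at h1
    rw [hh1, h1, mul_zero, zero_mul] at hp
    exact hp rfl
  have hhg : ∀ p : Fin (M' + 1) → ℂ, eval p h ≠ 0 → eval (fun i => eval p (f i)) g ≠ 0 := by
    intro p hp h0
    rw [hh1, h0, mul_zero] at hp
    exact hp rfl
  have hff : ∀ (p : Fin (M' + 1) → ℂ), p j0 ≠ 0 → ∀ i, eval p (f i) =
      p j0 ^ D * eval (fun j => p j / p j0) (P i) := by
    intro p hp i
    have h1 := hf2 i ℂ p hp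
    rw [ev, ev] at h1
    exact h1
  have hgne : val x g ≠ 0 := by
    unfold val
    rw [hg, map_mul, aeval_X, hG'2 L x hi]
    exact mul_ne_zero hi (mul_ne_zero (pow_ne_zero _ hi) hG)
  have hhne : val y h ≠ 0 := by
    unfold val
    rw [hh, map_mul, map_mul, aeval_X, hQ'2 K y hj]
    refine mul_ne_zero (mul_ne_zero hj (mul_ne_zero (pow_ne_zero _ hj) hQ)) ?_
    have h1 : aeval y (aeval f g) = aeval (fun i => aeval y (f i)) g := aev_comp y f g
    have h2 : (fun i => aeval y (f i)) = fun i => (y j0 ^ D * aeval (fun j => y j / y j0) Q /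
        algebraMap L K (x i0)) * algebraMap L K (x i) := by
      funext i
      rw [hf2 i K y hj, ← hP i, map_div₀]
      have h3 : algebraMap L K (x i0) ≠ 0 := by
        rw [Ne, map_eq_zero]
        exact hi
      field_simp
    rw [h1, h2, smul_form heg, map_ev]
    refine mul_ne_zero (pow_ne_zero _ (div_ne_zero (mul_ne_zero (pow_ne_zero _ hj) hQ) ?_)) ?_
    · rw [Ne, map_eq_zero]
      exact hi
    · rw [Ne, map_eq_zero]
      exact hgne
  -- the coordinates in `K`
  set v : Fin (M' + 1) → K := fun j => y j / y j0 with hv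
  set u : Fin (M + 1) → K := fun i => algebraMap L K (x i / x i0) with hu
  have hGu : aeval u G = algebraMap L K (aeval (fun i => x i / x i0) G) := map_ev _ _
  have hGu0 : aeval u G ≠ 0 := by
    rw [hGu, Ne, map_eq_zero]
    exact hG
  have hmu : ∀ k : Fin d, algebraMap L K ((minpoly L θ).coeff k) * aeval u G =
      aeval u (mN k) := by
    intro k
    rw [hGu, map_ev, ← map_mul, hm]
  have hzu : ∀ a k, algebraMap L K (zc a k) * aeval u G = aeval u (zN a k) := by
    intro a k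
    rw [hGu, map_ev, ← map_mul, hzN]
  let mm : Fin d → (Fin (M + 1) → ℂ) → ℂ := fun k => qt i0 (mN k) G
  let RR : Option (Option (Fin (M' + 1))) → (Fin (M + 1) → ℂ) → ℂ → ℂ :=
    fun a q τ => ∑ k : Fin B, qt i0 (zN a k) G q * τ ^ (k : ℕ)
  have key : ∀ (Γ : Subring (K × ℂ)), IsGr Γ → ∀ (q : Fin (M + 1) → ℂ) (τ : ℂ),
      (∀ i, (u i, q i / q i0) ∈ Γ) →
      ((aeval u G)⁻¹, (eval (fun i => q i / q i0) G)⁻¹) ∈ Γ → (θ, τ) ∈ Γ →
      (∀ a, (∑ k, algebraMap L K (zc a k) * θ ^ (k : ℕ), RR a q τ) ∈ Γ) ∧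
      ((0 : K), pol (fun k => mm k q) τ) ∈ Γ ∧
      (Polynomial.aeval θ (Polynomial.derivative (minpoly L θ)), dpol (fun k => mm k q) τ)
        ∈ Γ := by
    intro Γ hΓ q τ hq hGi hθτ
    have k1 : ∀ k : Fin d, (algebraMap L K ((minpoly L θ).coeff k), mm k q) ∈ Γ := fun k =>
      core hΓ hq hGu0 hGi (hmu k)
    refine ⟨fun a => sum_mem' _ _ (fun k => core hΓ hq hGu0 hGi (hzu a k)) hθτ _, ?_, ?_⟩
    · have h1 := Γ.add_mem (Γ.pow_mem hθτ d) (sum_mem' _ _ k1 hθτ (fun k => (k : ℕ)))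
      have h2 : (((0 : K), pol (fun k => mm k q) τ) : K × ℂ) = (θ, τ) ^ d +
          (∑ k : Fin d, algebraMap L K ((minpoly L θ).coeff k) * θ ^ (k : ℕ),
            ∑ k : Fin d, mm k q * τ ^ (k : ℕ)) := by
        apply Prod.ext
        · exact hm1.symm
        · rfl
      rw [h2]
      exact h1
    · have hnat : ∀ m : ℕ, ((m : K), (m : ℂ)) ∈ Γ := by
        intro m
        have := hΓ.const (m : ℂ)
        rwa [map_natCast] at this
      have k2 : ∀ k : Fin d, (algebraMap L K ((minpoly L θ).coeff k) * ((k : ℕ) : K),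
          mm k q * ((k : ℕ) : ℂ)) ∈ Γ := fun k => Γ.mul_mem (k1 k) (hnat k)
      have h1 := Γ.add_mem (Γ.mul_mem (hnat d) (Γ.pow_mem hθτ (d - 1)))
        (sum_mem' _ _ k2 hθτ (fun k => (k : ℕ) - 1))
      have h2 : ((Polynomial.aeval θ (Polynomial.derivative (minpoly L θ)),
          dpol (fun k => mm k q) τ) : K × ℂ) = ((d : K), (d : ℂ)) * (θ, τ) ^ (d - 1) +
          (∑ k : Fin d, algebraMap L K ((minpoly L θ).coeff k) * ((k : ℕ) : K) *
              θ ^ ((k : ℕ) - 1),
            ∑ k : Fin d, mm k q * ((k : ℕ) : ℂ) * τ ^ ((k : ℕ) - 1)) := by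
        apply Prod.ext
        · rw [hm2]
          show _ = (d : K) * θ ^ (d - 1) + ∑ k : Fin d, algebraMap L K ((minpoly L θ).coeff k) *
            ((k : ℕ) : K) * θ ^ ((k : ℕ) - 1)
          have h3 : ∀ k : Fin d, algebraMap L K ((minpoly L θ).coeff k) *
            (((k : ℕ) : K) * θ ^ ((k : ℕ) - 1)) = algebraMap L K ((minpoly L θ).coeff k) *
            ((k : ℕ) : K) * θ ^ ((k : ℕ) - 1) := fun k => by ring
          rw [Finset.sum_congr rfl fun k _ => h3 k]
        · show (d : ℂ) * τ ^ (d - 1) + ∑ k : Fin d, mm k q * (((k : ℕ) : ℂ) * τ ^ ((k : ℕ) - 1)) =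
            (d : ℂ) * τ ^ (d - 1) + ∑ k : Fin d, mm k q * ((k : ℕ) : ℂ) * τ ^ ((k : ℕ) - 1)
          have h3 : ∀ k : Fin d, mm k q * (((k : ℕ) : ℂ) * τ ^ ((k : ℕ) - 1)) =
            mm k q * ((k : ℕ) : ℂ) * τ ^ ((k : ℕ) - 1) := fun k => by ring
          rw [Finset.sum_congr rfl fun k _ => h3 k]
      rw [h2]
      exact h1
  have hcsub : {q : Fin (M + 1) → ℂ | eval q g ≠ 0} ⊆
      {q | q i0 ≠ 0 ∧ eval (fun i => q i / q i0) G ≠ 0} := fun q hq => ⟨hgi q hq, hgG q hq⟩
  refine ⟨{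
    i0 := i0
    j0 := j0
    D := D
    f := f
    fhom := hf1
    h := h
    hform := hhform
    hne := hhne
    hj := hhj
    g := g
    gform := hgform
    gne := hgne
    gi := hgi
    m := mm
    mcont := fun k => (qt_cont i0 (mN k) G).mono hcsub
    mhom := fun k c q hc _ => qt_smul i0 (mN k) G c hc q
    R := fun j => RR (some (some j))
    Rcont := ?_
    Rhom := ?_
    θ := qt j0 T Q
    θcont := (qt_cont j0 T Q).mono fun p hp => ⟨hhj p hp, hhQ p hp⟩
    θhom := fun c p hc _ => qt_smul j0 T Q c hc p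
    img := ?_
    lift := ?_ }⟩
  · intro j
    show ContinuousOn (fun z : (Fin (M + 1) → ℂ) × ℂ => ∑ k : Fin B,
      qt i0 (zN (some (some j)) k) G z.1 * z.2 ^ (k : ℕ)) _
    refine continuousOn_finsetSum _ fun k _ => ContinuousOn.mul ?_ ?_
    · refine (qt_cont i0 (zN (some (some j)) k) G).comp continuous_fst.continuousOn ?_
      intro z hz
      exact hcsub hz
    · exact (continuous_snd.pow _).continuousOn
  · intro j c q τ hc _
    show ∑ k : Fin B, qt i0 (zN (some (some j)) k) G (c • q) * τ ^ (k : ℕ) = ∑ k : Fin B,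
      qt i0 (zN (some (some j)) k) G q * τ ^ (k : ℕ)
    refine Finset.sum_congr rfl fun k _ => ?_
    rw [qt_smul i0 _ G c hc q]
  · -- image
    intro p hp hph
    set q : Fin (M + 1) → ℂ := fun i => eval p (f i) with hq
    have hpj := hhj p hph
    have hpQ := hhQ p hph
    have hqg : eval q g ≠ 0 := hhg p hph
    have hq0 := hgi q hqg
    have hqG := hgG q hqg
    have hs := sp_pt y j0 hj p hp hpj
    have hΓ : IsGr (Gm v fun j => p j / p j0) := gm_gr hs
    have hvp := gm_mem v (fun j => p j / p j0)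
    have hQi : ((aeval v Q)⁻¹, (eval (fun j => p j / p j0) Q)⁻¹) ∈ Gm v fun j => p j / p j0 :=
      gm_inv hs (hΓ.poly hvp Q) hpQ
    have hPi0 : eval (fun j => p j / p j0) (P i0) = eval (fun j => p j / p j0) Q := by
      have h1 : aeval v (P i0 - Q) = 0 := by
        rw [map_sub, ← hP i0, div_self hi, map_one, one_mul, sub_self]
      have h2 := hs _ h1
      rw [map_sub] at h2
      exact sub_eq_zero.1 h2
    have hqdiv : ∀ i, q i / q i0 = eval (fun j => p j / p j0) (P i) /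
        eval (fun j => p j / p j0) Q := by
      intro i
      rw [hq]
      show eval p (f i) / eval p (f i0) = _
      rw [hff p hpj, hff p hpj, hPi0, mul_div_mul_left _ _ (pow_ne_zero _ hpj)]
    have huq : ∀ i, (u i, q i / q i0) ∈ Gm v fun j => p j / p j0 := by
      intro i
      rw [hqdiv]
      exact core hΓ hvp hQ hQi (hP i)
    have hθp : (θ, qt j0 T Q p) ∈ Gm v fun j => p j / p j0 := core hΓ hvp hQ hQi hT
    have hGi : ((aeval u G)⁻¹, (eval (fun i => q i / q i0) G)⁻¹) ∈ Gm v fun j => p j / p j0 :=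
      gm_inv hs (hΓ.poly huq G) hqG
    obtain ⟨k1, k2, k3⟩ := key _ hΓ q _ huq hGi hθp
    refine ⟨⟨?_, ?_⟩, hqg, hΓ.fn _ k2, ?_⟩
    · intro h0
      exact hq0 (congrFun h0 i0)
    · intro H hH hxH
      unfold val at hxH ⊢
      rw [form_nrm hH x i0 hi] at hxH
      rw [form_nrm hH q i0 hq0, ev]
      apply hΓ.zero huq
      rw [map_ev, hxH, map_zero]
    · intro j
      have h1 := k1 (some (some j))
      rw [← hz1 j] at h1
      exact hΓ.eq h1 (hvp j)
  · -- lift
    intro q hq hqg τ hτ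
    have hq0 := hgi q hqg
    have hqG := hgG q hqg
    have hs := sp_pt x i0 hi q hq hq0
    have hΓ0 : IsGr (Gm (fun i => x i / x i0) fun i => q i / q i0) := gm_gr hs
    have hvq := gm_mem (fun i => x i / x i0) (fun i => q i / q i0)
    have hGi0 : ((aeval (fun i => x i / x i0) G)⁻¹, (eval (fun i => q i / q i0) G)⁻¹) ∈
        Gm (fun i => x i / x i0) fun i => q i / q i0 := gm_inv hs (hΓ0.poly hvq G) hqG
    obtain ⟨Γ, hΓ, hΓ1, hθτ⟩ := extend hΓ0 θ hθ d hd (fun k => mm k q)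
      (fun k => core hΓ0 hvq hG hGi0 (hm k)) τ hτ
    have huq : ∀ i, (u i, q i / q i0) ∈ Γ := fun i => hΓ1 _ _ (hvq i)
    have hGi : ((aeval u G)⁻¹, (eval (fun i => q i / q i0) G)⁻¹) ∈ Γ := by
      have h1 := hΓ1 _ _ hGi0
      rw [map_inv₀, ← hGu] at h1
      exact h1
    obtain ⟨k1, k2, k3⟩ := key _ hΓ q _ huq hGi hθτ
    have hinv : ∀ (z : K) (w w' : ℂ), z ≠ 0 → (z, w) ∈ Γ → (z⁻¹, w') ∈ Γ → w ≠ 0 := by
      intro z w w' hz h1 h2 h0
      have h3 := Γ.mul_mem h1 h2
      rw [Prod.mk_mul_mk, mul_inv_cancel₀ hz, h0, zero_mul] at h3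
      exact zero_ne_one (hΓ.eq h3 Γ.one_mem)
    set p : Fin (M' + 1) → ℂ := fun j => RR (some (some j)) q τ with hp
    have hvp : ∀ j, (v j, p j) ∈ Γ := by
      intro j
      have h1 := k1 (some (some j))
      rw [← hz1 j] at h1
      exact h1
    have hpj : p j0 = 1 := by
      have h1 := hvp j0
      have h2 : v j0 = 1 := div_self hj
      rw [h2] at h1
      exact hΓ.eq h1 Γ.one_mem
    have hpnrm : (fun j => p j / p j0) = p := by
      funext j
      rw [hpj, div_one]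
    have hpj0 : p j0 ≠ 0 := by rw [hpj]; exact one_ne_zero
    have hpQ : eval p Q ≠ 0 := by
      have h1 := k1 (some none)
      rw [← hz2] at h1
      exact hinv _ _ _ hQ (hΓ.poly hvp Q) h1
    have hpP : ∀ i, eval p (P i) = q i / q i0 * eval p Q := by
      intro i
      have h1 := hΓ.poly hvp (P i)
      have h2 := Γ.mul_mem (huq i) (hΓ.poly hvp Q)
      rw [Prod.mk_mul_mk, hP i] at h2
      exact hΓ.eq h1 h2
    have hpT : eval p T = τ * eval p Q := by
      have h1 := hΓ.poly hvp T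
      have h2 := Γ.mul_mem hθτ (hΓ.poly hvp Q)
      rw [Prod.mk_mul_mk, hT] at h2
      exact hΓ.eq h1 h2
    have hpf : ∀ i, eval p (f i) = eval p Q / q i0 * q i := by
      intro i
      rw [hff p hpj0, hpnrm, hpj, one_pow, one_mul, hpP]
      ring
    refine ⟨?_, ⟨?_, ?_⟩, ?_, ?_, eval p Q / q i0, div_ne_zero hpQ hq0, hpf⟩
    · have h1 := k1 none
      rw [← hz3] at h1
      exact hinv _ _ _ hder k3 h1
    · intro h0
      exact hpj0 (congrFun h0 j0)
    · intro H hH hyH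
      unfold val at hyH ⊢
      rw [form_nrm hH y j0 hj] at hyH
      rw [ev]
      exact hΓ.zero hvp hyH
    · rw [hh1, hpj, one_mul]
      refine mul_ne_zero ?_ ?_
      · have h1 := hQ'2 ℂ p hpj0
        rw [ev, ev, hpnrm, hpj, one_pow, one_mul] at h1
        rw [h1]
        exact hpQ
      · have h1 : (fun i => eval p (f i)) = fun i => eval p Q / q i0 * q i := by
          funext i
          exact hpf i
        rw [h1, ← ev, smul_form heg, ev]
        exact mul_ne_zero (pow_ne_zero _ (div_ne_zero hpQ hq0)) hqg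
    · show qt j0 T Q p = τ
      unfold qt
      rw [hpnrm, hpT]
      field_simp

end build

end Pool.Agent.NH55.VA.Alg

namespace Pool.Agent.NH55.VA

theorem alg : S_alg := by
  intro K L _ _ _ _ _ _ _ M M' x y hx hxc hy hyc
  classical
  have : CharZero L := charZero_of_injective_algebraMap (algebraMap ℂ L).injective
  obtain ⟨i0, hi⟩ := Function.ne_iff.1 hx
  obtain ⟨j0, hj⟩ := Function.ne_iff.1 hy
  obtain ⟨θ, hθp⟩ := Field.exists_primitive_element L K
  have hθ : IsIntegral L θ := IsIntegral.of_finite L θ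
  have hd : (minpoly L θ).natDegree = Module.finrank L K :=
    (Field.primitive_element_iff_minpoly_natDegree_eq L θ).1 hθp
  have hder : Polynomial.aeval θ (Polynomial.derivative (minpoly L θ)) ≠ 0 :=
    (Algebra.IsSeparable.isSeparable L θ).aeval_derivative_ne_zero (minpoly.aeval L θ)
  obtain ⟨N1, Q, hQ, hN1⟩ := Alg.com_den (fun j => y j / y j0) (Alg.adjoin_ratio y hyc j0 hj)
    (fun k : Option (Fin (M + 1)) => k.elim θ (fun i => algebraMap L K (x i / x i0)))
  let Z : Option (Option (Fin (M' + 1))) → K := fun a => a.elim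
    (Polynomial.aeval θ (Polynomial.derivative (minpoly L θ)))⁻¹
    (fun b => b.elim (aeval (fun j => y j / y j0) Q)⁻¹ fun j => y j / y j0)
  have hpoly : ∀ z : K, ∃ r : Polynomial L, Polynomial.aeval θ r = z := by
    intro z
    have h1 : (IntermediateField.adjoin L {θ}).toSubalgebra = Algebra.adjoin L {θ} :=
      IntermediateField.adjoin_simple_toSubalgebra_of_isAlgebraic hθ.isAlgebraic
    rw [hθp] at h1
    have h2 : z ∈ Algebra.adjoin L {θ} := by
      rw [← h1]
      trivial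
    rw [Algebra.adjoin_singleton_eq_range_aeval] at h2
    exact h2
  choose r hr using fun a => hpoly (Z a)
  obtain ⟨B, hB⟩ : ∃ B : ℕ, ∀ a, (r a).natDegree < B :=
    ⟨Finset.univ.sup (fun a => (r a).natDegree) + 1, fun a =>
      Nat.lt_succ_of_le (Finset.le_sup (f := fun a => (r a).natDegree) (Finset.mem_univ a))⟩
  obtain ⟨N2, G, hG, hN2⟩ := Alg.com_den (fun i => x i / x i0) (Alg.adjoin_ratio x hxc i0 hi)
    (fun k : Fin (Module.finrank L K) ⊕ (Option (Option (Fin (M' + 1))) × Fin B) =>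
      Sum.elim (fun k : Fin (Module.finrank L K) => (minpoly L θ).coeff k)
        (fun k : Option (Option (Fin (M' + 1))) × Fin B => (r k.1).coeff k.2) k)
  have hz : ∀ a, Z a = ∑ k : Fin B, algebraMap L K ((r a).coeff k) * θ ^ (k : ℕ) := by
    intro a
    rw [← hr a, Polynomial.aeval_eq_sum_range' (hB a), Finset.sum_range]
    refine Finset.sum_congr rfl fun k _ => ?_
    rw [Algebra.smul_def]
  exact Alg.build x y i0 j0 hi hj θ hθ _ hd hder (fun i => N1 (some i)) (N1 none) Q hQ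
    (fun i => hN1 (some i)) (hN1 none) G hG (fun k => N2 (Sum.inl k)) (fun k => hN2 (Sum.inl k)) B
    (fun a k => (r a).coeff k) (fun a k => N2 (Sum.inr (a, k))) (fun j => hz (some (some j)))
    (hz (some none)) (hz none) (fun a k => hN2 (Sum.inr (a, k)))

end Pool.Agent.NH55.VA
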