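import Pool.Agent.NH55.VA.Stm
import Pool.Agent.TH710.SP.Pi1

/-!
# Fundamental groups and dominant rational maps: assembly
-/

set_option autoImplicit false

open FF MvPolynomial Metric Topology Pool.Agent.W602.GT Pool.Agent.TH710.SP
open scoped unitInterval

namespace Pool.Agent.NH55.VA

/-! ### the topology of charts -/

section
variable {K : Type} [Field K] [Algebra ℂ K] {n M : ℕ} {y : Fin (M + 1) → K}

/-- the nonvanishing of a form does not depend on the representative -/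
theorem form_smul {g : MvPolynomial (Fin (M + 1)) ℂ} (hg : IsForm g) {c : ℂ} (hc : c ≠ 0)
    (q : Fin (M + 1) → ℂ) : eval (c • q) g ≠ 0 ↔ eval q g ≠ 0 := by
  obtain ⟨d, hd⟩ := hg
  have h1 : eval (c • q) g = c ^ d * eval q g := by
    rw [MvPolynomial.eval_eq, MvPolynomial.eval_eq, Finset.mul_sum]
    refine Finset.sum_congr rfl fun m hm => ?_
    have h2 : ∑ i ∈ m.support, m i = d := by
      have h3 := hd (mem_support_iff.1 hm)
      rw [Finsupp.weight_apply, Finsupp.sum] at h3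
      simpa using h3
    have h4 : ∏ i ∈ m.support, (c • q) i ^ m i = c ^ d * ∏ i ∈ m.support, q i ^ m i := by
      simp only [Pi.smul_apply, smul_eq_mul, mul_pow]
      rw [Finset.prod_mul_distrib, Finset.prod_pow_eq_pow_sum, h2]
    rw [h4]
    ring
  rw [h1]
  simp [hc]

theorem mkP_eq {x x' : {x : Fin (M + 1) → ℂ // x ≠ 0}} (h : mkP x = mkP x') :
    ∃ c : ℂ, c ≠ 0 ∧ x.1 = c • x'.1 := by
  obtain ⟨c, hc⟩ := (Projectivization.mk_eq_mk_iff' ℂ x.1 x'.1 x.2 x'.2).1 h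
  refine ⟨c, ?_, hc.symm⟩
  rintro rfl
  apply x.2
  rw [← hc, zero_smul]

theorem mem_NZ {g : MvPolynomial (Fin (M + 1)) ℂ} (hg : IsForm g) (p : VPts y)
    (x : {x : Fin (M + 1) → ℂ // x ≠ 0}) (hx : mkP x = (p : CP M)) :
    p ∈ NZ g y ↔ eval x.1 g ≠ 0 := by
  constructor
  · rintro ⟨x', h1, h2⟩
    obtain ⟨c, hc, h3⟩ := mkP_eq (h1.trans hx.symm)
    rw [h3, form_smul hg hc] at h2
    exact h2
  · intro h
    exact ⟨x, hx, h⟩

/-- the part of a chart where a form does not vanish -/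
theorem chart_NZ {g : MvPolynomial (Fin (M + 1)) ℂ} (hg : IsForm g) {N : Set (VPts y)}
    (c : Chart n y N) (z : ball (0 : Fin n → ℂ) 1) :
    ((c.e z : N) : VPts y) ∈ NZ g y ↔ eval (c.φ z) g ≠ 0 := by
  obtain ⟨h, h1⟩ := c.pt z
  exact mem_NZ hg _ ⟨c.φ z, h⟩ h1.symm

theorem chart_path {N : Set (VPts y)} (c : Chart n y N) : IsPathConnected N := by
  have h1 : IsPathConnected (ball (0 : Fin n → ℂ) 1) :=
    (convex_ball _ _).isPathConnected ⟨0, mem_ball_self one_pos⟩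
  have h2 : PathConnectedSpace (ball (0 : Fin n → ℂ) 1) := isPathConnected_iff_pathConnectedSpace.1 h1
  rw [isPathConnected_iff_pathConnectedSpace]
  exact c.e.surjective.pathConnectedSpace c.e.continuous

theorem chart_diff {g : MvPolynomial (Fin (M + 1)) ℂ} {N : Set (VPts y)} (c : Chart n y N) :
    DifferentiableOn ℂ (fun z => eval (c.φ z) g) (ball 0 1) := by
  induction g using MvPolynomial.induction_on with
  | C a =>
    simp only [eval_C]
    exact differentiableOn_const a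
  | add p q hp hq =>
    simp only [map_add]
    exact hp.add hq
  | mul_X p i hp =>
    simp only [map_mul, eval_X]
    exact hp.mul (differentiableOn_pi.1 c.diff i)

theorem chart_conn (hconn : S_conn) (hnz : S_nz) (hy : SmoothProj n y)
    {g : MvPolynomial (Fin (M + 1)) ℂ} (hg : IsForm g) (hg0 : val y g ≠ 0) {N : Set (VPts y)}
    (c : Chart n y N) : IsPathConnected (N ∩ NZ g y) := by
  classical
  have h1 := hconn n (fun z => eval (c.φ z) g) (chart_diff c) (hnz K n M y hy N c g hg hg0)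
  have h2 : N ∩ NZ g y = (fun z : Fin n → ℂ => if h : z ∈ ball (0 : Fin n → ℂ) 1 then
      ((c.e ⟨z, h⟩ : N) : VPts y) else ((c.e ⟨0, mem_ball_self one_pos⟩ : N) : VPts y)) ''
      {z : Fin n → ℂ | z ∈ ball (0 : Fin n → ℂ) 1 ∧ eval (c.φ z) g ≠ 0} := by
    ext p
    constructor
    · rintro ⟨hp1, hp2⟩
      refine ⟨(c.e.symm ⟨p, hp1⟩ : Fin n → ℂ), ⟨(c.e.symm ⟨p, hp1⟩).2, ?_⟩, ?_⟩
      · rw [← chart_NZ hg c (c.e.symm ⟨p, hp1⟩), Homeomorph.apply_symm_apply]
        exact hp2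
      · simp
    · rintro ⟨z, ⟨hz1, hz2⟩, rfl⟩
      simp only [hz1, dif_pos]
      exact ⟨(c.e ⟨z, hz1⟩).2, (chart_NZ hg c ⟨z, hz1⟩).2 hz2⟩
  rw [h2]
  refine h1.image' ?_
  rw [continuousOn_iff_continuous_domRestrict]
  have h3 : Continuous fun z : {z : Fin n → ℂ | z ∈ ball (0 : Fin n → ℂ) 1 ∧ eval (c.φ z) g ≠ 0} =>
      ((c.e ⟨z.1, z.2.1⟩ : N) : VPts y) := by fun_prop
  refine h3.congr fun z => ?_
  have hz := z.2.1
  simp [Set.domRestrict, hz]

theorem chart_homotopic {N : Set (VPts y)} (c : Chart n y N) {a b : VPts y} (γ γ' : Path a b)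
    (h : ∀ t, γ t ∈ N) (h' : ∀ t, γ' t ∈ N) : γ.Homotopic γ' := by
  classical
  have h1 : ContractibleSpace (ball (0 : Fin n → ℂ) 1) :=
    (convex_ball (0 : Fin n → ℂ) 1).contractibleSpace ⟨0, mem_ball_self one_pos⟩
  let π : C(ball (0 : Fin n → ℂ) 1, VPts y) := ⟨fun z => ((c.e z : N) : VPts y), by fun_prop⟩
  let s : VPts y → ball (0 : Fin n → ℂ) 1 := fun p =>
    if hp : p ∈ N then c.e.symm ⟨p, hp⟩ else ⟨0, mem_ball_self one_pos⟩
  refine hom_of_section (E := ball (0 : Fin n → ℂ) 1) N π s ?_ (fun p hp => ?_) γ γ' h h'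
  · rw [continuousOn_iff_continuous_domRestrict]
    refine (c.e.symm.continuous).congr fun p => ?_
    have hp := p.2
    simp [Set.domRestrict, s, hp]
  · simp [π, s, hp]

/-- the hypotheses of (TB) -/
theorem chart_small (hch : S_ch) (hconn : S_conn) (hnz : S_nz) (hy : SmoothProj n y)
    {g : MvPolynomial (Fin (M + 1)) ℂ} (hg : IsForm g) (hg0 : val y g ≠ 0) (p : VPts y)
    (W : Set (VPts y)) (hW : W ∈ 𝓝 p) :
    ∃ N : Set (VPts y), IsOpen N ∧ p ∈ N ∧ N ⊆ W ∧ IsPathConnected N ∧ IsPathConnected (N ∩ NZ g y) ∧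
      ∀ (a b : VPts y) (γ γ' : Path a b), (∀ t, γ t ∈ N) → (∀ t, γ' t ∈ N) → γ.Homotopic γ' := by
  obtain ⟨N, h1, h2, h3, ⟨c⟩⟩ := hch K n M y hy p W hW
  exact ⟨N, h1, h2, h3, chart_path c, chart_conn hconn hnz hy hg hg0 c,
    fun a b γ γ' h h' => chart_homotopic c γ γ' h h'⟩

/-- every point is joined to the part where the form does not vanish -/
theorem joined_NZ (hch : S_ch) (hconn : S_conn) (hnz : S_nz) (hy : SmoothProj n y)
    {g : MvPolynomial (Fin (M + 1)) ℂ} (hg : IsForm g) (hg0 : val y g ≠ 0) (p : VPts y) :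
    ∃ v : NZ g y, Joined p (v : VPts y) := by
  obtain ⟨N, _, h2, _, h4, h5, _⟩ := chart_small hch hconn hnz hy hg hg0 p Set.univ Filter.univ_mem
  obtain ⟨v, hv⟩ := h5.nonempty
  exact ⟨⟨v, hv.2⟩, (h4.joinedIn p h2 v hv.1).joined⟩

end

section
variable {K L : Type} [Field K] [Algebra ℂ K] [Field L] [Algebra ℂ L] {n M M' : ℕ}
  {x : Fin (M + 1) → L} {y : Fin (M' + 1) → K}

/-- the extension to the discs -/
theorem chart_ext (hext : S_ext) (hcp : S_cp) {N : Set (VPts y)} (c : Chart n y N)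
    {h : MvPolynomial (Fin (M' + 1)) ℂ} (hh : IsForm h) (f : Fin (M + 1) → MvPolynomial (Fin (M' + 1)) ℂ)
    (F : NZ h y → VPts x)
    (hF : ∀ (p : NZ h y) (z : {z : Fin (M' + 1) → ℂ // z ≠ 0}), mkP z = ((p : VPts y) : CP M') →
      ∃ hz : (fun i => eval z.1 (f i)) ≠ 0,
        ((F p : VPts x) : CP M) = mkP ⟨fun i => eval z.1 (f i), hz⟩)
    (a : Fin n → ℂ) (ha : a ∈ {z : Fin n → ℂ | z ∈ ball (0 : Fin n → ℂ) 1 ∧ eval (c.φ z) h ≠ 0})
    (v : Fin n → ℂ) : ∃ Φ : ℂ → VPts x, ContinuousOn Φ {l : ℂ | a + l • v ∈ ball (0 : Fin n → ℂ) 1} ∧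
      ∀ (l : ℂ) (hl : a + l • v ∈ {z : Fin n → ℂ | z ∈ ball (0 : Fin n → ℂ) 1 ∧ eval (c.φ z) h ≠ 0}),
        Φ l = F ⟨((c.e ⟨a + l • v, hl.1⟩ : N) : VPts y), (chart_NZ hh c _).2 hl.2⟩ := by
  classical
  set D : Set ℂ := {l : ℂ | a + l • v ∈ ball (0 : Fin n → ℂ) 1} with hD
  have hcont : Continuous fun l : ℂ => a + l • v := by fun_prop
  have hDo : IsOpen D := isOpen_ball.preimage hcont
  have hDc : Convex ℝ D := by
    intro l hl l' hl' s t hs ht hst
    have h1 : a + (s • l + t • l') • v = s • (a + l • v) + t • (a + l' • v) := by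
      rw [smul_add, smul_add]
      have h2 : s • a + t • a = a := by rw [← add_smul, hst, one_smul]
      have h3 : (s • l + t • l') • v = s • l • v + t • l' • v := by
        rw [add_smul, smul_assoc, smul_assoc]
      rw [h3]
      nth_rewrite 1 [← h2]
      abel
    show a + (s • l + t • l') • v ∈ ball (0 : Fin n → ℂ) 1
    rw [h1]
    exact convex_ball (0 : Fin n → ℂ) 1 hl hl' hs ht hst
  have hdl : DifferentiableOn ℂ (fun l : ℂ => a + l • v) D := by fun_prop
  have hmaps : Set.MapsTo (fun l : ℂ => a + l • v) D (ball (0 : Fin n → ℂ) 1) := fun l hl => hl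
  -- the homogeneous coordinates
  set ft : ℂ → Fin (M + 1) → ℂ := fun l i =>
    eval (c.φ (a + l • v)) h * eval (c.φ (a + l • v)) (f i) with hft
  have hftd : DifferentiableOn ℂ ft D := by
    rw [differentiableOn_pi]
    intro i
    have h1 := (chart_diff (g := h) c).comp hdl hmaps
    have h2 := (chart_diff (g := f i) c).comp hdl hmaps
    exact h1.mul h2
  -- the value at a point of the chart
  have key : ∀ (l : ℂ) (hl : a + l • v ∈
      {z : Fin n → ℂ | z ∈ ball (0 : Fin n → ℂ) 1 ∧ eval (c.φ z) h ≠ 0}),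
      ∃ hn : ft l ≠ 0, ((F ⟨((c.e ⟨a + l • v, hl.1⟩ : N) : VPts y), (chart_NZ hh c _).2 hl.2⟩ :
        VPts x) : CP M) = mkP ⟨ft l, hn⟩ := by
    intro l hl
    obtain ⟨hp, hpe⟩ := c.pt ⟨a + l • v, hl.1⟩
    obtain ⟨hz, hze⟩ := hF ⟨((c.e ⟨a + l • v, hl.1⟩ : N) : VPts y), (chart_NZ hh c _).2 hl.2⟩
      ⟨c.φ (a + l • v), hp⟩ hpe.symm
    have h0 : eval (c.φ (a + l • v)) h ≠ 0 := hl.2
    have h1 : ft l = eval (c.φ (a + l • v)) h • fun i => eval (c.φ (a + l • v)) (f i) := rfl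
    refine ⟨?_, ?_⟩
    · rw [h1]
      exact smul_ne_zero h0 hz
    · rw [hze]
      exact ((Projectivization.mk_eq_mk_iff' ℂ _ _ _ _).2 ⟨_, h1.symm⟩).symm
  have h0D : (0 : ℂ) ∈ D := by simpa [hD] using ha.1
  have hl0 : a + (0 : ℂ) • v ∈
      {z : Fin n → ℂ | z ∈ ball (0 : Fin n → ℂ) 1 ∧ eval (c.φ z) h ≠ 0} := by
    simpa using ha
  obtain ⟨Φ, hΦ1, hΦ2, hΦ3⟩ := hext M D ft hDo hDc hftd ⟨0, h0D, (key 0 hl0).1⟩
  -- the values of `Φ`
  have hval : ∀ l ∈ D, Φ l ∈ VPts x := by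
    have h1 : ∀ l ∈ {l | l ∈ D ∧ ft l ≠ 0}, Φ l ∈ VPts x := by
      rintro l ⟨hl1, hl2⟩
      have h2 : eval (c.φ (a + l • v)) h ≠ 0 := by
        intro h3
        apply hl2
        funext i
        simp [hft, h3]
      obtain ⟨hn, he⟩ := key l ⟨hl1, h2⟩
      rw [hΦ2 l hl2 hl1, ← he]
      exact Subtype.prop _
    intro l hl
    have h2 : Φ l ∈ closure (Φ '' {l | l ∈ D ∧ ft l ≠ 0}) :=
      ((hΦ1 l hl).mono fun _ h => h.1).mem_closure_image (hΦ3 hl)
    exact (hcp.2 L M x).closure_subset_iff.2 (by rintro _ ⟨l', hl', rfl⟩; exact h1 l' hl') h2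
  refine ⟨fun l => if hl : l ∈ D then ⟨Φ l, hval l hl⟩ else ⟨Φ 0, hval 0 h0D⟩, ?_, ?_⟩
  · rw [continuousOn_iff_continuous_domRestrict] at hΦ1 ⊢
    refine (hΦ1.subtype_mk fun l => hval l.1 l.2).congr fun l => ?_
    have hl := l.2
    simp only [Set.domRestrict, hl, dif_pos]
  · intro l hl
    have hl1 : l ∈ D := hl.1
    simp only [hl1, dif_pos]
    apply Subtype.ext
    obtain ⟨hn, he⟩ := key l hl
    rw [he]
    exact hΦ2 l hn hl1

/-- a map of the part of a chart where a form does not vanish is trivial on the loops -/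
theorem chart_homIm (hloc : S_loc) (hext : S_ext) (hcp : S_cp) {N : Set (VPts y)} (c : Chart n y N)
    {h : MvPolynomial (Fin (M' + 1)) ℂ} (hh : IsForm h) (f : Fin (M + 1) → MvPolynomial (Fin (M' + 1)) ℂ)
    (F : C(NZ h y, VPts x))
    (hF : ∀ (p : NZ h y) (z : {z : Fin (M' + 1) → ℂ // z ≠ 0}), mkP z = ((p : VPts y) : CP M') →
      ∃ hz : (fun i => eval z.1 (f i)) ≠ 0,
        ((F p : VPts x) : CP M) = mkP ⟨fun i => eval z.1 (f i), hz⟩)
    (a b : NZ h y) (γ γ' : Path a b) (hγ : ∀ t, (γ t : VPts y) ∈ N) (hγ' : ∀ t, (γ' t : VPts y) ∈ N) :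
    HomIm F γ γ' := by
  set W : Set (Fin n → ℂ) := {z : Fin n → ℂ | z ∈ ball (0 : Fin n → ℂ) 1 ∧ eval (c.φ z) h ≠ 0}
    with hW
  let G : C(W, VPts x) := ⟨fun z => F ⟨((c.e ⟨z.1, z.2.1⟩ : N) : VPts y), (chart_NZ hh c _).2 z.2.2⟩,
    by fun_prop⟩
  have hmem : ∀ (p : NZ h y) (hp : (p : VPts y) ∈ N),
      ((c.e.symm ⟨(p : VPts y), hp⟩ : ball (0 : Fin n → ℂ) 1) : Fin n → ℂ) ∈ W := by
    intro p hp
    refine ⟨(c.e.symm ⟨(p : VPts y), hp⟩).2, ?_⟩
    rw [← chart_NZ hh c (c.e.symm ⟨(p : VPts y), hp⟩), Homeomorph.apply_symm_apply]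
    exact p.2
  have hG : ∀ (p : NZ h y) (hp : (p : VPts y) ∈ N), G ⟨_, hmem p hp⟩ = F p := by
    intro p hp
    show F _ = F p
    congr 1
    apply Subtype.ext
    show ((c.e (c.e.symm ⟨(p : VPts y), hp⟩) : N) : VPts y) = (p : VPts y)
    rw [Homeomorph.apply_symm_apply]
  have haN : (a : VPts y) ∈ N := by simpa using hγ 0
  have hbN : (b : VPts y) ∈ N := by simpa using hγ 1
  -- the lifted paths
  have lift : ∀ δ : Path a b, (∀ t, (δ t : VPts y) ∈ N) →
      ∃ δ' : Path (⟨_, hmem a haN⟩ : W) (⟨_, hmem b hbN⟩ : W), ∀ t, G (δ' t) = F (δ t) := by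
    intro δ hδ
    refine ⟨⟨⟨fun t => ⟨_, hmem (δ t) (hδ t)⟩, ?_⟩, ?_, ?_⟩, ?_⟩
    · refine Continuous.subtype_mk ?_ _
      refine continuous_subtype_val.comp (c.e.symm.continuous.comp ?_)
      exact (continuous_subtype_val.comp δ.continuous).subtype_mk _
    · apply Subtype.ext
      simp
    · apply Subtype.ext
      simp
    · intro t
      exact hG (δ t) (hδ t)
  obtain ⟨δ, h1⟩ := lift γ hγ
  obtain ⟨δ', h1'⟩ := lift γ' hγ'
  have h2 : HomIm G δ δ' := hloc n (fun z => eval (c.φ z) h) (chart_diff c) (VPts x) G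
    (fun a ha v => chart_ext hext hcp c hh f F hF a ha v) _ _ δ δ'
  obtain ⟨H⟩ := h2
  have h3 : (δ.map G.continuous).toContinuousMap = (γ.map F.continuous).toContinuousMap := by
    ext t
    exact congrArg _ (h1 t)
  have h3' : (δ'.map G.continuous).toContinuousMap = (γ'.map F.continuous).toContinuousMap := by
    ext t
    exact congrArg _ (h1' t)
  have H' : ContinuousMap.HomotopyRel (δ.map G.continuous).toContinuousMap
    (δ'.map G.continuous).toContinuousMap {0, 1} := H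
  rw [h3, h3'] at H'
  exact ⟨H'⟩

/-- **Fundamental groups and dominant rational maps.** Let `X` and `Y` be smooth projective
varieties of the same dimension with function fields `L ⊂ K`. -/
theorem pi1_dominated (hta : S_ta) (htb : S_tb) (hgrp : S_grp) (hconn : S_conn) (hloc : S_loc)
    (hext : S_ext) (hcp : S_cp) (hch : S_ch) (hnz : S_nz) (halg : S_alg) (hcov : S_cov)
    [Algebra L K] [IsScalarTower ℂ L K] [FiniteDimensional L K]
    (hx : SmoothProj n x) (hy : SmoothProj n y) :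
    ((∀ p : VPts y, VirtAb (FundamentalGroup (VPts y) p)) →
      ∀ p : VPts x, VirtAb (FundamentalGroup (VPts x) p)) ∧
    ((∀ p : VPts y, Subsingleton (FundamentalGroup (VPts y) p)) →
      ∀ p : VPts x, Finite (FundamentalGroup (VPts x) p)) ∧
    ((∀ p : VPts y, Subsingleton (FundamentalGroup (VPts y) p)) →
      Function.Surjective (algebraMap L K) →
      ∀ p : VPts x, Subsingleton (FundamentalGroup (VPts x) p)) ∧
    (PathConnectedSpace (VPts y) → PathConnectedSpace (VPts x)) := by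
  obtain ⟨A⟩ := halg K L M M' x y hx.ne hx.gen hy.ne hy.gen
  obtain ⟨F, hFs, hFf, hFl, hFi, hF⟩ := hcov K L M M' _ x y A Module.finrank_pos
  have : TopologicalSpace.MetrizableSpace (CP M) := (hcp.1 M).2.2.1
  have : TopologicalSpace.MetrizableSpace (CP M') := (hcp.1 M').2.2.1
  have : CompactSpace (CP M) := (hcp.1 M).2.1
  have : CompactSpace (CP M') := (hcp.1 M').2.1
  have : CompactSpace (VPts x) := isCompact_iff_compactSpace.1 (hcp.2 L M x).isCompact
  have : CompactSpace (VPts y) := isCompact_iff_compactSpace.1 (hcp.2 K M' y).isCompact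
  let _ : MetricSpace (VPts x) := TopologicalSpace.metrizableSpaceMetric (VPts x)
  let _ : MetricSpace (VPts y) := TopologicalSpace.metrizableSpaceMetric (VPts y)
  have h1 : ∀ (a b : NZ A.h y) (γ γ' : Path a b),
      (γ.map continuous_subtype_val).Homotopic (γ'.map continuous_subtype_val) →
      HomIm (incl F) γ γ' := by
    refine hta (VPts y) (VPts x) (NZ A.h y) (incl F) fun p ε hε => ?_
    obtain ⟨N, h1, h2, h3, ⟨c⟩⟩ := hch K n M' y hy p (ball p ε) (ball_mem_nhds p hε)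
    exact ⟨N, h1, h2, h3, chart_conn hconn hnz hy A.hform A.hne c,
      fun a b γ γ' h h' => chart_homIm hloc hext hcp c A.hform A.f (incl F) hF a b γ γ' h h'⟩
  have h2 : ∀ (a b : NZ A.h y) (γ : Path (a : VPts y) (b : VPts y)), ∃ γ' : Path a b,
      γ.Homotopic (γ'.map continuous_subtype_val) :=
    htb (VPts y) (NZ A.h y) fun p ε hε =>
      chart_small hch hconn hnz hy A.hform A.hne p (ball p ε) (ball_mem_nhds p hε)
  have h3 : ∀ (a b : NZ A.g x) (γ : Path (a : VPts x) (b : VPts x)), ∃ γ' : Path a b,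
      γ.Homotopic (γ'.map continuous_subtype_val) :=
    htb (VPts x) (NZ A.g x) fun p ε hε =>
      chart_small hch hconn hnz hx A.gform A.gne p (ball p ε) (ball_mem_nhds p hε)
  have h4 := hgrp (VPts y) (VPts x) (NZ A.h y) (NZ A.g x) F hFs hFf hFl h1 h2 h3
    fun p => joined_NZ hch hconn hnz hx A.gform A.gne p
  refine ⟨h4.1, h4.2.1, fun hs hsurj => h4.2.2.1 hs (hFi ?_), fun hp => h4.2.2.2 hp ?_⟩
  · exact Subalgebra.bot_eq_top_iff_finrank_eq_one.1 (Algebra.surjective_algebraMap_iff.1 hsurj).symm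
  · obtain ⟨p⟩ := hp.nonempty
    obtain ⟨v, _⟩ := joined_NZ hch hconn hnz hy A.hform A.hne p
    exact ⟨v⟩

end

end Pool.Agent.NH55.VA
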