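import Pool.Agent.NH55.VA.Stm

/-!
# Dominated varieties: the finiteness of the degree, the projective space as a smooth variety
-/

set_option autoImplicit false

open FF MvPolynomial Metric Topology Pool.Agent.W602.GT Pool.Agent.TH710.SP
open scoped unitInterval

namespace Pool.Agent.NH55.VA

/-- an embedding of function fields of the same dimension is finite -/
theorem finite_embed {L E : Type} [Field L] [Algebra ℂ L] [Field E] [Algebra ℂ E] [Algebra L E]
    [IsScalarTower ℂ L E] {n : ℕ} (hL : Algebra.trdeg ℂ L = n) (hE : Algebra.trdeg ℂ E = n)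
    {S : Set E} (hS : S.Finite) (hgen : IntermediateField.adjoin ℂ S = ⊤) :
    FiniteDimensional L E := by
  have h1 : Algebra.trdeg ℂ L + Algebra.trdeg L E = Algebra.trdeg ℂ E := trdeg_add_eq ℂ L
  have h2 : Algebra.trdeg L E = 0 := by
    rw [hL, hE] at h1
    have h3 : Algebra.trdeg L E < Cardinal.aleph0 := by
      refine lt_of_le_of_lt ?_ (Cardinal.natCast_lt_aleph0 (n := n))
      rw [← h1]
      exact le_add_self
    obtain ⟨m, hm⟩ := Cardinal.lt_aleph0.1 h3
    rw [hm] at h1 ⊢
    have h4 : n + m = n := by exact_mod_cast h1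
    have h5 : m = 0 := by omega
    rw [h5, Nat.cast_zero]
  have halg : Algebra.IsAlgebraic L E := trdeg_eq_zero_iff.1 h2
  have hfin : Finite S := hS.to_subtype
  have h3 : FiniteDimensional L (IntermediateField.adjoin L S) :=
    IntermediateField.finiteDimensional_adjoin fun x _ => (halg.isAlgebraic x).isIntegral
  have h4 : IntermediateField.adjoin L S = ⊤ := by
    have h5 : (IntermediateField.adjoin ℂ S : IntermediateField ℂ E) ≤
        (IntermediateField.adjoin L S).restrictScalars ℂ := by
      rw [IntermediateField.adjoin_le_iff]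
      exact IntermediateField.subset_adjoin _ _
    rw [eq_top_iff]
    intro x _
    apply h5
    rw [hgen]
    exact IntermediateField.mem_top
  rw [h4] at h3
  exact LinearEquiv.finiteDimensional (IntermediateField.topEquiv (F := L) (E := E)).toLinearEquiv

theorem finite_ratios {E : Type} [Field E] {M : ℕ} (y : Fin (M + 1) → E) :
    {z | ∃ i j, y j ≠ 0 ∧ z = y i / y j}.Finite := by
  refine (Set.finite_range fun p : Fin (M + 1) × Fin (M + 1) => y p.1 / y p.2).subset ?_
  rintro z ⟨i, j, -, rfl⟩
  exact ⟨(i, j), rfl⟩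

/-- the generic point of the projective space -/
noncomputable def ptP (n : ℕ) : Fin (n + 1) → FractionRing (MvPolynomial (Fin n) ℂ) :=
  Fin.cons 1 fun j => algebraMap (MvPolynomial (Fin n) ℂ) _ (X j)

section
variable (n : ℕ)

theorem ptP_ind : AlgebraicIndependent ℂ fun j : Fin n => ptP n j.succ := by
  have hinj : Function.Injective (algebraMap (MvPolynomial (Fin n) ℂ)
    (FractionRing (MvPolynomial (Fin n) ℂ))) := IsFractionRing.injective _ _
  have h1 := (MvPolynomial.algebraicIndependent_X (Fin n) ℂ).map'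
    (f := IsScalarTower.toAlgHom ℂ (MvPolynomial (Fin n) ℂ)
      (FractionRing (MvPolynomial (Fin n) ℂ))) hinj
  exact h1

theorem ptP_zero : ptP n 0 = 1 := rfl

theorem ptP_gen : coords ℂ (ptP n) = ⊤ := by
  rw [eq_top_iff]
  intro x _
  have hpol : ∀ p : MvPolynomial (Fin n) ℂ, algebraMap (MvPolynomial (Fin n) ℂ)
      (FractionRing (MvPolynomial (Fin n) ℂ)) p ∈ coords ℂ (ptP n) := by
    intro p
    induction p using MvPolynomial.induction_on with
    | C c =>
      have h1 : algebraMap (MvPolynomial (Fin n) ℂ) (FractionRing (MvPolynomial (Fin n) ℂ))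
          (MvPolynomial.C c) = algebraMap ℂ _ c :=
        (IsScalarTower.algebraMap_apply ℂ (MvPolynomial (Fin n) ℂ) _ c).symm
      rw [h1]
      exact IntermediateField.algebraMap_mem _ c
    | add p q hp hq =>
      rw [map_add]
      exact add_mem hp hq
    | mul_X p j hp =>
      rw [map_mul]
      refine mul_mem hp (IntermediateField.subset_adjoin ℂ _ ⟨j.succ, 0, ?_, ?_⟩)
      · rw [ptP_zero]
        exact one_ne_zero
      · rw [ptP_zero, div_one]
        rfl
  obtain ⟨p, q, -, rfl⟩ := IsFractionRing.div_surjective (A := MvPolynomial (Fin n) ℂ) x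
  exact div_mem (hpol p) (hpol q)

theorem ptP_dim : Algebra.trdeg ℂ (FractionRing (MvPolynomial (Fin n) ℂ)) = n := by
  have hbasis : IsTranscendenceBasis ℂ fun j : Fin n => ptP n j.succ := by
    rw [(ptP_ind n).isTranscendenceBasis_iff_isAlgebraic,
      ← IntermediateField.isAlgebraic_adjoin_iff_top]
    have h1 : IntermediateField.adjoin ℂ (Set.range fun j : Fin n => ptP n j.succ) = ⊤ := by
      rw [eq_top_iff, ← ptP_gen n]
      refine IntermediateField.adjoin_le_iff.2 ?_
      rintro z ⟨i, j, -, rfl⟩
      have h2 : ∀ i, ptP n i ∈ IntermediateField.adjoin ℂ (Set.range fun j : Fin n => ptP n j.succ) := by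
        intro i
        refine Fin.cases ?_ (fun j => ?_) i
        · rw [ptP_zero]
          exact one_mem _
        · exact IntermediateField.subset_adjoin ℂ _ ⟨j, rfl⟩
      exact div_mem (h2 i) (h2 j)
    rw [h1]
    infer_instance
  have h1 := hbasis.cardinalMk_eq_trdeg
  rw [Cardinal.mk_fin] at h1
  exact h1.symm

/-- no form vanishes at the generic point of the projective space -/
theorem ptP_val {G : MvPolynomial (Fin (n + 1)) ℂ} (hG : IsForm G) (h : val (ptP n) G = 0) :
    G = 0 := by
  obtain ⟨d, hd⟩ := hG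
  -- dehomogenize
  have h1 : aeval (Fin.cons 1 X : Fin (n + 1) → MvPolynomial (Fin n) ℂ) G = 0 := by
    have hinj : Function.Injective (algebraMap (MvPolynomial (Fin n) ℂ)
      (FractionRing (MvPolynomial (Fin n) ℂ))) := IsFractionRing.injective _ _
    apply hinj
    rw [map_zero, ← h]
    have h2 : (IsScalarTower.toAlgHom ℂ (MvPolynomial (Fin n) ℂ)
        (FractionRing (MvPolynomial (Fin n) ℂ))) (aeval (Fin.cons 1 X :
          Fin (n + 1) → MvPolynomial (Fin n) ℂ) G) = aeval (fun i => (IsScalarTower.toAlgHom ℂ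
            (MvPolynomial (Fin n) ℂ) (FractionRing (MvPolynomial (Fin n) ℂ)))
            ((Fin.cons 1 X : Fin (n + 1) → MvPolynomial (Fin n) ℂ) i)) G := by
      rw [comp_aeval_apply]
    refine h2.trans ?_
    unfold val
    congr 1
    congr 1
    funext i
    refine Fin.cases ?_ (fun j => ?_) i
    · simp [ptP]
    · simp [ptP]
  apply MvPolynomial.funext
  intro z
  rw [map_zero]
  -- for `z 0 ≠ 0`
  have h3 : ∀ z : Fin (n + 1) → ℂ, z 0 ≠ 0 → eval z G = 0 := by
    intro z hz
    have h4 : eval (z 0 • (Fin.cons 1 fun j => z (Fin.succ j) / z 0 : Fin (n + 1) → ℂ)) G = 0 := by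
      have h5 : eval (Fin.cons 1 fun j => z (Fin.succ j) / z 0 : Fin (n + 1) → ℂ) G = 0 := by
        have h6 := congrArg (eval fun j => z (Fin.succ j) / z 0) h1
        rw [map_zero] at h6
        rw [← h6, ← coe_aeval_eq_eval, ← coe_aeval_eq_eval]
        show aeval _ G = aeval _ (aeval _ G)
        rw [comp_aeval_apply]
        congr 1
        congr 1
        funext i
        refine Fin.cases ?_ (fun j => ?_) i
        · simp
        · simp
      have h7 : eval (z 0 • (Fin.cons 1 fun j => z (Fin.succ j) / z 0 : Fin (n + 1) → ℂ)) G =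
          z 0 ^ d * eval (Fin.cons 1 fun j => z (Fin.succ j) / z 0 : Fin (n + 1) → ℂ) G := by
        rw [MvPolynomial.eval_eq, MvPolynomial.eval_eq, Finset.mul_sum]
        refine Finset.sum_congr rfl fun m hm => ?_
        have h2 : ∑ i ∈ m.support, m i = d := by
          have h3 := hd (mem_support_iff.1 hm)
          rw [Finsupp.weight_apply, Finsupp.sum] at h3
          simpa using h3
        simp only [Pi.smul_apply, smul_eq_mul, mul_pow]
        rw [Finset.prod_mul_distrib, Finset.prod_pow_eq_pow_sum, h2]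
        ring
      rw [h7, h5, mul_zero]
    have h8 : z 0 • (Fin.cons 1 fun j => z (Fin.succ j) / z 0 : Fin (n + 1) → ℂ) = z := by
      funext i
      refine Fin.cases ?_ (fun j => ?_) i
      · simp
      · simp only [Pi.smul_apply, Fin.cons_succ, smul_eq_mul]
        field_simp
    rwa [h8] at h4
  -- `X 0 * G` vanishes everywhere
  have h9 : X 0 * G = 0 := by
    apply MvPolynomial.funext
    intro z
    rw [map_mul, eval_X, map_zero]
    by_cases hz : z 0 = 0
    · rw [hz, zero_mul]
    · rw [h3 z hz, mul_zero]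
  rcases mul_eq_zero.1 h9 with h10 | h10
  · exact absurd h10 (X_ne_zero 0)
  · rw [h10, map_zero]

theorem ptP_pts (x : Fin (n + 1) → ℂ) : x ∈ VarPts ℂ (ptP n) ↔ x ≠ 0 := by
  refine ⟨fun h => h.1, fun h => ⟨h, fun G hG h1 => ?_⟩⟩
  rw [ptP_val n hG h1]
  simp [val]

theorem smooth_ptP : SmoothProj n (ptP n) where
  ne := fun h => one_ne_zero (α := FractionRing (MvPolynomial (Fin n) ℂ)) (congrFun h 0)
  gen := ptP_gen n
  dim := ptP_dim n
  smooth := fun x hx => by
    refine ⟨0, fun j => j.elim0, by simp, fun j => j.elim0, linearIndependent_empty_type, ?_⟩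
    have h1 : x ≠ 0 := hx.1
    filter_upwards [isOpen_ne.mem_nhds h1] with z hz
    rw [ptP_pts]
    exact ⟨fun _ j => j.elim0, fun _ => hz⟩

theorem linear_ptP : IsLinear ℂ (ptP n) := by
  intro a _ b _ c c' h
  rw [ptP_pts]
  exact h

end

end Pool.Agent.NH55.VA
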