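import Pool.Agent.NH55.VA.Ext
import Pool.Agent.NH55.VA.BaseA
import Pool.Agent.TH710.SP.Pi1

/-!
# The projective space is simply connected
-/

set_option autoImplicit false

open FF MvPolynomial Metric Topology Pool.Agent.W602.GT Pool.Agent.TH710.SP
open scoped unitInterval

namespace Pool.Agent.NH55.VA

theorem mkP_cont (n : ℕ) : Continuous (mkP (n := n)) := continuous_coinduced_rng

theorem mkP_smul {n : ℕ} {x x' : {x : Fin (n + 1) → ℂ // x ≠ 0}} {c : ℂ} (h : x.1 = c • x'.1) :
    mkP x = mkP x' :=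
  (Projectivization.mk_eq_mk_iff' ℂ x.1 x'.1 x.2 x'.2).2 ⟨c, h.symm⟩

theorem mkP_rep {n : ℕ} {x x' : {x : Fin (n + 1) → ℂ // x ≠ 0}} (h : mkP x = mkP x') :
    ∃ c : ℂ, c ≠ 0 ∧ x.1 = c • x'.1 := by
  obtain ⟨c, hc⟩ := (Projectivization.mk_eq_mk_iff' ℂ x.1 x'.1 x.2 x'.2).1 h
  refine ⟨c, ?_, hc.symm⟩
  rintro rfl
  apply x.2
  rw [← hc, zero_smul]

theorem mkP_surj (n : ℕ) : Function.Surjective (mkP (n := n)) := fun p =>
  ⟨⟨p.rep, p.rep_nonzero⟩, p.mk_rep⟩

theorem exists_gam (z : ℂ) : ∃ γ : I → ℂ, Continuous γ ∧ γ 0 = 1 ∧ γ 1 = z ∧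
    (z ≠ 0 → ∀ t, γ t ≠ 0) := by
  by_cases hz : z = 0
  · refine ⟨fun t => 1 - ((t : ℝ) : ℂ), by fun_prop, by simp, by simp [hz], fun h => absurd hz h⟩
  · refine ⟨fun t => Complex.exp (((t : ℝ) : ℂ) * Complex.log z), by fun_prop, by simp, ?_,
      fun _ t => Complex.exp_ne_zero _⟩
    simp [Complex.exp_log hz]

/-- the quotients of the coordinates -/
noncomputable def rat {n : ℕ} (b b' : Fin (n + 1)) (p : CP n) : ℂ := p.rep b' / p.rep b

theorem rat_mk {n : ℕ} (b b' : Fin (n + 1)) (x : {x : Fin (n + 1) → ℂ // x ≠ 0}) :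
    rat b b' (mkP x) = x.1 b' / x.1 b := by
  obtain ⟨c, hc, h⟩ := mkP_rep (x := ⟨(mkP x).rep, (mkP x).rep_nonzero⟩) (x' := x) (mkP x).mk_rep
  have h' : (mkP x).rep = c • x.1 := h
  unfold rat
  rw [h']
  simp only [Pi.smul_apply, smul_eq_mul]
  exact mul_div_mul_left _ _ hc

theorem simply_CP (n : ℕ) : SimplyConnectedSpace (CP n) := by
  classical
  have hq : IsOpenQuotientMap (mkP (n := n)) := (cp.1 n).2.2.2
  let O : Fin (n + 1) → Set (CP n) := fun b => mkP '' {x | x.1 b ≠ 0}
  have hO : ∀ b, IsOpen (O b) := by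
    intro b
    apply hq.isOpenMap
    exact ((continuous_apply b).comp continuous_subtype_val).isOpen_preimage _
      isOpen_compl_singleton
  have hrep : ∀ b (x : {x : Fin (n + 1) → ℂ // x ≠ 0}), mkP x ∈ O b ↔ x.1 b ≠ 0 := by
    intro b x
    constructor
    · rintro ⟨z, hz, hzx⟩
      obtain ⟨c, hc, h⟩ := mkP_rep hzx
      intro h0
      apply hz
      rw [h, Pi.smul_apply, h0, smul_zero]
    · intro h
      exact ⟨x, h, rfl⟩
  have hone : (fun _ : Fin (n + 1) => (1 : ℂ)) ≠ 0 := by
    intro h0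
    have := congrFun h0 0
    simp at this
  refine simply_of_cover O hO ?_ (mkP ⟨_, hone⟩) (fun b => (hrep b _).2 one_ne_zero) ?_ ?_
  · intro p
    obtain ⟨x, rfl⟩ := mkP_surj n p
    have h1 : ∃ b, x.1 b ≠ 0 := by
      by_contra hcon
      push Not at hcon
      exact x.2 (funext hcon)
    obtain ⟨b, hb⟩ := h1
    exact ⟨b, (hrep b x).2 hb⟩
  · rintro i j p ⟨hi, hj⟩
    obtain ⟨x, rfl⟩ := mkP_surj n p
    rw [hrep] at hi hj
    choose γ hγc hγ0 hγ1 hγ using exists_gam
    have hne : ∀ t, (fun b => γ (x.1 b) t) ≠ 0 := by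
      intro t h0
      exact hγ _ hi t (congrFun h0 i)
    have hc : Continuous fun t : I => (fun b => γ (x.1 b) t : Fin (n + 1) → ℂ) := by
      rw [continuous_pi_iff]
      intro b
      exact hγc _
    refine ⟨{ toFun := fun t => mkP ⟨_, hne t⟩
              continuous_toFun := (mkP_cont n).comp (hc.subtype_mk _)
              source' := ?_
              target' := ?_ }, fun t => ⟨(hrep i _).2 (hγ _ hi t), (hrep j _).2 (hγ _ hj t)⟩⟩
    · congr 1
      apply Subtype.ext
      funext b
      exact hγ0 _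
    · congr 1
      apply Subtype.ext
      funext b
      exact hγ1 _
  · intro b x z p p' hp hp'
    have : ContractibleSpace (Fin (n + 1) → ℂ) := RealTopologicalVectorSpace.contractibleSpace
    have hup : ∀ s : Fin (n + 1) → ℂ, Function.update s b 1 ≠ 0 := by
      intro s h0
      have := congrFun h0 b
      simp at this
    refine hom_of_section (E := Fin (n + 1) → ℂ) (O b)
      { toFun := fun s => mkP ⟨_, hup s⟩
        continuous_toFun := by
          refine (mkP_cont n).comp (Continuous.subtype_mk ?_ _)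
          exact continuous_id.update b continuous_const }
      (fun p b' => rat b b' p) ?_ ?_ p p' hp hp'
    · rw [continuousOn_pi]
      intro b'
      have h1 : ContinuousOn ((fun p : CP n => rat b b' p) ∘ mkP) (mkP ⁻¹' O b) := by
        have h2 : Set.EqOn ((fun p : CP n => rat b b' p) ∘ mkP)
            (fun x : {x : Fin (n + 1) → ℂ // x ≠ 0} => x.1 b' / x.1 b) (mkP ⁻¹' O b) :=
          fun x _ => rat_mk b b' x
        refine ContinuousOn.congr ?_ h2
        exact ContinuousOn.div ((continuous_apply b').comp continuous_subtype_val).continuousOn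
          ((continuous_apply b).comp continuous_subtype_val).continuousOn
          fun x hx => (hrep b x).1 hx
      intro w hw
      obtain ⟨x, rfl⟩ := mkP_surj n w
      have h3 : ContinuousAt ((fun p : CP n => rat b b' p) ∘ mkP) x :=
        h1.continuousAt (((hO b).preimage (mkP_cont n)).mem_nhds hw)
      have h4 : ContinuousAt (fun p : CP n => rat b b' p) (mkP x) := by
        rw [ContinuousAt, ← hq.isOpenMap.map_nhds_eq (mkP_cont n).continuousAt]
        exact h3
      exact h4.continuousWithinAt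
    · intro w hw
      obtain ⟨x, rfl⟩ := mkP_surj n w
      rw [hrep] at hw
      show mkP _ = mkP x
      refine mkP_smul (c := (x.1 b)⁻¹) ?_
      funext b'
      simp only [Pi.smul_apply, smul_eq_mul]
      by_cases hb : b' = b
      · subst hb
        rw [Function.update_self, inv_mul_cancel₀ hw]
      · rw [Function.update_of_ne hb, rat_mk, div_eq_mul_inv, mul_comm]

theorem VPts_ptP (n : ℕ) : VPts (ptP n) = Set.univ := by
  rw [Set.eq_univ_iff_forall]
  intro p
  obtain ⟨x, rfl⟩ := mkP_surj n p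
  exact ⟨x, rfl, (ptP_pts n x.1).2 x.2⟩

theorem simply_ptP (n : ℕ) : SimplyConnectedSpace (VPts (ptP n)) := by
  have h1 := simply_CP n
  rw [VPts_ptP]
  exact (Homeomorph.Set.univ (CP n)).toHomotopyEquiv.simplyConnectedSpace

end Pool.Agent.NH55.VA
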