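import Pool.Agent.NH55.VA.Stm

/-!
# Charts of smooth projective varieties
-/

set_option autoImplicit false

open FF MvPolynomial Metric Topology Pool.Agent.W602.GT Pool.Agent.TH710.SP

namespace Pool.Agent.NH55.VA

namespace Ch

/-- the gradient as a linear map -/
noncomputable def gr {m : ℕ} (G : MvPolynomial (Fin m) ℂ) (x : Fin m → ℂ) :
    (Fin m → ℂ) →L[ℂ] ℂ :=
  ∑ i, eval x (pderiv i G) • (ContinuousLinearMap.proj i : (Fin m → ℂ) →L[ℂ] ℂ)

theorem gr_apply {m : ℕ} (G : MvPolynomial (Fin m) ℂ) (x v : Fin m → ℂ) :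
    gr G x v = ∑ i, eval x (pderiv i G) * v i := by
  unfold gr
  simp [ContinuousLinearMap.sum_apply]

theorem hasFDerivAt_eval {m : ℕ} (G : MvPolynomial (Fin m) ℂ) (x : Fin m → ℂ) :
    HasFDerivAt (fun z : Fin m → ℂ => eval z G) (gr G x) x := by
  induction G using MvPolynomial.induction_on with
  | C a =>
    have : gr (C a) x = 0 := by
      ext v
      rw [gr_apply]
      simp
    rw [this]
    simp only [eval_C]
    exact hasFDerivAt_const _ _
  | add p q hp hq =>
    have : gr (p + q) x = gr p x + gr q x := by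
      ext v
      rw [ContinuousLinearMap.add_apply, gr_apply, gr_apply, gr_apply, ← Finset.sum_add_distrib]
      refine Finset.sum_congr rfl fun i _ => ?_
      rw [map_add, map_add, add_mul]
    rw [this]
    simp only [map_add]
    exact hp.add hq
  | mul_X p j hp =>
    have h1 : HasFDerivAt (fun z : Fin m → ℂ => z j)
        (ContinuousLinearMap.proj j : (Fin m → ℂ) →L[ℂ] ℂ) x := by
      exact (ContinuousLinearMap.proj j : (Fin m → ℂ) →L[ℂ] ℂ).hasFDerivAt
    have h2 := hp.mul h1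
    have : gr (p * X j) x = eval x p • (ContinuousLinearMap.proj j : (Fin m → ℂ) →L[ℂ] ℂ) +
        x j • gr p x := by
      ext v
      rw [gr_apply]
      simp only [ContinuousLinearMap.add_apply, ContinuousLinearMap.smul_apply,
        ContinuousLinearMap.proj_apply, smul_eq_mul]
      rw [gr_apply]
      have h3 : ∀ i, eval x (pderiv i (p * X j)) * v i =
          (if i = j then eval x p * v i else 0) + x j * (eval x (pderiv i p) * v i) := by
        intro i
        rw [Derivation.leibniz, map_add, smul_eq_mul, smul_eq_mul, map_mul, map_mul, eval_X,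
          pderiv_X]
        by_cases h : i = j
        · subst h
          simp
          ring
        · rw [if_neg h, Pi.single_eq_of_ne (Ne.symm h)]
          simp
          ring
      simp only [h3]
      rw [Finset.sum_add_distrib, ← Finset.mul_sum]
      simp
    rw [this]
    simp only [map_mul, eval_X]
    exact h2

theorem contDiff_eval {m : ℕ} (G : MvPolynomial (Fin m) ℂ) (n : WithTop ℕ∞) :
    ContDiff ℂ n (fun z : Fin m → ℂ => eval z G) := by
  induction G using MvPolynomial.induction_on with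
  | C a =>
    simp only [eval_C]
    exact contDiff_const
  | add p q hp hq =>
    simp only [map_add]
    exact hp.add hq
  | mul_X p j hp =>
    simp only [map_mul, eval_X]
    exact hp.mul (contDiff_apply ℂ ℂ j)

/-- choice of the coordinates -/
theorem sel {m n q : ℕ} (x : Fin m → ℂ) (i0 : Fin m) (hx : x i0 = 1) (g : Fin q → Fin m → ℂ)
    (hg : LinearIndependent ℂ g) (hgx : ∀ j, ∑ i, g j i * x i = 0) (hm : q + n + 1 = m) :
    ∃ ix : Fin n → Fin m, ∀ v : Fin m → ℂ, v i0 = 0 → (∀ j, ∑ i, g j i * v i = 0) →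
      (∀ k, v (ix k) = 0) → v = 0 := by
  classical
  -- the functional of `x`
  let fx : (Fin m → ℂ) →ₗ[ℂ] ℂ := ∑ i, x i • (LinearMap.proj i : (Fin m → ℂ) →ₗ[ℂ] ℂ)
  have hfx : ∀ v : Fin m → ℂ, fx v = ∑ i, x i * v i := by
    intro v
    simp [fx, LinearMap.sum_apply]
  let A : Matrix (Option (Fin q)) (Fin m) ℂ := fun o =>
    match o with
    | none => Pi.single i0 1
    | some j => g j
  have hA : LinearIndependent ℂ A.row := by
    refine linearIndependent_option.2 ⟨hg, ?_⟩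
    intro hmem
    have hle : Submodule.span ℂ (Set.range (A.row ∘ some)) ≤ LinearMap.ker fx := by
      rw [Submodule.span_le]
      rintro _ ⟨j, rfl⟩
      rw [SetLike.mem_coe, LinearMap.mem_ker, hfx]
      have := hgx j
      rw [← this]
      refine Finset.sum_congr rfl fun i _ => ?_
      show x i * g j i = g j i * x i
      ring
    have h1 := hle hmem
    rw [LinearMap.mem_ker, hfx] at h1
    have h2 : ∑ i, x i * A.row none i = x i0 := by
      show ∑ i, x i * (Pi.single i0 1 : Fin m → ℂ) i = x i0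
      simp [Pi.single_apply]
    rw [h2, hx] at h1
    exact one_ne_zero h1
  have hrank := hA.rank_matrix
  rw [Fintype.card_option, Fintype.card_fin, Matrix.rank] at hrank
  have hdim := LinearMap.finrank_range_add_finrank_ker A.mulVecLin
  rw [hrank, Module.finrank_fin_fun] at hdim
  have hker : Module.finrank ℂ (LinearMap.ker A.mulVecLin) = n := by omega
  set U := LinearMap.ker A.mulVecLin with hU
  let φ : Fin m → Module.Dual ℂ U := fun i =>
    (LinearMap.proj i : (Fin m → ℂ) →ₗ[ℂ] ℂ).comp U.subtype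
  obtain ⟨κ, a, ha, hsp, hli⟩ := exists_linearIndependent' ℂ φ
  have hfin : Finite κ := Finite.of_injective a ha
  have : Fintype κ := Fintype.ofFinite κ
  have hcard : Fintype.card κ ≤ n := by
    have := hli.fintype_card_le_finrank
    rwa [Subspace.dual_finrank_eq, hker] at this
  obtain ⟨e⟩ : Nonempty (κ ↪ Fin n) := by
    rw [Function.Embedding.nonempty_iff_card_le, Fintype.card_fin]
    exact hcard
  refine ⟨Function.extend e a (fun _ => i0), fun v hv0 hvg hvk => ?_⟩
  have hvU : v ∈ U := by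
    rw [hU, LinearMap.mem_ker]
    ext o
    rw [Matrix.mulVecLin_apply, Matrix.mulVec, dotProduct]
    rcases o with _ | j
    · show ∑ i, (Pi.single i0 1 : Fin m → ℂ) i * v i = 0
      simp [Pi.single_apply, hv0]
    · exact hvg j
  have hle : Submodule.span ℂ (Set.range (φ ∘ a)) ≤
      LinearMap.ker (Module.Dual.eval ℂ U ⟨v, hvU⟩) := by
    rw [Submodule.span_le]
    rintro _ ⟨k, rfl⟩
    rw [SetLike.mem_coe, LinearMap.mem_ker]
    show v (a k) = 0
    have h1 := hvk (e k)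
    rwa [e.injective.extend_apply] at h1
  rw [hsp] at hle
  funext i
  have h1 := hle (Submodule.subset_span ⟨i, rfl⟩)
  rw [LinearMap.mem_ker] at h1
  exact h1

section

variable {m n q : ℕ} (G : Fin q → MvPolynomial (Fin m) ℂ) (i0 : Fin m) (ix : Fin n → Fin m)

/-- the map whose inverse gives the chart -/
noncomputable def Psi (z : Fin m → ℂ) : ℂ × (Fin q → ℂ) × (Fin n → ℂ) :=
  (z i0, (fun j => eval z (G j)), fun k => z (ix k))

/-- its derivative -/
noncomputable def dPsi (x : Fin m → ℂ) : (Fin m → ℂ) →L[ℂ] ℂ × (Fin q → ℂ) × (Fin n → ℂ) :=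
  (ContinuousLinearMap.proj i0 : (Fin m → ℂ) →L[ℂ] ℂ).prod
    ((ContinuousLinearMap.pi fun j => gr (G j) x).prod
      (ContinuousLinearMap.pi fun k => (ContinuousLinearMap.proj (ix k) : (Fin m → ℂ) →L[ℂ] ℂ)))

theorem hasFDerivAt_Psi (x : Fin m → ℂ) : HasFDerivAt (Psi G i0 ix) (dPsi G i0 ix x) x := by
  refine HasFDerivAt.prodMk ?_ (HasFDerivAt.prodMk ?_ ?_)
  · exact (ContinuousLinearMap.proj i0 : (Fin m → ℂ) →L[ℂ] ℂ).hasFDerivAt
  · exact hasFDerivAt_pi.2 fun j => hasFDerivAt_eval (G j) x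
  · exact hasFDerivAt_pi.2 fun k =>
      (ContinuousLinearMap.proj (ix k) : (Fin m → ℂ) →L[ℂ] ℂ).hasFDerivAt

theorem contDiff_Psi : ContDiff ℂ 1 (Psi G i0 ix) := by
  refine ContDiff.prodMk ?_ (ContDiff.prodMk ?_ ?_)
  · exact contDiff_apply ℂ ℂ i0
  · exact contDiff_pi.2 fun j => contDiff_eval (G j) 1
  · exact contDiff_pi.2 fun k => contDiff_apply ℂ ℂ (ix k)

theorem exists_equiv (x : Fin m → ℂ) (hm : q + n + 1 = m)
    (h : ∀ v : Fin m → ℂ, v i0 = 0 → (∀ j, gr (G j) x v = 0) → (∀ k, v (ix k) = 0) → v = 0) :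
    ∃ L : (Fin m → ℂ) ≃L[ℂ] ℂ × (Fin q → ℂ) × (Fin n → ℂ),
      (L : (Fin m → ℂ) →L[ℂ] ℂ × (Fin q → ℂ) × (Fin n → ℂ)) = dPsi G i0 ix x := by
  have hinj : Function.Injective (dPsi G i0 ix x).toLinearMap := by
    rw [← LinearMap.ker_eq_bot, LinearMap.ker_eq_bot']
    intro v hv
    have hv' : dPsi G i0 ix x v = 0 := hv
    have h1 : v i0 = 0 := congrArg Prod.fst hv'
    have h2 : (fun j => gr (G j) x v) = 0 := congrArg (fun t => t.2.1) hv'
    have h3 : (fun k => v (ix k)) = 0 := congrArg (fun t => t.2.2) hv'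
    exact h v h1 (fun j => congrFun h2 j) fun k => congrFun h3 k
  have hdim : Module.finrank ℂ (Fin m → ℂ) =
      Module.finrank ℂ (ℂ × (Fin q → ℂ) × (Fin n → ℂ)) := by
    rw [Module.finrank_prod, Module.finrank_prod, Module.finrank_fin_fun, Module.finrank_fin_fun,
      Module.finrank_fin_fun, Module.finrank_self]
    omega
  have hsurj := (LinearMap.injective_iff_surjective_of_finrank_eq_finrank hdim).1 hinj
  refine ⟨(LinearEquiv.ofBijective (dPsi G i0 ix x).toLinearMap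
    ⟨hinj, hsurj⟩).toContinuousLinearEquiv, ?_⟩
  ext v
  · rfl
  · rfl
  · rfl

end

/-- points of the variety and scalars -/
theorem smul_mem {K : Type} [Field K] [Algebra ℂ K] {M : ℕ} {y : Fin (M + 1) → K}
    {z : Fin (M + 1) → ℂ} (hz : z ∈ VarPts ℂ y) {c : ℂ} (hc : c ≠ 0) : c • z ∈ VarPts ℂ y := by
  refine ⟨smul_ne_zero hc hz.1, fun G hG hy => ?_⟩
  obtain ⟨d, hd⟩ := hG
  have h1 := hz.2 G ⟨d, hd⟩ hy
  have h2 : val (c • z) G = c ^ d * val z G := by
    unfold val
    rw [MvPolynomial.aeval_def, MvPolynomial.aeval_def, MvPolynomial.eval₂_eq',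
      MvPolynomial.eval₂_eq', Finset.mul_sum]
    refine Finset.sum_congr rfl fun a ha => ?_
    have h1 : ∑ i, a i = d := by
      have h2 := hd (MvPolynomial.mem_support_iff.1 ha)
      rw [← h2, Finsupp.weight_apply, Finsupp.sum_fintype]
      · simp
      · simp
    simp only [Pi.smul_apply, smul_eq_mul, mul_pow]
    rw [Finset.prod_mul_distrib, Finset.prod_pow_eq_pow_sum, h1]
    ring
  rw [h2, h1, mul_zero]

theorem mkP_eq_iff {M : ℕ} (z w : {x : Fin (M + 1) → ℂ // x ≠ 0}) :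
    mkP z = mkP w ↔ ∃ c : ℂ, c ≠ 0 ∧ z.1 = c • w.1 := by
  refine (Projectivization.mk_eq_mk_iff' ℂ z.1 w.1 z.2 w.2).trans ?_
  constructor
  · rintro ⟨c, hc⟩
    refine ⟨c, ?_, hc.symm⟩
    rintro rfl
    rw [zero_smul] at hc
    exact z.2 hc.symm
  · rintro ⟨c, _, hc⟩
    exact ⟨c, hc.symm⟩

theorem mem_of_mkP {K : Type} [Field K] [Algebra ℂ K] {M : ℕ} {y : Fin (M + 1) → K}
    (z : {x : Fin (M + 1) → ℂ // x ≠ 0}) (h : mkP z ∈ VPts y) : z.1 ∈ VarPts ℂ y := by
  obtain ⟨w, hw, hwy⟩ := h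
  obtain ⟨c, hc, hcw⟩ := (mkP_eq_iff z w).1 hw.symm
  rw [hcw]
  exact smul_mem hwy hc

end Ch

open Ch in
/-- existence of small charts -/
theorem ch (hcp : S_cp) : S_ch := by
  intro K _ _ n M y hs p W hW
  classical
  obtain ⟨⟨x0, hx0⟩, hx0p, hx0V⟩ := p.2
  obtain ⟨i0, hi0⟩ : ∃ i, x0 i ≠ 0 := Function.ne_iff.1 hx0
  -- the normalised vector
  set x : Fin (M + 1) → ℂ := (x0 i0)⁻¹ • x0 with hxdef
  have hxV : x ∈ VarPts ℂ y := smul_mem hx0V (inv_ne_zero hi0)
  have hx1 : x i0 = 1 := by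
    rw [hxdef, Pi.smul_apply, smul_eq_mul, inv_mul_cancel₀ hi0]
  have hxp : mkP ⟨x, hxV.1⟩ = (p : CP M) := by
    rw [← hx0p]
    exact (mkP_eq_iff _ _).2 ⟨(x0 i0)⁻¹, inv_ne_zero hi0, rfl⟩
  obtain ⟨q, G, hqn, hform, hli, hev⟩ := hs.smooth x hxV
  have hGx : ∀ j, eval x (G j) = 0 := (hev.self_of_nhds).1 hxV
  have heul : ∀ j, ∑ i, eval x (pderiv i (G j)) * x i = 0 := by
    intro j
    obtain ⟨d, hd⟩ := hform j
    have h1 := congrArg (eval x) hd.sum_X_mul_pderiv
    rw [map_sum, map_nsmul, hGx j, smul_zero] at h1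
    rw [← h1]
    refine Finset.sum_congr rfl fun i _ => ?_
    rw [map_mul, eval_X, mul_comm]
  obtain ⟨ix, hix⟩ := sel (n := n) x i0 hx1 (fun j i => eval x (pderiv i (G j))) hli heul (by omega)
  obtain ⟨L, hL⟩ := exists_equiv G i0 ix x (by omega) (fun v h1 h2 h3 =>
    hix v h1 (fun j => by rw [← gr_apply]; exact h2 j) h3)
  have hF : HasFDerivAt (Psi G i0 ix) (L : (Fin (M + 1) → ℂ) →L[ℂ] ℂ × (Fin q → ℂ) × (Fin n → ℂ)) x := by
    rw [hL]
    exact hasFDerivAt_Psi G i0 ix x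
  have hC : ContDiffAt ℂ 1 (Psi G i0 ix) x := (contDiff_Psi G i0 ix).contDiffAt
  set E := hC.toOpenPartialHomeomorph (Psi G i0 ix) hF one_ne_zero with hE
  have hEc : ∀ z, E z = Psi G i0 ix z := fun z => rfl
  have hxs : x ∈ E.source := hC.mem_toOpenPartialHomeomorph_source hF one_ne_zero
  have hxt : Psi G i0 ix x ∈ E.target :=
    hC.image_mem_toOpenPartialHomeomorph_target hF one_ne_zero
  have hsx : E.symm (Psi G i0 ix x) = x := E.left_inv hxs
  have hsymm : ContDiffAt ℂ 1 E.symm (Psi G i0 ix x) := by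
    refine E.contDiffAt_symm (f₀' := L) hxt ?_ ?_
    · rw [hsx]
      exact hF
    · rw [hsx]
      exact hC
  have hdiff : ∀ᶠ w in 𝓝 (Psi G i0 ix x), DifferentiableAt ℂ E.symm w :=
    (hsymm.eventually (by simp)).mono fun w hw => hw.differentiableAt one_ne_zero
  -- the neighbourhood `O` of `x`
  obtain ⟨W', hW'n, hW'⟩ := (mem_nhds_subtype _ _ _).1 hW
  have hquot := (hcp.1 M).2.2.2
  have hcont : Continuous (mkP (n := M)) := hquot.continuous
  have hWev : ∀ᶠ z in 𝓝 x, ∀ hz : z ≠ 0, mkP ⟨z, hz⟩ ∈ W' := by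
    have h1 : (mkP (n := M)) ⁻¹' W' ∈ 𝓝 (⟨x, hxV.1⟩ : {x : Fin (M + 1) → ℂ // x ≠ 0}) := by
      refine hcont.continuousAt.preimage_mem_nhds ?_
      rw [hxp]
      exact hW'n
    obtain ⟨u, hu, hu2⟩ := (mem_nhds_subtype _ _ _).1 h1
    filter_upwards [hu] with z hz hz0
    exact hu2 (a := ⟨z, hz0⟩) hz
  obtain ⟨O, hOsub, hOopen, hxO⟩ := _root_.mem_nhds_iff.1
    (Filter.inter_mem (Filter.inter_mem (E.open_source.mem_nhds hxs) hev) hWev)
  have hO1 : ∀ z ∈ O, z ∈ E.source := fun z hz => (hOsub hz).1.1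
  have hO2 : ∀ z ∈ O, (z ∈ VarPts ℂ y ↔ ∀ j, eval z (G j) = 0) := fun z hz => (hOsub hz).1.2
  have hO3 : ∀ z ∈ O, ∀ hz : z ≠ 0, mkP ⟨z, hz⟩ ∈ W' := fun z hz => (hOsub hz).2
  -- the radius
  have hT : ∀ᶠ w in 𝓝 (Psi G i0 ix x), w ∈ E.target ∧ E.symm w ∈ O ∧
      DifferentiableAt ℂ E.symm w := by
    have h1 := hsymm.continuousAt
    rw [ContinuousAt, hsx] at h1
    have h2 : ∀ᶠ w in 𝓝 (Psi G i0 ix x), E.symm w ∈ O := h1 (hOopen.mem_nhds hxO)
    have h3 : ∀ᶠ w in 𝓝 (Psi G i0 ix x), w ∈ E.target := E.open_target.mem_nhds hxt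
    filter_upwards [h2, h3, hdiff] with w a b c using ⟨b, a, c⟩
  obtain ⟨r, hr, hrT⟩ := Metric.eventually_nhds_iff_ball.1 hT
  set a : Fin n → ℂ := fun k => x (ix k) with ha
  have hPx : Psi G i0 ix x = (1, 0, a) := by
    unfold Psi
    rw [hx1]
    refine Prod.ext rfl (Prod.ext ?_ rfl)
    funext j
    exact hGx j
  let sv : (Fin n → ℂ) → ℂ × (Fin q → ℂ) × (Fin n → ℂ) := fun u => (1, 0, fun k => a k + r * u k)
  have hsv : ∀ u ∈ ball (0 : Fin n → ℂ) 1, sv u ∈ ball (Psi G i0 ix x) r := by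
    intro u hu
    rw [mem_ball_zero_iff] at hu
    rw [mem_ball, hPx, Prod.dist_eq, Prod.dist_eq, dist_self, dist_self]
    rw [max_lt_iff, max_lt_iff]
    refine ⟨hr, hr, ?_⟩
    show dist (fun k => a k + r * u k) a < r
    rw [dist_eq_norm]
    have h1 : (fun k => a k + (r : ℂ) * u k) - a = (r : ℂ) • u := by
      funext k
      simp
    rw [h1, norm_smul, Complex.norm_real, Real.norm_of_nonneg hr.le]
    nlinarith
  let φ : (Fin n → ℂ) → Fin (M + 1) → ℂ := fun u => E.symm (sv u)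
  have hφO : ∀ u ∈ ball (0 : Fin n → ℂ) 1, φ u ∈ O := fun u hu => (hrT _ (hsv u hu)).2.1
  have hφP : ∀ u ∈ ball (0 : Fin n → ℂ) 1, Psi G i0 ix (φ u) = sv u := fun u hu =>
    E.right_inv (hrT _ (hsv u hu)).1
  have hφ1 : ∀ u ∈ ball (0 : Fin n → ℂ) 1, φ u i0 = 1 := fun u hu =>
    congrArg Prod.fst (hφP u hu)
  have hφc : ∀ u ∈ ball (0 : Fin n → ℂ) 1, ∀ k, φ u (ix k) = a k + r * u k := fun u hu k =>
    congrFun (congrArg (fun t => t.2.2) (hφP u hu)) k
  have hφV : ∀ u ∈ ball (0 : Fin n → ℂ) 1, φ u ∈ VarPts ℂ y := fun u hu =>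
    (hO2 _ (hφO u hu)).2 fun j => congrFun (congrArg (fun t => t.2.1) (hφP u hu)) j
  have hsvd : Differentiable ℂ sv := by
    refine Differentiable.prodMk (differentiable_const _) (Differentiable.prodMk
      (differentiable_const _) ?_)
    refine differentiable_pi.2 fun k => ?_
    exact (differentiable_const _).add ((differentiable_const _).mul (differentiable_apply k))
  have hφd : DifferentiableOn ℂ φ (ball 0 1) := fun u hu =>
    ((hrT _ (hsv u hu)).2.2.comp u (hsvd u)).differentiableWithinAt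
  have hr0 : (r : ℂ) ≠ 0 := by exact_mod_cast hr.ne'
  -- the normalised coordinates
  let nr : (Fin (M + 1) → ℂ) → (Fin (M + 1) → ℂ) := fun z => (z i0)⁻¹ • z
  let cc : (Fin (M + 1) → ℂ) → (Fin n → ℂ) := fun z k => ((z i0)⁻¹ * z (ix k) - a k) / r
  have hback : ∀ z : Fin (M + 1) → ℂ, z i0 ≠ 0 → nr z ∈ O → cc z ∈ ball (0 : Fin n → ℂ) 1 →
      z ∈ VarPts ℂ y → nr z = φ (cc z) := by
    intro z hz0 hzO hzb hzV
    have h1 : nr z ∈ VarPts ℂ y := smul_mem hzV (inv_ne_zero hz0)
    have h2 := (hO2 _ hzO).1 h1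
    have h3 : Psi G i0 ix (nr z) = sv (cc z) := by
      unfold Psi
      refine Prod.ext ?_ (Prod.ext ?_ ?_)
      · show (z i0)⁻¹ * z i0 = 1
        exact inv_mul_cancel₀ hz0
      · funext j
        exact h2 j
      · funext k
        show (z i0)⁻¹ * z (ix k) = a k + r * (((z i0)⁻¹ * z (ix k) - a k) / r)
        field_simp
        ring
    show nr z = E.symm (sv (cc z))
    rw [← h3]
    exact (E.left_inv (hO1 _ hzO)).symm
  let e0 : ball (0 : Fin n → ℂ) 1 → VPts y := fun u =>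
    ⟨mkP ⟨φ u, (hφV u u.2).1⟩, ⟨_, rfl, hφV u u.2⟩⟩
  have he0c : Continuous e0 := by
    refine Continuous.subtype_mk (hcont.comp (Continuous.subtype_mk ?_ _)) _
    exact hφd.continuousOn.comp_continuous continuous_subtype_val fun u => u.2
  have he0i : Function.Injective e0 := by
    intro u v huv
    have h1 : mkP ⟨φ u, (hφV u u.2).1⟩ = mkP ⟨φ v, (hφV v v.2).1⟩ := congrArg Subtype.val huv
    obtain ⟨c, hc, hcc⟩ := (mkP_eq_iff _ _).1 h1
    have h2 : φ u = c • φ v := hcc
    have h3 : c = 1 := by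
      have := congrFun h2 i0
      rw [Pi.smul_apply, hφ1 u u.2, hφ1 v v.2, smul_eq_mul, mul_one] at this
      exact this.symm
    rw [h3, one_smul] at h2
    refine Subtype.ext (funext fun k => ?_)
    have h4 := congrFun h2 (ix k)
    rw [hφc u u.2, hφc v v.2] at h4
    exact mul_left_cancel₀ hr0 (add_left_cancel h4)
  have he0o : IsOpenMap e0 := by
    intro U hU
    obtain ⟨U', hU', rfl⟩ := isOpen_induced_iff.1 hU
    set Z : Set {x : Fin (M + 1) → ℂ // x ≠ 0} := {z | z.1 i0 ≠ 0 ∧ nr z.1 ∈ O ∧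
      cc z.1 ∈ U' ∩ ball (0 : Fin n → ℂ) 1} with hZ
    have hZo : IsOpen Z := by
      have h1 : IsOpen {z : Fin (M + 1) → ℂ | z i0 ≠ 0} :=
        isOpen_ne_fun (continuous_apply i0) continuous_const
      have h2 : ContinuousOn (fun z => (nr z, cc z)) {z : Fin (M + 1) → ℂ | z i0 ≠ 0} := by
        refine ContinuousOn.prodMk ?_ ?_
        · exact ((continuous_apply i0).continuousOn.inv₀ fun z hz => hz).smul continuousOn_id
        · refine continuousOn_pi.2 fun k => ?_
          refine ContinuousOn.div_const (ContinuousOn.sub (ContinuousOn.mul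
            ((continuous_apply i0).continuousOn.inv₀ fun z hz => hz)
            (continuous_apply (ix k)).continuousOn) continuousOn_const) _
      have h3 := h2.isOpen_inter_preimage h1
        (hOopen.prod (hU'.inter (isOpen_ball (x := (0 : Fin n → ℂ)) (ε := 1))))
      have h4 : Z = Subtype.val ⁻¹' ({z : Fin (M + 1) → ℂ | z i0 ≠ 0} ∩
          (fun z => (nr z, cc z)) ⁻¹' (O ×ˢ (U' ∩ ball (0 : Fin n → ℂ) 1))) := by
        ext z
        rfl
      rw [h4]
      exact h3.preimage continuous_subtype_val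
    have h5 : e0 '' (Subtype.val ⁻¹' U') = Subtype.val ⁻¹' (mkP '' Z) := by
      ext p'
      constructor
      · rintro ⟨u, hu, rfl⟩
        refine ⟨⟨φ u, (hφV u u.2).1⟩, ⟨?_, ?_, ?_⟩, rfl⟩
        · show φ u i0 ≠ 0
          rw [hφ1 u u.2]
          exact one_ne_zero
        · show (φ u i0)⁻¹ • φ u ∈ O
          rw [hφ1 u u.2, inv_one, one_smul]
          exact hφO u u.2
        · have h6 : cc (φ u) = u := by
            funext k
            show ((φ u i0)⁻¹ * φ u (ix k) - a k) / r = (u : Fin n → ℂ) k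
            rw [hφ1 u u.2, hφc u u.2]
            field_simp
            ring
          show cc (φ u) ∈ U' ∩ ball (0 : Fin n → ℂ) 1
          rw [h6]
          exact ⟨hu, u.2⟩
      · rintro ⟨z, ⟨hz0, hzO, hzU, hzb⟩, hzp⟩
        have hzV : z.1 ∈ VarPts ℂ y := mem_of_mkP z (by rw [hzp]; exact p'.2)
        have h6 := hback z.1 hz0 hzO hzb hzV
        refine ⟨⟨cc z.1, hzb⟩, hzU, Subtype.ext ?_⟩
        rw [← hzp]
        refine (mkP_eq_iff _ _).2 ⟨(z.1 i0)⁻¹, inv_ne_zero hz0, ?_⟩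
        exact h6.symm
    rw [h5]
    exact (hquot.isOpenMap _ hZo).preimage continuous_subtype_val
  have hemb : IsOpenEmbedding e0 := .of_continuous_injective_isOpenMap he0c he0i he0o
  refine ⟨Set.range e0, hemb.isOpen_range, ?_, ?_, ⟨?_⟩⟩
  · have h0 : (0 : Fin n → ℂ) ∈ ball (0 : Fin n → ℂ) 1 := mem_ball_self one_pos
    refine ⟨⟨0, h0⟩, Subtype.ext ?_⟩
    have h1 : φ 0 = x := by
      show E.symm (sv 0) = x
      have h2 : sv 0 = Psi G i0 ix x := by
        rw [hPx]
        refine Prod.ext rfl (Prod.ext rfl ?_)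
        funext k
        show a k + r * 0 = a k
        ring
      rw [h2, hsx]
    rw [← hxp]
    show mkP ⟨φ 0, _⟩ = mkP ⟨x, _⟩
    congr 1
    exact Subtype.ext h1
  · rintro _ ⟨u, rfl⟩
    exact hW' (hO3 _ (hφO u u.2) _)
  · exact
      { φ := φ
        diff := hφd
        i0 := i0
        ix := ix
        a := a
        r := r
        hr := hr
        one := hφ1
        coord := hφc
        e := hemb.isEmbedding.toHomeomorph
        pt := fun z => ⟨(hφV z z.2).1, rfl⟩ }

end Pool.Agent.NH55.VA
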