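import Pool.Agent.NH55.VA.Stm

/-!
The covering given by the roots of a polynomial (VA-COV).
-/

set_option autoImplicit false

open FF MvPolynomial Metric Topology Pool.Agent.W602.GT Pool.Agent.TH710.SP
open scoped unitInterval

namespace Pool.Agent.NH55.VA

namespace Cov

/-! ### Roots of monic polynomials -/

section roots

variable {d : ℕ}

/-- The polynomial. -/
noncomputable def plo (c : Fin d → ℂ) : Polynomial ℂ :=
  Polynomial.X ^ d + ∑ k : Fin d, Polynomial.C (c k) * Polynomial.X ^ (k : ℕ)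

theorem eval_plo (c : Fin d → ℂ) (τ : ℂ) : (plo c).eval τ = pol c τ := by
  unfold plo pol
  rw [Polynomial.eval_add, Polynomial.eval_pow, Polynomial.eval_X, Polynomial.eval_finsetSum]
  simp only [Polynomial.eval_mul, Polynomial.eval_C, Polynomial.eval_pow, Polynomial.eval_X]

theorem deg_low (c : Fin d → ℂ) :
    (∑ k : Fin d, Polynomial.C (c k) * Polynomial.X ^ (k : ℕ)).degree < (d : WithBot ℕ) := by
  refine (Polynomial.degree_sum_le _ _).trans_lt ?_
  refine (Finset.sup_lt_iff (WithBot.bot_lt_coe d)).2 fun k _ => ?_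
  refine (Polynomial.degree_C_mul_X_pow_le _ _).trans_lt ?_
  exact WithBot.coe_lt_coe.2 k.2

theorem monic_plo (c : Fin d → ℂ) : (plo c).Monic :=
  Polynomial.monic_X_pow_add (deg_low c)

theorem natDegree_plo (c : Fin d → ℂ) : (plo c).natDegree = d := by
  refine Polynomial.natDegree_eq_of_degree_eq_some ?_
  unfold plo
  rw [Polynomial.degree_add_eq_left_of_degree_lt, Polynomial.degree_X_pow]
  rw [Polynomial.degree_X_pow]
  exact deg_low c

theorem finite_roots (c : Fin d → ℂ) : {τ | pol c τ = 0}.Finite := by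
  have h1 : {τ | pol c τ = 0} = {τ | (plo c).IsRoot τ} := by
    ext τ
    rw [Set.mem_ofPred_eq, Set.mem_ofPred_eq, Polynomial.IsRoot, eval_plo]
  rw [h1]
  exact Polynomial.finite_setOfPred_isRoot (monic_plo c).ne_zero

theorem exists_root (hd : 0 < d) (c : Fin d → ℂ) : ∃ τ, pol c τ = 0 := by
  obtain ⟨τ, hτ⟩ := IsAlgClosed.exists_root (plo c) (by
    rw [Polynomial.degree_eq_natDegree (monic_plo c).ne_zero, natDegree_plo]
    exact_mod_cast hd.ne')
  exact ⟨τ, by rw [← eval_plo]; exact hτ⟩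

theorem pow_card_le (z : ℂ) {ε : ℝ} (hε : 0 < ε) (s : Multiset ℂ) (h : ∀ r ∈ s, ε ≤ ‖z - r‖) :
    ε ^ Multiset.card s ≤ ‖(s.map fun r => z - r).prod‖ := by
  induction s using Multiset.induction_on with
  | empty => simp
  | cons a s ih =>
    rw [Multiset.card_cons, Multiset.map_cons, Multiset.prod_cons, norm_mul, pow_succ, mul_comm]
    exact mul_le_mul (h a (Multiset.mem_cons_self a s))
      (ih fun r hr => h r (Multiset.mem_cons_of_mem hr)) (by positivity) (norm_nonneg _)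

/-- There is a root near to a point where the value is small. -/
theorem near_root (c : Fin d → ℂ) (z : ℂ) {ε : ℝ} (hε : 0 < ε) (h : ‖pol c z‖ < ε ^ d) :
    ∃ τ, pol c τ = 0 ∧ ‖z - τ‖ < ε := by
  by_contra hcon
  push Not at hcon
  have h1 := IsAlgClosed.splits (plo c)
  have h2 := h1.natDegree_eq_card_roots
  have h3 := h1.eq_prod_roots
  rw [(monic_plo c).leadingCoeff, map_one, one_mul] at h3
  have h4 : (plo c).eval z = ((plo c).roots.map fun r => z - r).prod := by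
    conv_lhs => rw [h3]
    rw [Polynomial.eval_multiset_prod, Multiset.map_map]
    simp
  have h5 := pow_card_le z hε (plo c).roots (fun r hr => hcon r (by
    rw [← eval_plo]
    exact (Polynomial.mem_roots (monic_plo c).ne_zero).1 hr))
  rw [← h4, ← h2, natDegree_plo, eval_plo] at h5
  linarith

/-- The divided difference. -/
noncomputable def dq (c : Fin d → ℂ) (a b : ℂ) : ℂ :=
  ∑ i ∈ Finset.range d, a ^ i * b ^ (d - 1 - i) +
    ∑ k : Fin d, c k * ∑ i ∈ Finset.range (k : ℕ), a ^ i * b ^ ((k : ℕ) - 1 - i)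

theorem dq_mul (c : Fin d → ℂ) (a b : ℂ) : dq c a b * (a - b) = pol c a - pol c b := by
  unfold dq pol
  rw [add_mul, Finset.sum_mul]
  have h1 := geom_sum₂_mul a b d
  rw [Finset.sum_mul] at h1
  rw [h1, Finset.sum_mul]
  have h2 : ∀ k : Fin d, (c k * ∑ i ∈ Finset.range (k : ℕ), a ^ i * b ^ ((k : ℕ) - 1 - i)) *
      (a - b) = c k * a ^ (k : ℕ) - c k * b ^ (k : ℕ) := by
    intro k
    rw [mul_assoc, geom_sum₂_mul]
    ring
  rw [Finset.sum_congr rfl fun k _ => h2 k, Finset.sum_sub_distrib]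
  ring

theorem dq_self (c : Fin d → ℂ) (a : ℂ) : dq c a a = dpol c a := by
  have h : ∀ m : ℕ, ∑ i ∈ Finset.range m, a ^ i * a ^ (m - 1 - i) = m * a ^ (m - 1) := by
    intro m
    rw [Finset.sum_congr rfl (g := fun _ => a ^ (m - 1)), Finset.sum_const, Finset.card_range,
      nsmul_eq_mul]
    intro i hi
    rw [Finset.mem_range] at hi
    rw [← pow_add]
    congr 1
    omega
  unfold dq dpol
  rw [h]
  congr 1
  exact Finset.sum_congr rfl fun k _ => by rw [h]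

theorem root_le (c : Fin d → ℂ) {τ : ℂ} (h : pol c τ = 0) : ‖τ‖ ≤ 1 + ∑ k, ‖c k‖ := by
  by_contra hcon
  push Not at hcon
  have hs : 0 ≤ ∑ k, ‖c k‖ := Finset.sum_nonneg fun _ _ => norm_nonneg _
  have h1 : 1 < ‖τ‖ := by linarith
  rcases Nat.eq_zero_or_pos d with hd | hd
  · subst hd
    unfold pol at h
    simp at h
  have h2 : τ ^ d = -∑ k : Fin d, c k * τ ^ (k : ℕ) := by
    unfold pol at h
    exact eq_neg_of_add_eq_zero_left h
  have h3 : ‖τ‖ ^ d ≤ (∑ k, ‖c k‖) * ‖τ‖ ^ (d - 1) := by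
    rw [← norm_pow, h2, norm_neg, Finset.sum_mul]
    refine norm_sum_le_of_le _ fun k _ => ?_
    rw [norm_mul, norm_pow]
    exact mul_le_mul_of_nonneg_left (pow_le_pow_right₀ h1.le (by have := k.2; omega))
      (norm_nonneg _)
  have h4 : ‖τ‖ ^ d = ‖τ‖ * ‖τ‖ ^ (d - 1) := by
    rw [← pow_succ']
    congr 1
    omega
  rw [h4] at h3
  have h5 := le_of_mul_le_mul_right h3 (by positivity)
  linarith

/-- The lift of a path to the space of the roots. -/
theorem root_lift (c : I → Fin d → ℂ) (hc : ∀ k, Continuous fun t => c t k)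
    (hs : ∀ t τ, pol (c t) τ = 0 → dpol (c t) τ ≠ 0) (τ0 : ℂ) (h0 : pol (c 0) τ0 = 0) :
    ∃ τ : C(I, ℂ), (∀ t, pol (c t) (τ t) = 0) ∧ τ 0 = τ0 := by
  have hpol : Continuous fun e : I × ℂ => pol (c e.1) e.2 := by
    unfold pol
    refine (continuous_snd.pow d).add (continuous_finsetSum _ fun k _ => ?_)
    exact ((hc k).comp continuous_fst).mul (continuous_snd.pow _)
  obtain ⟨E, hE⟩ : ∃ E : Set (I × ℂ), E = {e | pol (c e.1) e.2 = 0} := ⟨_, rfl⟩
  have hE' : ∀ e : I × ℂ, e ∈ E ↔ pol (c e.1) e.2 = 0 := fun e => by rw [hE]; rfl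
  have hEc : IsCompact E := by
    refine Metric.isCompact_of_isClosed_isBounded ?_ ?_
    · rw [hE]
      exact isClosed_singleton.preimage hpol
    · have h1 : Continuous fun t => 1 + ∑ k, ‖c t k‖ :=
        continuous_const.add (continuous_finsetSum _ fun k _ => (hc k).norm)
      obtain ⟨B, hB⟩ := (isCompact_range h1).bddAbove
      have h2 : E ⊆ (Set.univ : Set I) ×ˢ closedBall (0 : ℂ) B := by
        intro e he
        refine ⟨trivial, ?_⟩
        rw [mem_closedBall_zero_iff]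
        exact (root_le _ ((hE' _).1 he)).trans (hB ⟨e.1, rfl⟩)
      exact ((isCompact_univ.isBounded).prod isBounded_closedBall).subset h2
  have hcs : CompactSpace E := isCompact_iff_compactSpace.1 hEc
  obtain ⟨f, hf⟩ : ∃ f : E → I, f = fun e => e.1.1 := ⟨_, rfl⟩
  have hfc : Continuous f := by rw [hf]; exact continuous_fst.comp continuous_subtype_val
  have hopen : IsOpenMap f := by
    rw [isOpenMap_iff_nhds_le]
    intro e W hW
    rw [Filter.mem_map] at hW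
    rw [nhds_subtype_eq_comap, Filter.mem_comap] at hW
    obtain ⟨V, hV, hVW⟩ := hW
    obtain ⟨ε, hε, hεV⟩ := Metric.mem_nhds_iff.1 hV
    have he : pol (c e.1.1) e.1.2 = 0 := (hE' _).1 e.2
    have h1 : ∀ᶠ t in 𝓝 (f e), ‖pol (c t) e.1.2‖ < ε ^ d := by
      have h2 : Continuous fun t => ‖pol (c t) e.1.2‖ :=
        (hpol.comp (Continuous.prodMk continuous_id continuous_const)).norm
      refine h2.continuousAt.eventually_lt continuousAt_const ?_
      rw [hf]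
      dsimp only
      rw [he, norm_zero]
      positivity
    have h3 : ∀ᶠ t in 𝓝 (f e), dist t (f e) < ε := Metric.ball_mem_nhds _ hε
    filter_upwards [h1, h3] with t ht1 ht2
    obtain ⟨τ, hτ, hτε⟩ := near_root (c t) e.1.2 hε ht1
    have hmem : (t, τ) ∈ E := by rw [hE]; exact hτ
    have h4 : (⟨(t, τ), hmem⟩ : E) ∈ f ⁻¹' W := by
      apply hVW
      apply hεV
      rw [mem_ball, Prod.dist_eq]
      refine max_lt ?_ ?_
      · rw [hf] at ht2
        exact ht2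
      · dsimp only
        rw [dist_comm, dist_eq_norm]
        exact hτε
    rw [hf] at h4
    exact h4
  have hloc : IsLocalHomeomorph f := by
    rw [isLocalHomeomorph_iff_isOpenEmbedding_restrict]
    intro e
    have he : pol (c e.1.1) e.1.2 = 0 := (hE' _).1 e.2
    have h1 : ∀ᶠ z : E × E in 𝓝 (e, e), dq (c z.1.1.1) z.1.1.2 z.2.1.2 ≠ 0 := by
      have h2 : Continuous fun z : E × E => dq (c z.1.1.1) z.1.1.2 z.2.1.2 := by
        have a1 : Continuous fun z : E × E => z.1.1.2 :=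
          continuous_snd.comp (continuous_subtype_val.comp continuous_fst)
        have a2 : Continuous fun z : E × E => z.2.1.2 :=
          continuous_snd.comp (continuous_subtype_val.comp continuous_snd)
        have a3 : Continuous fun z : E × E => z.1.1.1 :=
          continuous_fst.comp (continuous_subtype_val.comp continuous_fst)
        unfold dq
        refine (continuous_finsetSum _ fun i _ => (a1.pow _).mul (a2.pow _)).add
          (continuous_finsetSum _ fun k _ => ((hc k).comp a3).mul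
            (continuous_finsetSum _ fun i _ => (a1.pow _).mul (a2.pow _)))
      refine h2.continuousAt.eventually_ne ?_
      dsimp only
      rw [dq_self]
      exact hs _ _ he
    rw [nhds_prod_eq, Filter.eventually_iff, Filter.mem_prod_self_iff] at h1
    obtain ⟨U, hU, h1⟩ := h1
    obtain ⟨V, hVU, hVo, heV⟩ := _root_.mem_nhds_iff.1 hU
    refine ⟨V, hVo.mem_nhds heV, ?_⟩
    refine Topology.IsOpenEmbedding.of_continuous_injective_isOpenMap
      (hfc.comp continuous_subtype_val) ?_ (hopen.domRestrict hVo)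
    rintro ⟨a, ha⟩ ⟨b, hb⟩ hab
    have h2 : dq (c a.1.1) a.1.2 b.1.2 ≠ 0 :=
      h1 (show (a, b) ∈ U ×ˢ U from ⟨hVU ha, hVU hb⟩)
    have hab' : a.1.1 = b.1.1 := by
      have : f a = f b := hab
      rw [hf] at this
      exact this
    have ha0 : pol (c a.1.1) a.1.2 = 0 := (hE' _).1 a.2
    have hb0 : pol (c b.1.1) b.1.2 = 0 := (hE' _).1 b.2
    have h3 := dq_mul (c a.1.1) a.1.2 b.1.2
    rw [ha0] at h3
    rw [← hab'] at hb0
    rw [hb0, sub_zero] at h3
    have h4 := (mul_eq_zero.1 h3).resolve_left h2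
    apply Subtype.ext
    apply Subtype.ext
    exact Prod.ext hab' (sub_eq_zero.1 h4)
  have hcov : IsCoveringMap f := isLocalHomeomorph_iff_isCoveringMap.1 hloc
  have hmem : ((0 : I), τ0) ∈ E := by rw [hE]; exact h0
  obtain ⟨Γ, hΓ, hΓ0⟩ := hcov.exists_path_lifts (ContinuousMap.id I) ⟨((0 : I), τ0), hmem⟩
    (by rw [hf]; rfl)
  refine ⟨⟨fun t => (Γ t).1.2, continuous_snd.comp (continuous_subtype_val.comp Γ.continuous)⟩,
    fun t => ?_, ?_⟩
  · have h1 := (hE' _).1 (Γ t).2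
    have h2 : f (Γ t) = t := congrFun hΓ t
    rw [hf] at h2
    dsimp only at h2
    rw [h2] at h1
    exact h1
  · change (Γ 0).1.2 = τ0
    rw [hΓ0]

end roots


/-! ### Points -/

section pts

theorem eval_smul' {M D : ℕ} {G : MvPolynomial (Fin (M + 1)) ℂ} (hG : G.IsHomogeneous D) (c : ℂ)
    (z : Fin (M + 1) → ℂ) : eval (c • z) G = c ^ D * eval z G := by
  rw [eval_eq', eval_eq', Finset.mul_sum]
  refine Finset.sum_congr rfl fun J hJ => ?_
  have h1 : ∑ i, J i = D := by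
    rw [← Finsupp.degree_eq_sum]
    have := hG (mem_support_iff.1 hJ)
    rw [← this, Finsupp.degree_eq_weight_one]
    rfl
  simp only [Pi.smul_apply, smul_eq_mul, mul_pow]
  rw [Finset.prod_mul_distrib, Finset.prod_pow_eq_pow_sum, h1]
  ring

variable {K : Type} [Field K] [Algebra ℂ K] {M : ℕ} {y : Fin (M + 1) → K}
  {h : MvPolynomial (Fin (M + 1)) ℂ}

theorem varPts_smul {c : ℂ} (hc : c ≠ 0) {z : Fin (M + 1) → ℂ} (hz : z ∈ VarPts ℂ y) :
    c • z ∈ VarPts ℂ y := by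
  refine ⟨smul_ne_zero hc hz.1, fun G hG hG0 => ?_⟩
  obtain ⟨D, hD⟩ := hG
  have h1 := hz.2 G ⟨D, hD⟩ hG0
  have h2 : ∀ w : Fin (M + 1) → ℂ, val w G = eval w G := fun w => rfl
  rw [h2] at h1 ⊢
  rw [eval_smul' hD, h1, mul_zero]

theorem mkP_eq {z w : {x : Fin (M + 1) → ℂ // x ≠ 0}} :
    mkP z = mkP w ↔ ∃ a : ℂ, a ≠ 0 ∧ a • w.1 = z.1 := by
  constructor
  · intro h1
    obtain ⟨a, ha⟩ := (Projectivization.mk_eq_mk_iff' ℂ _ _ z.2 w.2).1 h1
    refine ⟨a, ?_, ha⟩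
    rintro rfl
    rw [zero_smul] at ha
    exact z.2 ha.symm
  · rintro ⟨a, -, ha⟩
    exact (Projectivization.mk_eq_mk_iff' ℂ _ _ z.2 w.2).2 ⟨a, ha⟩

/-- The point of `P^M`. -/
def pt (p : NZ h y) : CP M := ((p : VPts y) : CP M)

theorem pt_inj {p q : NZ h y} (hpq : pt p = pt q) : p = q := Subtype.ext (Subtype.ext hpq)

theorem pt_inducing : IsInducing (pt : NZ h y → CP M) :=
  IsInducing.subtypeVal.comp IsInducing.subtypeVal

/-- The coordinates of the point. -/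
noncomputable def rp (p : NZ h y) : {x : Fin (M + 1) → ℂ // x ≠ 0} := p.1.2.choose

theorem mkP_rp (p : NZ h y) : mkP (rp p) = pt p := p.1.2.choose_spec.1

theorem of_rep (hh : IsForm h) {p : NZ h y} {z : {x : Fin (M + 1) → ℂ // x ≠ 0}}
    (hz : mkP z = pt p) : z.1 ∈ VarPts ℂ y ∧ eval z.1 h ≠ 0 := by
  obtain ⟨D, hD⟩ := hh
  constructor
  · obtain ⟨w, hw, hwV⟩ := p.1.2
    obtain ⟨a, ha, haw⟩ := mkP_eq.1 (hz.trans hw.symm)
    rw [← haw]
    exact varPts_smul ha hwV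
  · obtain ⟨w, hw, hwh⟩ := p.2
    obtain ⟨a, ha, haw⟩ := mkP_eq.1 (hz.trans hw.symm)
    rw [← haw, eval_smul' hD]
    exact mul_ne_zero (pow_ne_zero _ ha) hwh

/-- The point with given coordinates. -/
noncomputable def mkN (z : Fin (M + 1) → ℂ) (hz : z ∈ VarPts ℂ y) (hh : eval z h ≠ 0) : NZ h y :=
  ⟨⟨mkP ⟨z, hz.1⟩, ⟨z, hz.1⟩, rfl, hz⟩, ⟨z, hz.1⟩, rfl, hh⟩

theorem pt_mkN (z : Fin (M + 1) → ℂ) (hz : z ∈ VarPts ℂ y) (hh : eval z h ≠ 0) :
    pt (mkN z hz hh) = mkP ⟨z, hz.1⟩ := rfl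

/-- Continuity of a function on a quotient. -/
theorem cont_desc {Y B X T : Type} [TopologicalSpace Y] [TopologicalSpace B] [TopologicalSpace X]
    [TopologicalSpace T] {π : Y → B} (hπ : IsOpenMap π) {ι : X → B} (hι : IsInducing ι)
    (G : X → T) (Z : Set Y) (G' : Z → T) (hG' : Continuous G')
    (h1 : ∀ p : X, ∃ z ∈ Z, ι p = π z)
    (h2 : ∀ (z : Y) (p : X), ι p = π z → ∃ hz : z ∈ Z, G p = G' ⟨z, hz⟩) : Continuous G := by
  rw [continuous_def]
  intro V hV
  obtain ⟨O, hO, hOV⟩ := isOpen_induced_iff.1 (hV.preimage hG')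
  rw [hι.isOpen_iff]
  refine ⟨π '' O, hπ _ hO, ?_⟩
  ext p
  constructor
  · rintro ⟨z, hz, hzp⟩
    obtain ⟨hzZ, hp⟩ := h2 z p hzp.symm
    rw [Set.mem_preimage, hp]
    have h3 : (⟨z, hzZ⟩ : Z) ∈ Subtype.val ⁻¹' O := hz
    rw [hOV] at h3
    exact h3
  · intro hp
    obtain ⟨z, hzZ, hz⟩ := h1 p
    obtain ⟨hzZ', hp'⟩ := h2 z p hz
    refine ⟨z, ?_, hz.symm⟩
    have h3 : (⟨z, hzZ'⟩ : Z) ∈ G' ⁻¹' V := by
      rw [Set.mem_preimage, ← hp']
      exact hp
    rw [← hOV] at h3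
    exact h3

end pts

section main

variable {K L : Type} [Field K] [Algebra ℂ K] [Field L] [Algebra ℂ L] {M M' d : ℕ}
  {x : Fin (M + 1) → L} {y : Fin (M' + 1) → K} (A : CovDat x y d)

/-- The image of a vector. -/
noncomputable def fv (z : Fin (M' + 1) → ℂ) : Fin (M + 1) → ℂ := fun i => eval z (A.f i)

theorem fv_smul (a : ℂ) (z : Fin (M' + 1) → ℂ) : fv A (a • z) = a ^ A.D • fv A z := by
  funext i
  exact eval_smul' (A.fhom i) a z

theorem fv_cont : Continuous (fv A) := continuous_pi fun i => MvPolynomial.continuous_eval (A.f i)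

/-- The map. -/
noncomputable def Fm (p : NZ A.h y) : NZ A.g x :=
  mkN (fv A (rp p).1) (A.img _ (of_rep A.hform (mkP_rp p)).1 (of_rep A.hform (mkP_rp p)).2).1
    (A.img _ (of_rep A.hform (mkP_rp p)).1 (of_rep A.hform (mkP_rp p)).2).2.1

theorem Fm_rep (p : NZ A.h y) (z : {x : Fin (M' + 1) → ℂ // x ≠ 0}) (hz : mkP z = pt p) :
    ∃ h : fv A z.1 ≠ 0, pt (Fm A p) = mkP ⟨fv A z.1, h⟩ := by
  obtain ⟨h1, h2⟩ := of_rep A.hform hz
  refine ⟨(A.img _ h1 h2).1.1, ?_⟩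
  obtain ⟨a, ha, haz⟩ := mkP_eq.1 ((mkP_rp p).trans hz.symm)
  change mkP ⟨fv A (rp p).1, _⟩ = mkP ⟨fv A z.1, _⟩
  refine mkP_eq.2 ⟨a ^ A.D, pow_ne_zero _ ha, ?_⟩
  dsimp only
  rw [← haz, fv_smul]

theorem Fm_cont (hq : IsOpenQuotientMap (mkP (n := M))) (hq' : IsOpenQuotientMap (mkP (n := M'))) :
    Continuous (Fm A) := by
  rw [pt_inducing.continuous_iff]
  refine cont_desc hq'.isOpenMap pt_inducing _
    {z : {x : Fin (M' + 1) → ℂ // x ≠ 0} | z.1 ∈ VarPts ℂ y ∧ eval z.1 A.h ≠ 0}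
    (fun z => mkP ⟨fv A z.1.1, (A.img _ z.2.1 z.2.2).1.1⟩) ?_ ?_ ?_
  · refine hq.continuous.comp (Continuous.subtype_mk ?_ _)
    exact (fv_cont A).comp (continuous_subtype_val.comp continuous_subtype_val)
  · intro p
    exact ⟨rp p, of_rep A.hform (mkP_rp p), (mkP_rp p).symm⟩
  · intro z p hz
    obtain ⟨h1, h2⟩ := Fm_rep A p z hz.symm
    exact ⟨of_rep A.hform hz.symm, h2⟩

/-- The coefficients at a point. -/
noncomputable def mm (q : NZ A.g x) (k : Fin d) : ℂ := A.m k (rp q).1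

theorem mm_rep (q : NZ A.g x) (k : Fin d) (z : {x : Fin (M + 1) → ℂ // x ≠ 0}) (hz : mkP z = pt q) :
    mm A q k = A.m k z.1 := by
  obtain ⟨a, ha, haz⟩ := mkP_eq.1 ((mkP_rp q).trans hz.symm)
  unfold mm
  rw [← haz, A.mhom k a _ ha (of_rep A.gform hz).2]

theorem mm_cont (hq : IsOpenQuotientMap (mkP (n := M))) (k : Fin d) :
    Continuous fun q => mm A q k := by
  refine cont_desc hq.isOpenMap pt_inducing _
    {z : {x : Fin (M + 1) → ℂ // x ≠ 0} | eval z.1 A.g ≠ 0} (fun z => A.m k z.1.1) ?_ ?_ ?_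
  · exact (A.mcont k).comp_continuous (continuous_subtype_val.comp continuous_subtype_val)
      fun z => z.2
  · intro p
    exact ⟨rp p, (of_rep A.gform (mkP_rp p)).2, (mkP_rp p).symm⟩
  · intro z p hz
    exact ⟨(of_rep A.gform hz.symm).2, mm_rep A p k z hz.symm⟩

/-- The points of the covering. -/
def EE : Type := {e : NZ A.g x × ℂ // pol (mm A e.1) e.2 = 0}

instance : TopologicalSpace (EE A) := inferInstanceAs (TopologicalSpace (Subtype _))

theorem EE_pol (e : EE A) {z : {x : Fin (M + 1) → ℂ // x ≠ 0}} (hz : mkP z = pt e.1.1) :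
    pol (fun k => A.m k z.1) e.1.2 = 0 := by
  have h1 : (fun k => A.m k z.1) = mm A e.1.1 := funext fun k => (mm_rep A e.1.1 k z hz).symm
  rw [h1]
  exact e.2

theorem EE_lift (e : EE A) {z : {x : Fin (M + 1) → ℂ // x ≠ 0}} (hz : mkP z = pt e.1.1) :
    dpol (fun k => A.m k z.1) e.1.2 ≠ 0 ∧ (fun j => A.R j z.1 e.1.2) ∈ VarPts ℂ y ∧
    eval (fun j => A.R j z.1 e.1.2) A.h ≠ 0 ∧ A.θ (fun j => A.R j z.1 e.1.2) = e.1.2 ∧
    ∃ c : ℂ, c ≠ 0 ∧ ∀ i, eval (fun j => A.R j z.1 e.1.2) (A.f i) = c * z.1 i :=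
  A.lift z.1 (of_rep A.gform hz).1 (of_rep A.gform hz).2 e.1.2 (EE_pol A e hz)

/-- The inverse map. -/
noncomputable def Psi (e : EE A) : NZ A.h y :=
  mkN (fun j => A.R j (rp e.1.1).1 e.1.2) (EE_lift A e (mkP_rp _)).2.1 (EE_lift A e (mkP_rp _)).2.2.1

theorem Psi_rep (e : EE A) (z : {x : Fin (M + 1) → ℂ // x ≠ 0}) (hz : mkP z = pt e.1.1) :
    ∃ h : (fun j => A.R j z.1 e.1.2) ≠ 0, pt (Psi A e) = mkP ⟨fun j => A.R j z.1 e.1.2, h⟩ := by
  refine ⟨(EE_lift A e hz).2.1.1, ?_⟩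
  unfold Psi
  rw [pt_mkN]
  obtain ⟨a, ha, haz⟩ := mkP_eq.1 ((mkP_rp e.1.1).trans hz.symm)
  refine mkP_eq.2 ⟨1, one_ne_zero, ?_⟩
  dsimp only
  rw [one_smul, ← haz]
  funext j
  exact (A.Rhom j a _ _ ha (of_rep A.gform hz).2).symm

theorem Psi_cont (hq : IsOpenQuotientMap (mkP (n := M))) (hq' : IsOpenQuotientMap (mkP (n := M'))) :
    Continuous (Psi A) := by
  rw [pt_inducing.continuous_iff]
  have hι : IsInducing fun e : EE A => (pt e.1.1, e.1.2) :=
    (pt_inducing.prodMap IsInducing.id).comp IsInducing.subtypeVal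
  refine cont_desc (π := Prod.map (mkP (n := M)) (id : ℂ → ℂ))
    (hq.isOpenMap.prodMap IsOpenMap.id) hι _
    {z : {x : Fin (M + 1) → ℂ // x ≠ 0} × ℂ | ∃ e : EE A, mkP z.1 = pt e.1.1 ∧ z.2 = e.1.2}
    (fun z => mkP ⟨fun j => A.R j z.1.1.1 z.1.2, ?_⟩) ?_ ?_ ?_
  · obtain ⟨e, he, he2⟩ := z.2
    rw [he2]
    exact (EE_lift A e he).2.1.1
  · refine hq'.continuous.comp (Continuous.subtype_mk (continuous_pi fun j => ?_) _)
    refine (A.Rcont j).comp_continuous (f := fun z : {z : {x : Fin (M + 1) → ℂ // x ≠ 0} × ℂ |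
      ∃ e : EE A, mkP z.1 = pt e.1.1 ∧ z.2 = e.1.2} => (z.1.1.1, z.1.2)) ?_ ?_
    · exact ((continuous_subtype_val.comp continuous_fst).comp continuous_subtype_val).prodMk
        (continuous_snd.comp continuous_subtype_val)
    · intro z
      obtain ⟨e, he, -⟩ := z.2
      exact (of_rep A.gform he).2
  · intro e
    exact ⟨(rp e.1.1, e.1.2), ⟨e, mkP_rp _, rfl⟩, Prod.ext (mkP_rp _).symm rfl⟩
  · intro z e hz
    have h1 : mkP z.1 = pt e.1.1 := (congrArg Prod.fst hz).symm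
    have h2 : z.2 = e.1.2 := (congrArg Prod.snd hz).symm
    refine ⟨⟨e, h1, h2⟩, ?_⟩
    obtain ⟨h3, h4⟩ := Psi_rep A e z.1 h1
    change pt (Psi A e) = _
    rw [h4]
    congr 2
    change (fun j => A.R j z.1.1 e.1.2) = fun j => A.R j z.1.1 z.2
    rw [h2]

theorem Fm_Psi (e : EE A) : Fm A (Psi A e) = e.1.1 := by
  apply pt_inj
  obtain ⟨h1, h2⟩ := Psi_rep A e (rp e.1.1) (mkP_rp _)
  obtain ⟨h3, h4⟩ := Fm_rep A (Psi A e) ⟨_, h1⟩ h2.symm
  rw [h4, ← mkP_rp]
  obtain ⟨c, hc, hc2⟩ := (EE_lift A e (mkP_rp _)).2.2.2.2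
  exact mkP_eq.2 ⟨c, hc, (funext hc2).symm⟩

/-- The root of a point. -/
noncomputable def th (p : NZ A.h y) : ℂ := A.θ (rp p).1

theorem mm_Fm (p : NZ A.h y) (k : Fin d) : mm A (Fm A p) k = A.m k (fv A (rp p).1) := by
  obtain ⟨h1, h2⟩ := Fm_rep A p (rp p) (mkP_rp p)
  exact mm_rep A (Fm A p) k ⟨_, h1⟩ h2.symm

theorem pol_Fm (p : NZ A.h y) : pol (mm A (Fm A p)) (th A p) = 0 := by
  have h1 : mm A (Fm A p) = fun k => A.m k (fv A (rp p).1) := funext fun k => mm_Fm A p k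
  rw [h1]
  exact (A.img _ (of_rep A.hform (mkP_rp p)).1 (of_rep A.hform (mkP_rp p)).2).2.2.1

theorem Psi_Fm (p : NZ A.h y) (e : EE A) (he : e.1.1 = Fm A p) (he2 : e.1.2 = th A p) :
    Psi A e = p := by
  apply pt_inj
  obtain ⟨h1, h2⟩ := Fm_rep A p (rp p) (mkP_rp p)
  rw [← he] at h2
  obtain ⟨h3, h4⟩ := Psi_rep A e ⟨_, h1⟩ h2.symm
  rw [h4, ← mkP_rp p]
  have h5 := of_rep A.hform (mkP_rp p)
  have h6 := (A.img _ h5.1 h5.2).2.2.2
  have h7 := A.hj _ h5.2
  refine mkP_eq.2 ⟨((rp p).1 A.j0)⁻¹, inv_ne_zero h7, ?_⟩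
  dsimp only
  rw [he2]
  funext j
  have h8 := h6 j
  change _ = A.R j (fv A (rp p).1) (A.θ (rp p).1)
  rw [Pi.smul_apply, smul_eq_mul, ← div_eq_inv_mul]
  exact h8.symm

end main

end Cov

theorem cov (hcp : S_cp) : S_cov := by
  intro K L _ _ _ _ M M' d x y A hd
  have hq := (hcp.1 M).2.2.2
  have hq' := (hcp.1 M').2.2.2
  refine ⟨⟨Cov.Fm A, Cov.Fm_cont A hq hq'⟩, ?_, ?_, ?_, ?_, ?_⟩
  · intro q
    obtain ⟨τ, hτ⟩ := Cov.exists_root hd (Cov.mm A q)
    exact ⟨Cov.Psi A ⟨(q, τ), hτ⟩, Cov.Fm_Psi A _⟩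
  · intro q
    refine Set.Finite.of_finite_image ((Cov.finite_roots (Cov.mm A q)).subset ?_)
      (f := Cov.th A) ?_
    · rintro _ ⟨p, hp, rfl⟩
      have hp' : Cov.Fm A p = q := hp
      rw [← hp']
      exact Cov.pol_Fm A p
    · intro p hp p' hp' hpp
      have h1 : Cov.Fm A p = q := hp
      have h2 : Cov.Fm A p' = q := hp'
      have h3 := Cov.Psi_Fm A p ⟨(Cov.Fm A p, Cov.th A p), Cov.pol_Fm A p⟩ rfl rfl
      have h4 := Cov.Psi_Fm A p' ⟨(Cov.Fm A p, Cov.th A p), Cov.pol_Fm A p⟩ (h1.trans h2.symm) hpp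
      exact h3.symm.trans h4
  · intro γ p hp
    have hp' : Cov.Fm A p = γ 0 := hp
    obtain ⟨τ, hτ, hτ0⟩ := Cov.root_lift (fun t => Cov.mm A (γ t))
      (fun k => (Cov.mm_cont A hq k).comp γ.continuous)
      (fun t τ ht => by
        have h1 := (Cov.EE_lift A ⟨(γ t, τ), ht⟩ (Cov.mkP_rp _)).1
        exact h1) (Cov.th A p) (by rw [← hp']; exact Cov.pol_Fm A p)
    refine ⟨⟨fun t => Cov.Psi A ⟨(γ t, τ t), hτ t⟩, (Cov.Psi_cont A hq hq').comp
      (Continuous.subtype_mk (γ.continuous.prodMk τ.continuous) _)⟩, fun t => Cov.Fm_Psi A _, ?_⟩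
    exact Cov.Psi_Fm A p _ hp'.symm hτ0
  · rintro rfl
    intro p p' hpp
    have hpp' : Cov.Fm A p = Cov.Fm A p' := hpp
    have hroot : ∀ (c : Fin 1 → ℂ) (τ : ℂ), pol c τ = 0 → τ = -c 0 := by
      intro c τ h
      unfold pol at h
      rw [Fin.sum_univ_one, pow_one] at h
      simp only [Fin.val_zero, pow_zero, mul_one] at h
      exact eq_neg_of_add_eq_zero_left h
    have h1 := hroot _ _ (Cov.pol_Fm A p)
    have h2 := hroot _ _ (Cov.pol_Fm A p')
    have h5 : Cov.th A p = Cov.th A p' := by rw [h1, h2, hpp']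
    have h3 := Cov.Psi_Fm A p ⟨(Cov.Fm A p, Cov.th A p), Cov.pol_Fm A p⟩ rfl rfl
    have h4 := Cov.Psi_Fm A p' ⟨(Cov.Fm A p, Cov.th A p), Cov.pol_Fm A p⟩ hpp' h5
    exact h3.symm.trans h4
  · intro p z hz
    exact Cov.Fm_rep A p z hz

end Pool.Agent.NH55.VA
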