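import Pool.Agent.NH55.VA.Stm

/-!
# Fundamental groups for a finite covering between parts
-/

set_option autoImplicit false

open Topology
open scoped unitInterval

noncomputable section

namespace Pool.Agent.NH55.VA.Grp

/-- the class of a loop -/
abbrev cls {Z : Type} [TopologicalSpace Z] {z : Z} (p : Path z z) : FundamentalGroup Z z :=
  Path.Homotopic.Quotient.mk p

theorem cls_surj {Z : Type} [TopologicalSpace Z] {z : Z} (g : FundamentalGroup Z z) :
    ∃ p : Path z z, cls p = g := Path.Homotopic.Quotient.mk_surjective g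

theorem cls_trans {Z : Type} [TopologicalSpace Z] {z : Z} (p q : Path z z) :
    cls (p.trans q) = cls q * cls p := rfl

theorem cls_symm {Z : Type} [TopologicalSpace Z] {z : Z} (p : Path z z) :
    cls p.symm = (cls p)⁻¹ := rfl

section key

variable {Y X : Type} [TopologicalSpace Y] [TopologicalSpace X] {U : Set Y} {V : Set X}
  (F : C(U, V))

theorem exists_psi
    (h4 : ∀ (a b : U) (γ γ' : Path a b),
    (γ.map continuous_subtype_val).Homotopic (γ'.map continuous_subtype_val) →
      HomIm (incl F) γ γ')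
    (h5 : ∀ (a b : U) (γ : Path (a : Y) (b : Y)), ∃ γ' : Path a b,
    γ.Homotopic (γ'.map continuous_subtype_val)) (u0 : U) :
    ∃ Ψ : FundamentalGroup Y (u0 : Y) →* FundamentalGroup X (incl F u0),
      ∀ α : Path u0 u0, Ψ (cls (α.map continuous_subtype_val)) =
        cls (α.map (incl F).continuous) := by
  have rep : ∀ c : FundamentalGroup Y (u0 : Y), ∃ α : Path u0 u0,
      cls (α.map continuous_subtype_val) = c := by
    intro c
    obtain ⟨p, hp⟩ := cls_surj c
    obtain ⟨α, hα⟩ := h5 u0 u0 p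
    exact ⟨α, by rw [← hp]; exact (Path.Homotopic.Quotient.eq.2 hα).symm⟩
  choose r hr using rep
  have hkey : ∀ (α : Path u0 u0) (c : FundamentalGroup Y (u0 : Y)),
      cls (α.map continuous_subtype_val) = c →
      cls ((r c).map (incl F).continuous) = cls (α.map (incl F).continuous) := by
    intro α c hc
    apply Path.Homotopic.Quotient.eq.2
    apply h4
    apply Path.Homotopic.Quotient.exact
    exact (hr c).trans hc.symm
  refine ⟨MonoidHom.mk' (fun c => cls ((r c).map (incl F).continuous)) ?_, ?_⟩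
  · intro c c'
    have h1 : cls (((r c').trans (r c)).map continuous_subtype_val) = c * c' := by
      rw [Path.map_trans, cls_trans, hr, hr]
    rw [hkey _ _ h1, Path.map_trans, cls_trans]
  · intro α
    exact hkey α _ rfl

theorem exists_lift (hl : Lifts F)
    (h6 : ∀ (a b : V) (γ : Path (a : X) (b : X)), ∃ γ' : Path a b,
    γ.Homotopic (γ'.map continuous_subtype_val)) (u0 : U) (g : FundamentalGroup X (incl F u0)) :
    ∃ w : F ⁻¹' {F u0}, ∃ Γ : Path u0 (w : U), ∃ γ : Path (incl F u0) (incl F u0),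
      cls γ = g ∧ ∀ t, γ t = incl F (Γ t) := by
  obtain ⟨p, hp⟩ := cls_surj g
  obtain ⟨γ', hγ'⟩ := h6 (F u0) (F u0) p
  obtain ⟨Γ, hΓ, hΓ0⟩ := hl γ'.toContinuousMap u0 γ'.source.symm
  have hw : F (Γ 1) = F u0 := by
    rw [hΓ 1]
    exact γ'.target
  refine ⟨⟨Γ 1, hw⟩, { toContinuousMap := Γ, source' := hΓ0, target' := rfl },
    γ'.map continuous_subtype_val, ?_, ?_⟩
  · rw [← hp]
    exact (Path.Homotopic.Quotient.eq.2 hγ').symm
  · intro t
    change ((γ' t : V) : X) = ((F (Γ t) : V) : X)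
    rw [hΓ t]
    rfl

theorem exists_key (hl : Lifts F)
    (h4 : ∀ (a b : U) (γ γ' : Path a b),
    (γ.map continuous_subtype_val).Homotopic (γ'.map continuous_subtype_val) →
      HomIm (incl F) γ γ')
    (h5 : ∀ (a b : U) (γ : Path (a : Y) (b : Y)), ∃ γ' : Path a b,
    γ.Homotopic (γ'.map continuous_subtype_val))
    (h6 : ∀ (a b : V) (γ : Path (a : X) (b : X)), ∃ γ' : Path a b,
    γ.Homotopic (γ'.map continuous_subtype_val)) (u0 : U) :
    ∃ (Ψ : FundamentalGroup Y (u0 : Y) →* FundamentalGroup X (incl F u0))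
      (w : FundamentalGroup X (incl F u0) → F ⁻¹' {F u0}),
      ∀ g g', w g = w g' → g'⁻¹ * g ∈ Ψ.range := by
  obtain ⟨Ψ, hΨ⟩ := exists_psi F h4 h5 u0
  choose w Γ γ hγ hΓ using exists_lift F hl h6 u0
  refine ⟨Ψ, w, fun g g' hw => ?_⟩
  have h1 : ∀ (a b : F ⁻¹' {F u0}) (hab : a = b) (A : Path u0 (a : U)) (B : Path u0 (b : U))
      (p q : Path (incl F u0) (incl F u0)), (∀ t, p t = incl F (A t)) →
      (∀ t, q t = incl F (B t)) → cls (p.trans q.symm) ∈ Ψ.range := by
    intro a b hab A B p q hp hq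
    subst hab
    refine ⟨cls ((A.trans B.symm).map continuous_subtype_val), ?_⟩
    rw [hΨ]
    congr 1
    ext t
    rw [Path.map_trans, Path.trans_apply, Path.trans_apply]
    split_ifs
    · exact (hp _).symm
    · exact (hq _).symm
  have h2 := h1 (w g) (w g') hw (Γ g) (Γ g') (γ g) (γ g') (hΓ g) (hΓ g')
  rw [cls_trans, cls_symm, hγ, hγ] at h2
  exact h2

end key

theorem virtAb_equiv {G G' : Type} [Group G] [Group G'] (e : G ≃* G') (h : VirtAb G) :
    VirtAb G' := by
  obtain ⟨H, hH, hc⟩ := h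
  refine ⟨H.map e.toMonoidHom, ?_, ?_⟩
  · constructor
    rw [Subgroup.index_map_of_injective H e.injective]
    have : e.toMonoidHom.range = ⊤ := MonoidHom.range_eq_top.2 e.surjective
    rw [this, Subgroup.index_top, mul_one]
    exact hH.index_ne_zero
  · rintro a ⟨x, hx, rfl⟩ b ⟨y, hy, rfl⟩
    rw [← map_mul, ← map_mul, hc x hx y hy]

end Pool.Agent.NH55.VA.Grp

namespace Pool.Agent.NH55.VA

open Grp

theorem grp : S_grp := by
  intro Y X _ _ U V F hsurj hfin hl h4 h5 h6 h7
  have hbase : ∀ x : X, ∃ u0 : U, Nonempty (FundamentalGroup X (incl F u0) ≃* FundamentalGroup X x) := by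
    intro x
    obtain ⟨v, ⟨p⟩⟩ := h7 x
    obtain ⟨u0, hu0⟩ := hsurj v
    subst hu0
    exact ⟨u0, ⟨FundamentalGroup.fundamentalGroupMulEquivOfPath p.symm⟩⟩
  refine ⟨?_, ?_, ?_, ?_⟩
  · intro hY x
    obtain ⟨u0, ⟨e⟩⟩ := hbase x
    apply virtAb_equiv e
    obtain ⟨Ψ, w, hw⟩ := exists_key F hl h4 h5 h6 u0
    have hfi : Ψ.range.FiniteIndex := by
      have hf : Finite (F ⁻¹' {F u0}) := (hfin (F u0)).to_subtype
      have hfq : Finite (FundamentalGroup X (incl F u0) ⧸ Ψ.range) := by
        apply Finite.of_injective (fun q => w q.out)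
        intro q q' hqq
        have h1 := hw q'.out q.out hqq.symm
        rw [← Quotient.out_eq' q, ← Quotient.out_eq' q']
        exact QuotientGroup.eq.2 h1
      exact Subgroup.finiteIndex_of_finite_quotient
    obtain ⟨A, hA, hAc⟩ := hY (u0 : Y)
    refine ⟨A.map Ψ, ?_, ?_⟩
    · constructor
      rw [Subgroup.index_map]
      refine mul_ne_zero ?_ hfi.index_ne_zero
      intro h0
      have h1 := Subgroup.index_dvd_of_le (le_sup_left : A ≤ A ⊔ Ψ.ker)
      rw [h0, zero_dvd_iff] at h1
      exact hA.index_ne_zero h1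
    · rintro a ⟨x, hx, rfl⟩ b ⟨y, hy, rfl⟩
      rw [← map_mul, ← map_mul, hAc x hx y hy]
  · intro hY x
    obtain ⟨u0, ⟨e⟩⟩ := hbase x
    obtain ⟨Ψ, w, hw⟩ := exists_key F hl h4 h5 h6 u0
    have hf : Finite (F ⁻¹' {F u0}) := (hfin (F u0)).to_subtype
    have hinj : Function.Injective w := by
      intro g g' hgg
      obtain ⟨c, hc⟩ := hw g g' hgg
      have : Subsingleton (FundamentalGroup Y (u0 : Y)) := hY _
      rw [Subsingleton.elim c 1, map_one] at hc
      exact (inv_mul_eq_one.1 hc.symm).symm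
    have : Finite (FundamentalGroup X (incl F u0)) := Finite.of_injective w hinj
    exact Finite.of_equiv _ e.toEquiv
  · intro hY hFinj x
    obtain ⟨u0, ⟨e⟩⟩ := hbase x
    obtain ⟨Ψ, w, hw⟩ := exists_key F hl h4 h5 h6 u0
    have hinj : Function.Injective w := by
      intro g g' hgg
      obtain ⟨c, hc⟩ := hw g g' hgg
      have : Subsingleton (FundamentalGroup Y (u0 : Y)) := hY _
      rw [Subsingleton.elim c 1, map_one] at hc
      exact (inv_mul_eq_one.1 hc.symm).symm
    have hsub : Subsingleton (F ⁻¹' {F u0}) := by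
      constructor
      rintro ⟨a, ha⟩ ⟨b, hb⟩
      apply Subtype.ext
      apply hFinj
      rw [ha, hb]
    have : Subsingleton (FundamentalGroup X (incl F u0)) := hinj.subsingleton
    exact e.symm.injective.subsingleton
  · intro hY hU
    have hne : Nonempty X := hU.map (incl F)
    refine ⟨hne, fun x x' => ?_⟩
    obtain ⟨v, hv⟩ := h7 x
    obtain ⟨v', hv'⟩ := h7 x'
    obtain ⟨a, rfl⟩ := hsurj v
    obtain ⟨b, rfl⟩ := hsurj v'
    obtain ⟨γ, -⟩ := h5 a b (PathConnectedSpace.somePath (a : Y) (b : Y))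
    have h1 : Joined (incl F a) (incl F b) := ⟨γ.map (incl F).continuous⟩
    exact hv.trans (h1.trans hv'.symm)

end Pool.Agent.NH55.VA
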