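import Pool.Agent.NH55.VA.Stm

/-!
# Holomorphic functions on the polydisc: connectedness and paths
-/

set_option autoImplicit false

open Metric Topology
open scoped unitInterval

noncomputable section

namespace Pool.Agent.NH55.VA.Loc

/-- two points of an open convex plane set outside a countable set can be joined -/
theorem joined_diff {D s : Set ℂ} (hD : IsOpen D) (hconv : Convex ℝ D) (hs : s.Countable) {a b : ℂ}
    (ha : a ∈ D \ s) (hb : b ∈ D \ s) : JoinedIn (D \ s) a b := by
  rcases eq_or_ne a b with rfl | hab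
  · exact JoinedIn.refl ha
  have h : 1 < Module.rank ℝ ℂ := by
    rw [Complex.rank_real_complex]
    exact Cardinal.one_lt_two
  let c := (2 : ℝ)⁻¹ • (a + b)
  let x := (2 : ℝ)⁻¹ • (b - a)
  have Ia : c - x = a := by
    simp only [c, x]
    module
  have Ib : c + x = b := by
    simp only [c, x]
    module
  have x_ne_zero : x ≠ 0 := by simpa [x] using sub_ne_zero.2 hab.symm
  obtain ⟨y, hy⟩ : ∃ y, LinearIndependent ℝ ![x, y] :=
    exists_linearIndependent_pair_of_one_lt_rank h x_ne_zero
  have A : Set.Countable {t : ℝ | (segment ℝ (c + x) (c + t • y) ∩ s).Nonempty} := by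
    apply Set.countable_ofPred_nonempty_of_disjoint _ (fun t ↦ Set.inter_subset_right) hs
    intro t t' htt'
    apply Set.disjoint_iff_inter_eq_empty.2
    have N : {c + x} ∩ s = ∅ := by
      rw [Set.singleton_inter_eq_empty, Ib]
      exact hb.2
    rw [Set.inter_assoc, Set.inter_comm s, Set.inter_assoc, Set.inter_self, ← Set.inter_assoc,
      ← Set.subset_empty_iff, ← N]
    apply Set.inter_subset_inter_left
    apply Eq.subset
    apply segment_inter_eq_endpoint_of_linearIndependent_of_ne hy htt'.symm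
  have B : Set.Countable {t : ℝ | (segment ℝ (c - x) (c + t • y) ∩ s).Nonempty} := by
    apply Set.countable_ofPred_nonempty_of_disjoint _ (fun t ↦ Set.inter_subset_right) hs
    intro t t' htt'
    apply Set.disjoint_iff_inter_eq_empty.2
    have N : {c - x} ∩ s = ∅ := by
      rw [Set.singleton_inter_eq_empty, Ia]
      exact ha.2
    rw [Set.inter_assoc, Set.inter_comm s, Set.inter_assoc, Set.inter_self, ← Set.inter_assoc,
      ← Set.subset_empty_iff, ← N]
    apply Set.inter_subset_inter_left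
    rw [sub_eq_add_neg _ x]
    apply Eq.subset
    apply segment_inter_eq_endpoint_of_linearIndependent_of_ne _ htt'.symm
    convert! hy.units_smul ![-1, 1]
    simp [← List.ofFn_inj]
  have hcD : c ∈ D := by
    have h1 := hconv ha.1 hb.1 (a := (2:ℝ)⁻¹) (b := (2:ℝ)⁻¹) (by norm_num) (by norm_num) (by norm_num)
    have h2 : c = (2:ℝ)⁻¹ • a + (2:ℝ)⁻¹ • b := by
      simp only [c]
      module
    rw [h2]
    exact h1
  have hVo : IsOpen {t : ℝ | c + t • y ∈ D} := hD.preimage (by fun_prop)
  obtain ⟨t, htD, ht⟩ := ((A.union B).dense_compl ℝ).inter_open_nonempty _ hVo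
    ⟨0, by simpa using hcD⟩
  let z := c + t • y
  simp only [Set.compl_union, Set.mem_inter_iff, Set.mem_compl_iff, Set.mem_ofPred_eq,
    Set.not_nonempty_iff_eq_empty] at ht
  have JA : JoinedIn (D \ s) a z := by
    apply JoinedIn.of_segment_subset
    rw [Set.subset_sdiff]
    refine ⟨hconv.segment_subset ha.1 htD, ?_⟩
    rw [Set.disjoint_iff_inter_eq_empty]
    convert! ht.2
    exact Ia.symm
  have JB : JoinedIn (D \ s) b z := by
    apply JoinedIn.of_segment_subset
    rw [Set.subset_sdiff]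
    refine ⟨hconv.segment_subset hb.1 htD, ?_⟩
    rw [Set.disjoint_iff_inter_eq_empty]
    convert! ht.1
    exact Ib.symm
  exact JA.trans JB.symm

theorem zeros_countable {D : Set ℂ} (hD : IsOpen D) (hconn : IsPreconnected D) {u : ℂ → ℂ}
    (hu : DifferentiableOn ℂ u D) (hne : ∃ l ∈ D, u l ≠ 0) : {l | l ∈ D ∧ u l = 0}.Countable := by
  have han : AnalyticOnNhd ℂ u D := hu.analyticOnNhd hD
  have h1 : ∀ x ∈ {l | l ∈ D ∧ u l = 0}, insert x {y : ℂ | u y ≠ 0} ∈ 𝓝[{l | l ∈ D ∧ u l = 0}] x := by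
    intro x hx
    rcases (han x hx.1).eventually_eq_zero_or_eventually_ne_zero with h2 | h2
    · exfalso
      obtain ⟨l, hl, hlne⟩ := hne
      have h3 := han.eqOn_zero_of_preconnected_of_eventuallyEq_zero hconn hx.1 h2
      exact hlne (h3 hl)
    · apply mem_nhdsWithin_of_mem_nhds
      rw [insert_mem_nhds_iff]
      exact h2
  obtain ⟨t, hts, htc, ht⟩ := TopologicalSpace.countable_cover_nhdsWithin h1
  refine htc.mono ?_
  intro z hz
  obtain ⟨x, hx, hzx⟩ := Set.mem_iUnion₂.1 (ht hz)
  rcases hzx with h2 | h2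
  · rw [h2]; exact hx
  · exact absurd hz.2 h2

theorem joined_ne {D : Set ℂ} (hD : IsOpen D) (hconv : Convex ℝ D) {u : ℂ → ℂ}
    (hu : DifferentiableOn ℂ u D) {a b : ℂ} (ha : a ∈ D ∧ u a ≠ 0) (hb : b ∈ D ∧ u b ≠ 0) :
    JoinedIn {l | l ∈ D ∧ u l ≠ 0} a b := by
  have hc := zeros_countable hD hconv.isPreconnected hu ⟨a, ha.1, ha.2⟩
  have h := joined_diff hD hconv hc (a := a) (b := b) ⟨ha.1, fun h => ha.2 h.2⟩
    ⟨hb.1, fun h => hb.2 h.2⟩
  refine h.mono ?_
  intro l hl
  exact ⟨hl.1, fun h => hl.2 ⟨hl.1, h⟩⟩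

/-- the part of the polydisc where `h` does not vanish -/
abbrev UU (n : ℕ) (h : (Fin n → ℂ) → ℂ) : Set (Fin n → ℂ) :=
  {z : Fin n → ℂ | z ∈ ball (0 : Fin n → ℂ) 1 ∧ h z ≠ 0}

/-- the plane section -/
def DD {n : ℕ} (a v : Fin n → ℂ) : Set ℂ := {l : ℂ | a + l • v ∈ ball (0 : Fin n → ℂ) 1}

theorem DD_open {n : ℕ} (a v : Fin n → ℂ) : IsOpen (DD a v) :=
  isOpen_ball.preimage (by fun_prop : Continuous fun l : ℂ => a + l • v)

theorem DD_convex {n : ℕ} (a v : Fin n → ℂ) : Convex ℝ (DD a v) := by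
  intro l hl l' hl' s t hs ht hst
  have h1 := convex_ball (0 : Fin n → ℂ) 1 hl hl' hs ht hst
  have h2 : a + (s • l + t • l') • v = s • (a + l • v) + t • (a + l' • v) := by
    have h3 : a = (s + t) • a := by rw [hst, one_smul]
    calc a + (s • l + t • l') • v = (s + t) • a + (s • l + t • l') • v := by rw [← h3]
      _ = _ := by
        rw [add_smul, add_smul, smul_add, smul_add, smul_assoc, smul_assoc]
        abel
  change a + (s • l + t • l') • v ∈ ball (0 : Fin n → ℂ) 1
  rw [h2]
  exact h1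

theorem line_diff {n : ℕ} {h : (Fin n → ℂ) → ℂ} (hh : DifferentiableOn ℂ h (ball 0 1))
    (a v : Fin n → ℂ) : DifferentiableOn ℂ (fun l : ℂ => h (a + l • v)) (DD a v) := by
  apply hh.comp (t := ball (0 : Fin n → ℂ) 1)
  · apply Differentiable.differentiableOn
    fun_prop
  · intro l hl
    exact hl

/-- a path in the plane section which avoids the zeros -/
theorem exists_line {n : ℕ} {h : (Fin n → ℂ) → ℂ} (hh : DifferentiableOn ℂ h (ball 0 1))
    {a b : Fin n → ℂ} (ha : a ∈ UU n h) (hb : b ∈ UU n h) :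
    ∃ l : C(I, ℂ), l 0 = 0 ∧ l 1 = 1 ∧ ∀ s, a + l s • (b - a) ∈ UU n h := by
  have e0 : a + (0:ℂ) • (b - a) = a := by simp
  have e1 : a + (1:ℂ) • (b - a) = b := by simp
  have hj := joined_ne (DD_open a (b - a)) (DD_convex a (b - a)) (line_diff hh a (b - a))
    (a := 0) (b := 1) (by
      refine ⟨?_, ?_⟩
      · change a + (0:ℂ) • (b - a) ∈ ball (0 : Fin n → ℂ) 1
        rw [e0]; exact ha.1
      · simp only [e0]
        exact ha.2) (by
      refine ⟨?_, ?_⟩
      · change a + (1:ℂ) • (b - a) ∈ ball (0 : Fin n → ℂ) 1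
        rw [e1]; exact hb.1
      · simp only [e1]
        exact hb.2)
  obtain ⟨p, hp⟩ := hj
  refine ⟨p.toContinuousMap, p.source, p.target, fun s => ?_⟩
  exact hp s

theorem UU_open {n : ℕ} {h : (Fin n → ℂ) → ℂ} (hh : DifferentiableOn ℂ h (ball 0 1)) :
    IsOpen (UU n h) := by
  have h1 := hh.continuousOn.isOpen_inter_preimage isOpen_ball
    (isOpen_compl_singleton (x := (0:ℂ)))
  exact h1

theorem seg_path (a b : I) (hab : a ≤ b) : ∃ β : Path a b, ∀ t, β t ∈ Set.Icc a b := by
  have hm : ∀ t : I, (1 - (t : ℝ)) * a + t * b ∈ Set.Icc (a : ℝ) b := by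
    intro t
    have h0 := t.2.1
    have h1 := t.2.2
    have h2 : (a : ℝ) ≤ b := hab
    constructor
    · nlinarith
    · nlinarith
  refine ⟨{ toFun := fun t => ⟨(1 - (t : ℝ)) * a + t * b, le_trans a.2.1 (hm t).1,
              le_trans (hm t).2 b.2.2⟩
            continuous_toFun := by fun_prop
            source' := by
              ext
              simp
            target' := by
              ext
              simp }, fun t => ⟨(hm t).1, (hm t).2⟩⟩

/-- transfer of homotopies along equalities of the ends -/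
theorem hom_of_fun {X : Type} [TopologicalSpace X] {x0 x1 y0 y1 : X} {p q : Path x0 x1}
    {p' q' : Path y0 y1} (h0 : x0 = y0) (h1 : x1 = y1) (hp : ∀ t, p t = p' t)
    (hq : ∀ t, q t = q' t) (h : p'.Homotopic q') : p.Homotopic q := by
  subst h0 h1
  have e1 : p = p' := Path.ext (funext hp)
  have e2 : q = q' := Path.ext (funext hq)
  rw [e1, e2]
  exact h

section fan

variable {n : ℕ} {h : (Fin n → ℂ) → ℂ} {X : Type} [TopologicalSpace X] (F : C(UU n h, X))

/-- the path through a plane section -/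
def Qp (a b : UU n h) (l : C(I, ℂ)) (h0 : l 0 = 0) (h1 : l 1 = 1)
    (hl : ∀ s, a.1 + l s • (b.1 - a.1) ∈ UU n h) : Path (F a) (F b) where
  toFun s := F ⟨a.1 + l s • (b.1 - a.1), hl s⟩
  continuous_toFun := F.continuous.comp (Continuous.subtype_mk (by fun_prop) _)
  source' := congrArg F (Subtype.ext (by simp [h0]))
  target' := congrArg F (Subtype.ext (by simp [h1]))

theorem seg_mem {a b : UU n h} (s : I) : ((s : ℝ) : ℂ) ∈ DD a.1 (b.1 - a.1) := by
  have h0 : (0 : ℂ) ∈ DD a.1 (b.1 - a.1) := by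
    change a.1 + (0:ℂ) • (b.1 - a.1) ∈ ball (0 : Fin n → ℂ) 1
    simpa using a.2.1
  have h1 : (1 : ℂ) ∈ DD a.1 (b.1 - a.1) := by
    change a.1 + (1:ℂ) • (b.1 - a.1) ∈ ball (0 : Fin n → ℂ) 1
    simpa using b.2.1
  have h2 := DD_convex a.1 (b.1 - a.1) h0 h1 (sub_nonneg.2 s.2.2) s.2.1 (sub_add_cancel 1 (s : ℝ))
  have h3 : (1 - (s : ℝ)) • (0 : ℂ) + (s : ℝ) • (1 : ℂ) = ((s : ℝ) : ℂ) := by
    rw [smul_zero, zero_add, Complex.real_smul, mul_one]
  rw [h3] at h2
  exact h2

/-- the straight path -/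
def Pp (a b : UU n h) (Φ : ℂ → X) (hΦ : ContinuousOn Φ (DD a.1 (b.1 - a.1)))
    (hF : ∀ (l : ℂ) (hl : a.1 + l • (b.1 - a.1) ∈ UU n h), Φ l = F ⟨a.1 + l • (b.1 - a.1), hl⟩) :
    Path (F a) (F b) where
  toFun s := Φ ((s : ℝ) : ℂ)
  continuous_toFun := hΦ.comp_continuous (by fun_prop) (fun s => seg_mem s)
  source' := by
    have e : a.1 + (0:ℂ) • (b.1 - a.1) = a.1 := by simp
    have h1 := hF 0 (by rw [e]; exact a.2)
    simp only [Set.Icc.coe_zero, Complex.ofReal_zero]
    rw [h1]
    exact congrArg F (Subtype.ext e)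
  target' := by
    have e : a.1 + (1:ℂ) • (b.1 - a.1) = b.1 := by simp
    have h1 := hF 1 (by rw [e]; exact b.2)
    simp only [Set.Icc.coe_one, Complex.ofReal_one]
    rw [h1]
    exact congrArg F (Subtype.ext e)

theorem fan (a b : UU n h) (Φ : ℂ → X) (hΦ : ContinuousOn Φ (DD a.1 (b.1 - a.1)))
    (hF : ∀ (l : ℂ) (hl : a.1 + l • (b.1 - a.1) ∈ UU n h), Φ l = F ⟨a.1 + l • (b.1 - a.1), hl⟩)
    (l : C(I, ℂ)) (h0 : l 0 = 0) (h1 : l 1 = 1)
    (hl : ∀ s, a.1 + l s • (b.1 - a.1) ∈ UU n h) :
    (Pp F a b Φ hΦ hF).Homotopic (Qp F a b l h0 h1 hl) := by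
  set D := DD a.1 (b.1 - a.1) with hD
  have hne : D.Nonempty := ⟨_, seg_mem (a := a) (b := b) 0⟩
  have : ContractibleSpace D := (DD_convex a.1 (b.1 - a.1)).contractibleSpace hne
  have hlD : ∀ s, l s ∈ D := fun s => (hl s).1
  let g : C(D, X) := ⟨fun z => Φ z, continuousOn_iff_continuous_domRestrict.1 hΦ⟩
  let α : Path (⟨l 0, hlD 0⟩ : D) ⟨l 1, hlD 1⟩ :=
    { toFun := fun s => ⟨((s : ℝ) : ℂ), seg_mem s⟩
      continuous_toFun := Continuous.subtype_mk (by fun_prop) _
      source' := Subtype.ext (by simp [h0])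
      target' := Subtype.ext (by simp [h1]) }
  let β : Path (⟨l 0, hlD 0⟩ : D) ⟨l 1, hlD 1⟩ :=
    { toFun := fun s => ⟨l s, hlD s⟩
      continuous_toFun := Continuous.subtype_mk l.continuous _
      source' := rfl
      target' := rfl }
  have h2 : α.Homotopic β := SimplyConnectedSpace.paths_homotopic _ _
  have h3 := h2.map g
  refine hom_of_fun ?_ ?_ (fun t => ?_) (fun t => ?_) h3
  · change F a = Φ (l 0)
    rw [hF (l 0) (hl 0)]
    exact congrArg F (Subtype.ext (by simp [h0]))
  · change F b = Φ (l 1)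
    rw [hF (l 1) (hl 1)]
    exact congrArg F (Subtype.ext (by simp [h1]))
  · rfl
  · change F _ = Φ (l t)
    rw [hF (l t) (hl t)]

/-- a family of paths with the fan property -/
def Fan (a : UU n h) (P : ∀ b : UU n h, Path (F a) (F b)) : Prop :=
  ∀ (b : UU n h) (l : C(I, ℂ)) (h0 : l 0 = 0) (h1 : l 1 = 1)
    (hl : ∀ s, a.1 + l s • (b.1 - a.1) ∈ UU n h), (P b).Homotopic (Qp F a b l h0 h1 hl)

theorem local_step (hh : DifferentiableOn ℂ h (ball 0 1)) (a : UU n h)
    (P : ∀ b : UU n h, Path (F a) (F b)) (hP : Fan F a P) (b0 : UU n h) :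
    ∃ N : Set (UU n h), IsOpen N ∧ b0 ∈ N ∧ ∀ (b1 b2 : UU n h) (δ : Path b1 b2),
      (∀ t, δ t ∈ N) → ((P b1).trans (δ.map F.continuous)).Homotopic (P b2) := by
  obtain ⟨l, h0, h1, hl⟩ := exists_line hh a.2 b0.2
  refine ⟨{b | ∀ s : I, a.1 + l s • (b.1 - a.1) ∈ UU n h}, ?_, hl, ?_⟩
  · have hW : IsOpen {z : UU n h × I | a.1 + l z.2 • (z.1.1 - a.1) ∈ UU n h} :=
      (UU_open hh).preimage (by fun_prop)
    have hcl := (isClosedMap_fst_of_compactSpace (X := UU n h) (Y := I)) _ hW.isClosed_compl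
    rw [← isClosed_compl_iff]
    convert hcl using 1
    ext b
    simp only [Set.mem_compl_iff, Set.mem_ofPred_eq, not_forall, Set.mem_image, Prod.exists,
      exists_and_right, exists_eq_right]
  · intro b1 b2 δ hδ
    let K : C(I × I, X) := ⟨fun z => F ⟨a.1 + l z.1 • ((δ z.2).1 - a.1), hδ z.2 z.1⟩,
      F.continuous.comp (Continuous.subtype_mk (by fun_prop) _)⟩
    let p1 : Path ((0, 0) : I × I) (1, 0) :=
      { toFun := fun s => (s, 0), continuous_toFun := by fun_prop, source' := rfl, target' := rfl }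
    let p2 : Path ((1, 0) : I × I) (1, 1) :=
      { toFun := fun s => (1, s), continuous_toFun := by fun_prop, source' := rfl, target' := rfl }
    let p3 : Path ((0, 0) : I × I) (0, 1) :=
      { toFun := fun s => (0, s), continuous_toFun := by fun_prop, source' := rfl, target' := rfl }
    let p4 : Path ((0, 1) : I × I) (1, 1) :=
      { toFun := fun s => (s, 1), continuous_toFun := by fun_prop, source' := rfl, target' := rfl }
    have hI : ContractibleSpace I := (convex_Icc (0 : ℝ) 1).contractibleSpace ⟨0, by simp⟩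
    have hq : (p1.trans p2).Homotopic (p3.trans p4) := SimplyConnectedSpace.paths_homotopic _ _
    have hq2 := hq.map K
    have hl1 : ∀ s, a.1 + l s • (b1.1 - a.1) ∈ UU n h := by
      have := hδ 0
      rw [δ.source] at this
      exact this
    have hl2 : ∀ s, a.1 + l s • (b2.1 - a.1) ∈ UU n h := by
      have := hδ 1
      rw [δ.target] at this
      exact this
    have k00 : K (0, 0) = F a := congrArg F (Subtype.ext (by simp [h0]))
    have k0 : ∀ t, K (0, t) = F a := fun t => congrArg F (Subtype.ext (by simp [h0]))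
    have k1 : ∀ t, K (1, t) = F (δ t) := fun t => congrArg F (Subtype.ext (by simp [h1]))
    have ks0 : ∀ t, K (t, 0) = Qp F a b1 l h0 h1 hl1 t := fun t =>
      congrArg F (Subtype.ext (by simp [δ.source]))
    have ks1 : ∀ t, K (t, 1) = Qp F a b2 l h0 h1 hl2 t := fun t =>
      congrArg F (Subtype.ext (by simp [δ.target]))
    have hq3 : ((Qp F a b1 l h0 h1 hl1).trans (δ.map F.continuous)).Homotopic
        ((Path.refl (F a)).trans (Qp F a b2 l h0 h1 hl2)) := by
      refine hom_of_fun k00.symm ?_ (fun t => ?_) (fun t => ?_) hq2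
      · rw [k1, δ.target]
      · rw [Path.map_trans, Path.trans_apply, Path.trans_apply]
        split_ifs
        · exact (ks0 _).symm
        · exact (k1 _).symm
      · rw [Path.map_trans, Path.trans_apply, Path.trans_apply]
        split_ifs
        · exact (k0 _).symm
        · exact (ks1 _).symm
    have hq4 : ((Path.refl (F a)).trans (Qp F a b2 l h0 h1 hl2)).Homotopic
        (Qp F a b2 l h0 h1 hl2) := ⟨Path.Homotopy.reflTrans _⟩
    exact (((hP b1 l h0 h1 hl1).hcomp (Path.Homotopic.refl _)).trans (hq3.trans hq4)).trans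
      (hP b2 l h0 h1 hl2).symm

theorem global_step (hh : DifferentiableOn ℂ h (ball 0 1)) (a : UU n h)
    (P : ∀ b : UU n h, Path (F a) (F b)) (hP : Fan F a P) (γ : C(I, UU n h)) (α : Path (0 : I) 1) :
    ((P (γ 0)).trans ((α.map γ.continuous).map F.continuous)).Homotopic (P (γ 1)) := by
  choose N hNo hN0 hN using local_step F hh a P hP
  obtain ⟨t, ht0, htm, ⟨m, hm⟩, ht⟩ := exists_monotone_Icc_subset_open_cover_unitInterval
    (c := fun b => γ ⁻¹' (N b)) (fun b => (hNo b).preimage γ.continuous) (by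
      intro u _
      exact Set.mem_iUnion.2 ⟨γ u, hN0 _⟩)
  have hI : ContractibleSpace I := (convex_Icc (0 : ℝ) 1).contractibleSpace ⟨0, by simp⟩
  have claim : ∀ k, ∀ s : I, t k = s → ∀ α : Path (0 : I) s,
      ((P (γ 0)).trans ((α.map γ.continuous).map F.continuous)).Homotopic (P (γ s)) := by
    intro k
    induction k with
    | zero =>
      intro s hs α
      rw [ht0] at hs
      subst hs
      have h1 : α.Homotopic (Path.refl 0) := SimplyConnectedSpace.paths_homotopic _ _
      have h2 := (h1.map γ).map F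
      exact ((Path.Homotopic.refl _).hcomp h2).trans ⟨Path.Homotopy.transRefl _⟩
    | succ k ih =>
      intro s hs α
      subst hs
      obtain ⟨b, hb⟩ := ht k
      obtain ⟨α1, -⟩ := seg_path 0 (t k) (by
        rw [← ht0]
        exact htm (Nat.zero_le _))
      obtain ⟨β, hβ⟩ := seg_path (t k) (t (k + 1)) (htm (Nat.le_succ k))
      have h1 : α.Homotopic (α1.trans β) := SimplyConnectedSpace.paths_homotopic _ _
      have h2 := (h1.map γ).map F
      rw [Path.map_trans, Path.map_trans] at h2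
      have h3 := ih (t k) rfl α1
      have h4 := hN b (γ (t k)) (γ (t (k + 1))) (β.map γ.continuous) (fun u => hb (hβ u))
      refine ((Path.Homotopic.refl _).hcomp h2).trans ?_
      have h5 : ((P (γ 0)).trans (((α1.map γ.continuous).map F.continuous).trans
          ((β.map γ.continuous).map F.continuous))).Homotopic
          (((P (γ 0)).trans ((α1.map γ.continuous).map F.continuous)).trans
          ((β.map γ.continuous).map F.continuous)) := ⟨(Path.Homotopy.transAssoc _ _ _).symm⟩
      exact h5.trans ((h3.hcomp (Path.Homotopic.refl _)).trans h4)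
  exact claim m 1 (hm m le_rfl) α

theorem final_aux {a b : UU n h} {P : ∀ b : UU n h, Path (F a) (F b)} {b0 b1 : UU n h}
    (h0 : b0 = a) (h1 : b1 = b) {p : Path (F b0) (F b1)} {q : Path (F a) (F b)}
    (hpq : ∀ t, p t = q t) (H : ((P b0).trans p).Homotopic (P b1)) :
    ((P a).trans q).Homotopic (P b) := by
  subst h0 h1
  have e : p = q := Path.ext (funext hpq)
  rwa [e] at H

end fan

end Pool.Agent.NH55.VA.Loc

namespace Pool.Agent.NH55.VA

open Loc

theorem conn : S_conn := by
  intro n h hh ⟨a, ha, hane⟩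
  refine ⟨a, ⟨ha, hane⟩, fun {b} hb => ?_⟩
  obtain ⟨l, hl0, hl1, hl⟩ := exists_line hh (a := a) (b := b) ⟨ha, hane⟩ hb
  refine ⟨{ toFun := fun s => a + l s • (b - a)
            continuous_toFun := by fun_prop
            source' := by simp [hl0]
            target' := by simp [hl1] }, fun s => hl s⟩

theorem loc : S_loc := by
  intro n h hh X _ F hext a b γ γ'
  choose Φ hΦc hΦF using hext a.1 a.2
  let P : ∀ b : UU n h, Path (F a) (F b) := fun b =>
    Pp F a b (Φ (b.1 - a.1)) (hΦc (b.1 - a.1)) (hΦF (b.1 - a.1))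
  have hP : Fan F a P := fun b l h0 h1 hl =>
    fan F a b (Φ (b.1 - a.1)) (hΦc (b.1 - a.1)) (hΦF (b.1 - a.1)) l h0 h1 hl
  have key : ∀ γ : Path a b, (γ.map F.continuous).Homotopic (P b) := by
    intro γ
    have h1 := global_step F hh a P hP γ.toContinuousMap
      { toFun := fun s => s, continuous_toFun := continuous_id, source' := rfl, target' := rfl }
    have h2 : ((P a).trans (γ.map F.continuous)).Homotopic (P b) :=
      final_aux F γ.source γ.target (fun t => rfl) h1
    have h3 : (P a).Homotopic (Path.refl (F a)) := by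
      let l : C(I, ℂ) := ⟨fun s => ((s : ℝ) : ℂ), by fun_prop⟩
      have hl : ∀ s, a.1 + l s • (a.1 - a.1) ∈ UU n h := by
        intro s
        rw [sub_self, smul_zero, add_zero]
        exact a.2
      have h4 := hP a l (by simp [l]) (by simp [l]) hl
      have h5 : Qp F a a l (by simp [l]) (by simp [l]) hl = Path.refl (F a) := by
        ext s
        exact congrArg F (Subtype.ext (by simp))
      rw [h5] at h4
      exact h4
    have h6 : ((Path.refl (F a)).trans (γ.map F.continuous)).Homotopic (γ.map F.continuous) :=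
      ⟨Path.Homotopy.reflTrans _⟩
    exact h6.symm.trans ((h3.symm.hcomp (Path.Homotopic.refl _)).trans h2)
  exact (key γ).trans (key γ').symm

end Pool.Agent.NH55.VA
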