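import Pool.Agent.NH55.VA.Ch

/-!
# Nonvanishing of forms on charts
-/

set_option autoImplicit false

open FF MvPolynomial Metric Topology Pool.Agent.W602.GT Pool.Agent.TH710.SP

namespace Pool.Agent.NH55.VA

namespace Nz

/-- values of forms at a multiple -/
theorem val_smul' {K : Type} [Field K] [Algebra ℂ K] {m : ℕ} {G : MvPolynomial (Fin (m + 1)) ℂ}
    {d : ℕ} (hd : G.IsHomogeneous d) (c : K) (z : Fin (m + 1) → K) :
    val (c • z) G = c ^ d * val z G := by
  unfold val
  rw [MvPolynomial.aeval_def, MvPolynomial.aeval_def, MvPolynomial.eval₂_eq',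
    MvPolynomial.eval₂_eq', Finset.mul_sum]
  refine Finset.sum_congr rfl fun a ha => ?_
  have h1 : ∑ i, a i = d := by
    have h2 := hd (MvPolynomial.mem_support_iff.1 ha)
    rw [← h2, Finsupp.weight_apply, Finsupp.sum_fintype]
    · simp
    · simp
  simp only [Pi.smul_apply, smul_eq_mul, mul_pow]
  rw [Finset.prod_mul_distrib, Finset.prod_pow_eq_pow_sum, h1]
  ring

/-- homogenization -/
noncomputable def hg {m : ℕ} (i0 : Fin (m + 1)) (Q : MvPolynomial (Fin (m + 1)) ℂ) :
    MvPolynomial (Fin (m + 1)) ℂ :=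
  ∑ j ∈ Finset.range (Q.totalDegree + 1),
    X i0 ^ (Q.totalDegree - j) * homogeneousComponent j Q

theorem hg_form {m : ℕ} (i0 : Fin (m + 1)) (Q : MvPolynomial (Fin (m + 1)) ℂ) :
    (hg i0 Q).IsHomogeneous Q.totalDegree := by
  unfold hg
  refine IsHomogeneous.sum _ _ _ fun j hj => ?_
  have h1 := ((isHomogeneous_X ℂ i0).pow (Q.totalDegree - j)).mul
    (homogeneousComponent_isHomogeneous j Q)
  have h2 : 1 * (Q.totalDegree - j) + j = Q.totalDegree := by
    have := Finset.mem_range.1 hj
    omega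
  rwa [h2] at h1

theorem val_hg {K : Type} [Field K] [Algebra ℂ K] {m : ℕ} (i0 : Fin (m + 1))
    (Q : MvPolynomial (Fin (m + 1)) ℂ) (z : Fin (m + 1) → K) (hz : z i0 = 1) :
    val z (hg i0 Q) = aeval z Q := by
  unfold hg val
  rw [map_sum]
  conv_rhs => rw [← sum_homogeneousComponent Q]
  rw [map_sum]
  refine Finset.sum_congr rfl fun j _ => ?_
  rw [map_mul, map_pow, aeval_X, hz, one_pow, one_mul]

end Nz

open Nz Ch in
/-- a form which does not vanish on the variety does not vanish on a chart -/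
theorem nz : S_nz := by
  intro K _ _ n M y hs N c g hgf hgy
  by_contra hcon
  push Not at hcon
  have h0 : (0 : Fin n → ℂ) ∈ ball (0 : Fin n → ℂ) 1 := mem_ball_self one_pos
  -- the points of the chart
  have hV : ∀ z ∈ ball (0 : Fin n → ℂ) 1, c.φ z ∈ VarPts ℂ y := by
    intro z hz
    obtain ⟨h, hh⟩ := c.pt ⟨z, hz⟩
    refine mem_of_mkP ⟨c.φ z, h⟩ ?_
    rw [← hh]
    exact ((c.e ⟨z, hz⟩ : N) : VPts y).2
  have hy0 : y c.i0 ≠ 0 := by
    intro h
    have h1 := (hV 0 h0).2 (X c.i0) ⟨1, isHomogeneous_X ℂ c.i0⟩ (by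
      unfold val
      rw [aeval_X, h])
    unfold val at h1
    rw [aeval_X, c.one 0 h0] at h1
    exact one_ne_zero h1
  -- the normalised generic point
  set y' : Fin (M + 1) → K := (y c.i0)⁻¹ • y with hy'
  have hy'1 : y' c.i0 = 1 := by
    rw [hy', Pi.smul_apply, smul_eq_mul, inv_mul_cancel₀ hy0]
  have haff : ∀ Q : MvPolynomial (Fin (M + 1)) ℂ, aeval y' Q = 0 →
      ∀ z ∈ ball (0 : Fin n → ℂ) 1, eval (c.φ z) Q = 0 := by
    intro Q hQ z hz
    have h1 : val y (hg c.i0 Q) = 0 := by
      have h2 := val_hg c.i0 Q y' hy'1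
      rw [hQ, hy', val_smul' (hg_form c.i0 Q)] at h2
      rcases mul_eq_zero.1 h2 with h3 | h3
      · exact absurd h3 (pow_ne_zero _ (inv_ne_zero hy0))
      · exact h3
    have h2 := (hV z hz).2 (hg c.i0 Q) ⟨_, hg_form c.i0 Q⟩ h1
    rw [val_hg c.i0 Q (c.φ z) (c.one z hz)] at h2
    rw [← h2]
    rfl
  -- polynomials in the coordinates
  have hzero : ∀ P : MvPolynomial (Fin n) ℂ,
      (∀ z ∈ ball (0 : Fin n → ℂ) 1, eval (fun k => c.φ z (c.ix k)) P = 0) → P = 0 := by
    intro P hP
    refine funext_set (fun k => (fun w : ℂ => c.a k + c.r * w) '' ball (0 : ℂ) 1) (fun k => ?_) ?_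
    · refine Set.Infinite.image ?_ ?_
      · intro u _ v _ huv
        have hr0 : (c.r : ℂ) ≠ 0 := by exact_mod_cast c.hr.ne'
        exact mul_left_cancel₀ hr0 (add_left_cancel huv)
      · exact infinite_of_mem_nhds (0 : ℂ) (ball_mem_nhds 0 one_pos)
    · intro x hx
      rw [map_zero]
      choose w hw hwx using fun k => hx k (Set.mem_univ k)
      have hwb : w ∈ ball (0 : Fin n → ℂ) 1 := by
        rw [mem_ball_zero_iff, pi_norm_lt_iff one_pos]
        intro k
        exact mem_ball_zero_iff.1 (hw k)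
      have h1 := hP w hwb
      have h2 : (fun k => c.φ w (c.ix k)) = x := by
        funext k
        rw [c.coord w hwb k]
        exact hwx k
      rwa [h2] at h1
  -- the coordinates are algebraically independent
  set t : Fin n → K := fun k => y' (c.ix k) with ht
  have hre : ∀ P : MvPolynomial (Fin n) ℂ, aeval y' (rename c.ix P) = aeval t P := by
    intro P
    rw [aeval_rename]
    rfl
  have hree : ∀ (P : MvPolynomial (Fin n) ℂ) (z : Fin n → ℂ),
      eval (c.φ z) (rename c.ix P) = eval (fun k => c.φ z (c.ix k)) P := by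
    intro P z
    rw [eval_rename]
    rfl
  have hind : AlgebraicIndependent ℂ t := by
    rw [algebraicIndependent_iff]
    intro P hP
    refine hzero P fun z hz => ?_
    rw [← hree]
    exact haff _ (by rw [hre, hP]) z hz
  have htr : IsTranscendenceBasis ℂ t := by
    refine hind.isTranscendenceBasis_of_trdeg_le ?_ ?_
    · rw [hs.dim]
      exact Cardinal.natCast_lt_aleph0
    · rw [hs.dim]
      simp
  have halg := htr.isAlgebraic
  -- the value of `g`
  have hγ : aeval y' g ≠ 0 := by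
    obtain ⟨d, hd⟩ := hgf
    have h1 := val_smul' hd (y c.i0)⁻¹ y
    unfold val at h1 hgy
    rw [← hy'] at h1
    rw [h1]
    exact mul_ne_zero (pow_ne_zero _ (inv_ne_zero hy0)) hgy
  obtain ⟨p, hp0, hpz⟩ := (halg.isAlgebraic (aeval y' g)).exists_nonzero_coeff_and_aeval_eq_zero
    (mem_nonZeroDivisors_of_ne_zero hγ)
  have hcoef : ∀ j, ∃ C : MvPolynomial (Fin n) ℂ, aeval t C = ((p.coeff j : _) : K) := by
    intro j
    have h2 : ∀ w : K, w ∈ Algebra.adjoin ℂ (Set.range t) →
        ∃ C : MvPolynomial (Fin n) ℂ, aeval t C = w := by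
      intro w hw
      rw [Algebra.adjoin_range_eq_range_aeval] at hw
      exact hw
    exact h2 _ (p.coeff j).2
  choose C hC using hcoef
  have hQ : aeval y' (∑ j ∈ Finset.range (p.natDegree + 1), rename c.ix (C j) * g ^ j) = 0 := by
    rw [map_sum, ← hpz, Polynomial.aeval_eq_sum_range]
    refine Finset.sum_congr rfl fun j _ => ?_
    rw [map_mul, map_pow, hre, hC, Algebra.smul_def]
    rfl
  have hC0 : C 0 = 0 := by
    refine hzero _ fun z hz => ?_
    have h1 := haff _ hQ z hz
    rw [map_sum, Finset.sum_range_succ'] at h1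
    rw [Finset.sum_eq_zero, zero_add, pow_zero, mul_one, hree] at h1
    · exact h1
    · intro j _
      rw [map_mul, map_pow, hcon z hz, pow_succ, mul_zero, mul_zero]
  have h1 := hC 0
  rw [hC0, map_zero] at h1
  exact hp0 (Subtype.ext h1.symm)

end Pool.Agent.NH55.VA
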