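import Pool.Agent.NH55.VA.Stm

/-!
# Maps which are trivial on the small loops

A map `F` on a part `U` of a compact metric space `Y` which is trivial on the small loops is trivial
on the loops of `U` which are null-homotopic in `Y`.
-/

set_option autoImplicit false

open Metric Topology CategoryTheory
open scoped unitInterval

namespace Pool.Agent.NH55.VA.TA

section cat

variable {C : Type} [Category.{0} C]

/-- products along a sequence of arrows -/
def P (o : ℕ → C) (k : ∀ n, o n ⟶ o (n + 1)) : ∀ n, o 0 ⟶ o n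
  | 0 => 𝟙 _
  | n + 1 => P o k n ≫ k n

lemma ladder (o o' : ℕ → C) (k : ∀ n, o n ⟶ o (n + 1)) (l : ∀ n, o' n ⟶ o' (n + 1))
    (r : ∀ n, o n ⟶ o' n) (h : ∀ n, k n ≫ r (n + 1) = r n ≫ l n) (n : ℕ) :
    P o k n ≫ r n = r 0 ≫ P o' l n := by
  induction n with
  | zero => simp [P]
  | succ n ih =>
    simp only [P, Category.assoc, h]
    rw [← Category.assoc, ih, Category.assoc]

end cat

section cls

variable {U X : Type} [TopologicalSpace U] [TopologicalSpace X] (F : C(U, X))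

/-- the object of the fundamental groupoid -/
abbrev ob (u : U) : FundamentalGroupoid X := ⟨F u⟩

/-- the class of the image of a path -/
def cl {a b : U} (γ : Path a b) : ob F a ⟶ ob F b :=
  Path.Homotopic.Quotient.mk (γ.map F.continuous)

lemma cl_eq {a b : U} {γ γ' : Path a b} : cl F γ = cl F γ' ↔ HomIm F γ γ' :=
  Path.Homotopic.Quotient.eq

lemma cl_trans {a b c : U} (γ : Path a b) (γ' : Path b c) :
    cl F (γ.trans γ') = cl F γ ≫ cl F γ' := by
  unfold cl
  rw [Path.map_trans]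
  rfl

lemma cl_refl (a : U) : cl F (Path.refl a) = 𝟙 _ := rfl

lemma cl_hom {a b : U} {γ γ' : Path a b} (h : γ.Homotopic γ') : cl F γ = cl F γ' :=
  (cl_eq F).2 (h.map F)

lemma cl_cast {a b a' b' : U} (γ : Path a b) (h0 : a' = a) (h1 : b' = b) :
    cl F (γ.cast h0 h1) = eqToHom (by rw [h0]) ≫ cl F γ ≫ eqToHom (by rw [h1]) := by
  subst h0 h1
  simp

end cls

section seg

/-- the segment from `a` to `b` -/
theorem seg_path (a b : I) (hab : a ≤ b) : ∃ β : Path a b, ∀ t, β t ∈ Set.Icc a b := by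
  have hm : ∀ t : I, (1 - (t : ℝ)) * a + t * b ∈ Set.Icc (a : ℝ) b := by
    intro t
    have h0 := t.2.1
    have h1 := t.2.2
    have h2 : (a : ℝ) ≤ b := hab
    constructor
    · nlinarith
    · nlinarith
  refine ⟨{ toFun := fun t => ⟨(1 - (t : ℝ)) * a + t * b, le_trans a.2.1 (hm t).1,
              le_trans (hm t).2 b.2.2⟩
            continuous_toFun := by fun_prop
            source' := by
              ext
              simp
            target' := by
              ext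
              simp }, fun t => ⟨(hm t).1, (hm t).2⟩⟩

instance : SimplyConnectedSpace I := by
  have : ContractibleSpace I := (convex_Icc (0 : ℝ) 1).contractibleSpace ⟨0, by simp⟩
  infer_instance

end seg

section main

variable {Y X : Type} [MetricSpace Y] [TopologicalSpace X] {U : Set Y}
  (F : C(U, X))

/-- small sets on which the classes of the paths are determined by the ends -/
def Good (N : Set Y) : Prop :=
  IsPathConnected (N ∩ U) ∧ ∀ (a b : U) (γ γ' : Path a b), (∀ t, (γ t : Y) ∈ N) →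
      (∀ t, (γ' t : Y) ∈ N) → HomIm F γ γ'

/-- the classes of the short paths -/
def Sh (δ : ℝ) (u v : U) (m : ob F u ⟶ ob F v) : Prop :=
  ∃ p : Path u v, (∀ t, dist (p t : Y) u < δ) ∧ cl F p = m

lemma unif [CompactSpace Y] (h : ∀ (y : Y) (ε : ℝ), 0 < ε → ∃ N : Set Y, IsOpen N ∧ y ∈ N ∧ N ⊆ ball y ε ∧ Good F N)
    (ε : ℝ) (hε : 0 < ε) : ∃ δ > 0, ∀ y : Y, ∃ N : Set Y, ball y δ ⊆ N ∧ N ⊆ ball y ε ∧ Good F N := by
  choose N hN1 hN2 hN3 hN4 using fun y : Y => h y (ε / 2) (by linarith)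
  obtain ⟨δ, hδ, hL⟩ := lebesgue_number_lemma_of_metric (isCompact_univ (X := Y)) (c := N) hN1
    (fun y _ => Set.mem_iUnion.2 ⟨y, hN2 y⟩)
  refine ⟨δ, hδ, fun y => ?_⟩
  obtain ⟨z, hz⟩ := hL y (Set.mem_univ y)
  refine ⟨N z, hz, ?_, hN4 z⟩
  have h1 : dist y z < ε / 2 := hN3 z (hz (mem_ball_self hδ))
  intro w hw
  have h2 : dist w z < ε / 2 := hN3 z hw
  rw [mem_ball]
  have := dist_triangle_right w y z
  linarith

lemma path_in {N : Set Y} (hN : IsPathConnected (N ∩ U)) (u v : U) (hu : (u : Y) ∈ N)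
    (hv : (v : Y) ∈ N) : ∃ p : Path u v, ∀ t, (p t : Y) ∈ N := by
  obtain ⟨p, hp⟩ := hN.joinedIn u ⟨hu, u.2⟩ v ⟨hv, v.2⟩
  refine ⟨{ toFun := fun t => ⟨p t, (hp t).2⟩
            continuous_toFun := by
              exact p.continuous.subtype_mk _
            source' := by
              ext
              simp
            target' := by
              ext
              simp }, fun t => (hp t).1⟩

variable {F}

/-- the constants -/
structure Cst (F : C(U, X)) (δ η : ℝ) : Prop where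
  hδ : 0 < δ
  hη : 0 < η
  big : ∀ y : Y, ∃ N : Set Y, ball y δ ⊆ N ∧ Good F N
  small : ∀ y : Y, ∃ N : Set Y, ball y η ⊆ N ∧ N ⊆ ball y (δ / 2) ∧ Good F N

variable {δ η : ℝ}

lemma Cst.le (h : Cst F δ η) {u v : U} (huv : dist (u : Y) v < η) : dist (u : Y) v < δ / 2 := by
  obtain ⟨N, h1, h2, -⟩ := h.small v
  exact h2 (h1 huv)

lemma Cst.ex (h : Cst F δ η) {u v : U} (huv : dist (v : Y) u < η) : ∃ m, Sh F δ u v m := by
  obtain ⟨N, h1, h2, h3⟩ := h.small u
  obtain ⟨p, hp⟩ := path_in h3.1 u v (h1 (mem_ball_self h.hη)) (h1 huv)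
  refine ⟨_, p, fun t => ?_, rfl⟩
  have := h2 (hp t)
  rw [mem_ball] at this
  have := h.hδ
  linarith

lemma Cst.uniq (h : Cst F δ η) {u v : U} {m m' : ob F u ⟶ ob F v} (hm : Sh F δ u v m)
    (hm' : Sh F δ u v m') : m = m' := by
  obtain ⟨N, h1, h2⟩ := h.big u
  obtain ⟨p, hp, rfl⟩ := hm
  obtain ⟨q, hq, rfl⟩ := hm'
  rw [cl_eq]
  exact h2.2 u v p q (fun t => h1 (hp t)) (fun t => h1 (hq t))

lemma Cst.comp (h : Cst F δ η) {u v w : U} (huv : dist (v : Y) u < η) (huw : dist (w : Y) u < η)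
    {m1 : ob F u ⟶ ob F v} {m2 : ob F v ⟶ ob F w} {m3 : ob F u ⟶ ob F w}
    (h1 : Sh F δ u v m1) (h2 : Sh F δ v w m2) (h3 : Sh F δ u w m3) : m1 ≫ m2 = m3 := by
  obtain ⟨N, hN1, hN2, hN3⟩ := h.small u
  have hu : (u : Y) ∈ N := hN1 (mem_ball_self h.hη)
  have hv : (v : Y) ∈ N := hN1 huv
  have hw : (w : Y) ∈ N := hN1 huw
  obtain ⟨p, hp⟩ := path_in hN3.1 u v hu hv
  obtain ⟨q, hq⟩ := path_in hN3.1 v w hv hw
  have hd := h.hδ
  have hp' : ∀ t, dist (p t : Y) u < δ / 2 := fun t => hN2 (hp t)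
  have hq' : ∀ t, dist (q t : Y) u < δ / 2 := fun t => hN2 (hq t)
  have e1 : m1 = cl F p := h.uniq h1 ⟨p, fun t => by linarith [hp' t], rfl⟩
  have e2 : m2 = cl F q := by
    refine h.uniq h2 ⟨q, fun t => ?_, rfl⟩
    have hvu : dist (v : Y) u < δ / 2 := hN2 hv
    have := dist_triangle_right (q t : Y) v u
    linarith [hq' t]
  have e3 : m3 = cl F (p.trans q) := by
    refine h.uniq h3 ⟨p.trans q, fun t => ?_, rfl⟩
    rw [Path.trans_apply]
    split_ifs
    · linarith [hp' (⟨2 * (t : ℝ), by constructor <;> linarith [t.2.1]⟩ : I), hp' ⟨2 * (t : ℝ), by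
        constructor <;> linarith [t.2.1]⟩]
    · linarith [hq' (⟨2 * (t : ℝ) - 1, by constructor <;> linarith [t.2.2]⟩ : I)]
  rw [e1, e2, e3, cl_trans]

/-- paths -/
lemma Cst.path (h : Cst F δ η) (γ : C(I, U)) (t : ℕ → I) (ht : Monotone t)
    (hc : ∀ n, ∀ x ∈ Set.Icc (t n) (t (n + 1)), dist (γ x : Y) (γ (t n)) < δ)
    (k : ∀ n, ob F (γ (t n)) ⟶ ob F (γ (t (n + 1))))
    (hk : ∀ n, Sh F δ (γ (t n)) (γ (t (n + 1))) (k n)) (n : ℕ) (α : Path (t 0) (t n)) :
    cl F (α.map γ.continuous) = P (fun n => ob F (γ (t n))) k n := by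
  induction n with
  | zero =>
    have h1 : α.Homotopic (Path.refl (t 0)) := SimplyConnectedSpace.paths_homotopic _ _
    rw [cl_hom F (h1.map γ)]
    rfl
  | succ n ih =>
    obtain ⟨α1, -⟩ := seg_path (t 0) (t n) (ht (Nat.zero_le _))
    obtain ⟨β, hβ⟩ := seg_path (t n) (t (n + 1)) (ht (Nat.le_succ n))
    have h1 : α.Homotopic (α1.trans β) := SimplyConnectedSpace.paths_homotopic _ _
    have h2 := h1.map γ
    rw [Path.map_trans] at h2
    rw [cl_hom F h2, cl_trans, ih α1]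
    have h3 : cl F (β.map γ.continuous) = k n :=
      h.uniq ⟨β.map γ.continuous, fun x => hc n _ (hβ x), rfl⟩ (hk n)
    rw [h3]
    rfl

lemma sh_eq (h : Cst F δ η) {u v : U} (huv : u = v) : Sh F δ u v (eqToHom (by rw [huv])) := by
  subst huv
  refine ⟨Path.refl u, fun t => ?_, rfl⟩
  simpa using h.hδ

/-- the class of a path from the class of the path on `[t 0, t n]` -/
lemma cl_full {a b : U} (γ : Path a b) (s e : I) (hs : s = 0) (he : e = 1) (α : Path s e)
    (h0 : γ s = a) (h1 : γ e = b) :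
    cl F γ = eqToHom (by rw [h0]) ≫ cl F (α.map γ.continuous) ≫ eqToHom (by rw [h1]) := by
  subst hs he
  have h2 : α.Homotopic (⟨⟨fun t => t, continuous_id⟩, rfl, rfl⟩ : Path (0 : I) 1) :=
    SimplyConnectedSpace.paths_homotopic _ _
  have h3 := h2.map γ.toContinuousMap
  have h4 : cl F (α.map γ.continuous) = cl F (γ.cast γ.source γ.target) := by
    refine (cl_hom F h3).trans ?_
    congr 1
  rw [h4, cl_cast]
  simp

/-- the steps -/
noncomputable def tt (n i : ℕ) : I := Set.projIcc 0 1 zero_le_one ((i : ℝ) / n)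

lemma tt_zero (n : ℕ) : tt n 0 = 0 := by
  unfold tt
  apply Set.projIcc_of_le_left
  simp

lemma tt_one (n : ℕ) (hn : 0 < n) : tt n n = 1 := by
  unfold tt
  apply Set.projIcc_of_right_le
  have : (0 : ℝ) < n := by exact_mod_cast hn
  rw [div_self this.ne']

lemma tt_mono (n : ℕ) : Monotone (tt n) := by
  intro i j hij
  unfold tt
  apply Set.monotone_projIcc
  gcongr

lemma tt_dist (n i : ℕ) (x : I) (hx : x ∈ Set.Icc (tt n i) (tt n (i + 1))) :
    dist x (tt n i) ≤ 1 / n := by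
  have h1 : ((tt n i : I) : ℝ) = max 0 (min 1 ((i : ℝ) / n)) := Set.coe_projIcc _ _ _ _
  have h2 : ((tt n (i + 1) : I) : ℝ) = max 0 (min 1 (((i + 1 : ℕ) : ℝ) / n)) :=
    Set.coe_projIcc _ _ _ _
  have h3 : ((tt n i : I) : ℝ) ≤ x := hx.1
  have h4 : (x : ℝ) ≤ (tt n (i + 1) : I) := hx.2
  rw [Subtype.dist_eq, Real.dist_eq, abs_of_nonneg (by linarith)]
  have h5 : (((i + 1 : ℕ) : ℝ) / n) = (i : ℝ) / n + 1 / n := by push_cast; ring
  have h6 : (0 : ℝ) ≤ 1 / n := by positivity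
  have h7 : (0 : ℝ) ≤ (i : ℝ) / n := by positivity
  rw [h5] at h2
  rw [h2] at h4
  rw [h1] at h3 ⊢
  have h8 : max 0 (min 1 ((i : ℝ) / n + 1 / n)) ≤ max 0 (min 1 ((i : ℝ) / n)) + 1 / n := by
    rcases le_total 1 ((i : ℝ) / n) with h | h
    · rw [min_eq_left h, min_eq_left (by linarith)]
      simp
    · rw [min_eq_right h]
      rw [max_eq_right h7]
      apply max_le (by linarith)
      exact min_le_right _ _
  linarith

lemma row_path (h : Cst F δ η) {a b : U} (g : Path a b) {m : ℕ} (hm0 : 0 < m)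
    (hgd : ∀ i (x : I), x ∈ Set.Icc (tt m i) (tt m (i + 1)) → dist (g x : Y) (g (tt m i)) < δ)
    (w : ℕ → U) (hw : ∀ i, w i = g (tt m i)) (κ : ∀ i, ob F (w i) ⟶ ob F (w (i + 1)))
    (hκ : ∀ i, Sh F δ (w i) (w (i + 1)) (κ i)) (ha : w 0 = a) (hb : w m = b) :
    cl F g = (eqToHom (by rw [ha]) : ob F a ⟶ ob F (w 0)) ≫
      P (fun i => ob F (w i)) κ m ≫ (eqToHom (by rw [hb]) : ob F (w m) ⟶ ob F b) := by
  obtain rfl : w = fun i => g (tt m i) := funext hw
  obtain ⟨α, -⟩ := seg_path (tt m 0) (tt m m) (tt_mono m (Nat.zero_le _))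
  have h1 := h.path g.toContinuousMap (tt m) (tt_mono m) hgd κ hκ m α
  rw [cl_full g (tt m 0) (tt m m) (tt_zero m) (tt_one m hm0) α ha hb]
  exact congrArg (fun z : ob F (g (tt m 0)) ⟶ ob F (g (tt m m)) =>
    (eqToHom (congrArg (ob F) ha.symm) : ob F a ⟶ ob F (g (tt m 0))) ≫ z ≫
      (eqToHom (congrArg (ob F) hb) : ob F (g (tt m m)) ⟶ ob F b)) h1

end main

end Pool.Agent.NH55.VA.TA

namespace Pool.Agent.NH55.VA

open TA

theorem ta : S_ta := by
  intro Y X _ _ _ U F hyp a b γ γ' hH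
  have hyp' : ∀ (y : Y) (ε : ℝ), 0 < ε → ∃ N : Set Y, IsOpen N ∧ y ∈ N ∧ N ⊆ ball y ε ∧ Good F N := by
    intro y ε hε
    obtain ⟨N, h1, h2, h3, h4, h5⟩ := hyp y ε hε
    exact ⟨N, h1, h2, h3, h4, h5⟩
  obtain ⟨δ, hδ, hbig⟩ := unif F hyp' 1 one_pos
  obtain ⟨η, hη, hsmall⟩ := unif F hyp' (δ / 2) (by linarith)
  have hC : Cst F δ η := ⟨hδ, hη, fun y => by
    obtain ⟨N, h1, -, h3⟩ := hbig y
    exact ⟨N, h1, h3⟩, hsmall⟩
  -- density
  have hdense : ∀ (y : Y) (ε : ℝ), 0 < ε → ∃ u : U, dist (u : Y) y < ε := by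
    intro y ε hε
    obtain ⟨N, -, -, h3, h4⟩ := hyp' y ε hε
    obtain ⟨u, hu⟩ := h4.1.nonempty
    exact ⟨⟨u, hu.2⟩, h3 hu.1⟩
  obtain ⟨H⟩ := hH
  -- uniform continuity
  obtain ⟨ρ, hρ1, hρ2, hρ⟩ : ∃ ρ : ℝ, 0 < ρ ∧ 4 * ρ ≤ η ∧ ρ ≤ δ :=
    ⟨min (η / 4) δ, lt_min (by linarith) hδ, by linarith [min_le_left (η / 4) δ], min_le_right _ _⟩
  have huc : UniformContinuous H := CompactSpace.uniformContinuous_of_continuous H.continuous
  obtain ⟨θ, hθ, hθ'⟩ := Metric.uniformContinuous_iff.1 huc ρ hρ1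
  obtain ⟨n, hn⟩ := exists_nat_one_div_lt hθ
  set m : ℕ := n + 1 with hm
  have hm0 : 0 < m := Nat.succ_pos n
  have hm1 : (1 : ℝ) / m < θ := by rw [hm]; push_cast; exact hn
  have hH0 : ∀ x : I, H (0, x) = (γ x : Y) := fun x => H.apply_zero x
  have hH1 : ∀ x : I, H (1, x) = (γ' x : Y) := fun x => H.apply_one x
  have hHa : ∀ x : I, H (x, 0) = (a : Y) := fun x => H.source x
  have hHb : ∀ x : I, H (x, 1) = (b : Y) := fun x => H.target x
  have hnear : ∀ i (x : I), x ∈ Set.Icc (tt m i) (tt m (i + 1)) → dist x (tt m i) < θ :=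
    fun i x hx => (tt_dist m i x hx).trans_lt hm1
  have hstep : ∀ i, dist (tt m (i + 1)) (tt m i) < θ := fun i =>
    hnear i _ ⟨tt_mono m (Nat.le_succ i), le_rfl⟩
  -- the grid
  have hgrid : ∀ j i : ℕ, ∃ x : U, dist (x : Y) (H (tt m j, tt m i)) < ρ ∧
      (j = 0 → x = γ (tt m i)) ∧ (j = m → x = γ' (tt m i)) ∧ (i = 0 → x = a) ∧ (i = m → x = b) := by
    intro j i
    have t0 := tt_zero m
    have t1 := tt_one m hm0
    by_cases hj0 : j = 0
    · subst hj0
      refine ⟨γ (tt m i), ?_, fun _ => rfl, fun h => absurd h hm0.ne, fun h => ?_, fun h => ?_⟩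
      · rw [t0, hH0]; simpa using hρ1
      · rw [h, t0]; exact γ.source
      · rw [h, t1]; exact γ.target
    by_cases hjm : j = m
    · refine ⟨γ' (tt m i), ?_, fun h => absurd h hj0, fun _ => rfl, fun h => ?_, fun h => ?_⟩
      · rw [hjm, t1, hH1]; simpa using hρ1
      · rw [h, t0]; exact γ'.source
      · rw [h, t1]; exact γ'.target
    by_cases hi0 : i = 0
    · refine ⟨a, ?_, fun h => absurd h hj0, fun h => absurd h hjm, fun _ => rfl, fun h => ?_⟩
      · rw [hi0, t0, hHa]; simpa using hρ1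
      · omega
    by_cases him : i = m
    · refine ⟨b, ?_, fun h => absurd h hj0, fun h => absurd h hjm, fun h => absurd h hi0,
        fun _ => rfl⟩
      rw [him, t1, hHb]; simpa using hρ1
    obtain ⟨u, hu⟩ := hdense (H (tt m j, tt m i)) ρ hρ1
    exact ⟨u, hu, fun h => absurd h hj0, fun h => absurd h hjm, fun h => absurd h hi0,
      fun h => absurd h him⟩
  choose u hu1 hu2 hu3 hu4 hu5 using hgrid
  -- distances
  have hHd : ∀ j i j' i' : ℕ, dist (tt m j') (tt m j) < θ → dist (tt m i') (tt m i) < θ →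
      dist (H (tt m j', tt m i')) (H (tt m j, tt m i)) < ρ := by
    intro j i j' i' h1 h2
    apply hθ'
    rw [Prod.dist_eq]
    exact max_lt h1 h2
  have hud : ∀ j i j' i' : ℕ, dist (tt m j') (tt m j) < θ → dist (tt m i') (tt m i) < θ →
      dist (u j' i' : Y) (u j i) < η := by
    intro j i j' i' h1 h2
    have h3 := hHd j i j' i' h1 h2
    have h4 := hu1 j i
    have h5 := hu1 j' i'
    have h6 := dist_triangle (u j' i' : Y) (H (tt m j', tt m i')) (u j i)
    have h7 := dist_triangle (H (tt m j', tt m i')) (H (tt m j, tt m i)) (u j i : Y)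
    rw [dist_comm (u j i : Y)] at h4
    linarith
  have hself : ∀ i, dist (tt m i) (tt m i) < θ := fun i => by simpa using hθ
  -- the horizontal steps
  have hk : ∀ j i : ℕ, ∃ k, Sh F δ (u j i) (u j (i + 1)) k := fun j i =>
    hC.ex (hud j i j (i + 1) (hself j) (hstep i))
  choose k hk using hk
  -- the vertical steps
  have hr : ∀ j i : ℕ, ∃ r, Sh F δ (u j i) (u (j + 1) i) r := fun j i =>
    hC.ex (hud j i (j + 1) i (hstep j) (hself i))
  choose r hr using hr
  have hsq : ∀ j i, k j i ≫ r j (i + 1) = r j i ≫ k (j + 1) i := by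
    intro j i
    have hd := hud j i (j + 1) (i + 1) (hstep j) (hstep i)
    obtain ⟨q, hq⟩ := hC.ex hd
    rw [hC.comp (hud j i j (i + 1) (hself j) (hstep i)) hd (hk j i) (hr j (i + 1)) hq,
      hC.comp (hud j i (j + 1) i (hstep j) (hself i)) hd (hr j i) (hk (j + 1) i) hq]
  have hlad : ∀ j, P (fun i => ob F (u j i)) (k j) m ≫ r j m =
      r j 0 ≫ P (fun i => ob F (u (j + 1) i)) (k (j + 1)) m := fun j =>
    ladder _ _ _ _ (r j) (hsq j) m
  have ha : ∀ j, u j 0 = a := fun j => hu4 j 0 rfl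
  have hb : ∀ j, u j m = b := fun j => hu5 j m rfl
  -- the class of the row
  have hrow : ∀ j, (eqToHom (by rw [ha j]) : ob F a ⟶ ob F (u j 0)) ≫
      P (fun i => ob F (u j i)) (k j) m ≫ (eqToHom (by rw [hb j]) : ob F (u j m) ⟶ ob F b) =
      (eqToHom (by rw [ha 0]) : ob F a ⟶ ob F (u 0 0)) ≫
      P (fun i => ob F (u 0 i)) (k 0) m ≫ (eqToHom (by rw [hb 0]) : ob F (u 0 m) ⟶ ob F b) := by
    intro j
    induction j with
    | zero => rfl
    | succ j ih =>
      rw [← ih]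
      have e1 : r j 0 = eqToHom (by rw [ha j, ha (j + 1)]) :=
        hC.uniq (hr j 0) (sh_eq hC (by rw [ha j, ha (j + 1)]))
      have e2 : r j m = eqToHom (by rw [hb j, hb (j + 1)]) :=
        hC.uniq (hr j m) (sh_eq hC (by rw [hb j, hb (j + 1)]))
      have h1 := hlad j
      rw [e1, e2] at h1
      have h2 : P (fun i => ob F (u j i)) (k j) m = eqToHom (by rw [ha j, ha (j + 1)]) ≫
          P (fun i => ob F (u (j + 1) i)) (k (j + 1)) m ≫ eqToHom (by rw [hb j, hb (j + 1)]) := by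
        rw [← Category.assoc, ← h1, Category.assoc, eqToHom_trans, eqToHom_refl, Category.comp_id]
      rw [h2]
      simp only [Category.assoc, eqToHom_trans, eqToHom_trans_assoc]
  -- the two paths
  have hpath : ∀ (j : ℕ) (g : Path a b), (∀ i, u j i = g (tt m i)) →
      (∀ i (x : I), x ∈ Set.Icc (tt m i) (tt m (i + 1)) → dist (g x : Y) (g (tt m i)) < δ) →
      cl F g = (eqToHom (by rw [ha j]) : ob F a ⟶ ob F (u j 0)) ≫
      P (fun i => ob F (u j i)) (k j) m ≫ (eqToHom (by rw [hb j]) : ob F (u j m) ⟶ ob F b) := by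
    intro j g hg hgd
    exact row_path hC g hm0 hgd (u j) hg (k j) (hk j) (ha j) (hb j)
  have hγd : ∀ i (x : I), x ∈ Set.Icc (tt m i) (tt m (i + 1)) → dist (γ x : Y) (γ (tt m i)) < δ := by
    intro i x hx
    rw [← hH0, ← hH0]
    refine lt_of_lt_of_le (hθ' ?_) hρ
    rw [Prod.dist_eq]
    exact max_lt (by simpa using hθ) (hnear i x hx)
  have hγd' : ∀ i (x : I), x ∈ Set.Icc (tt m i) (tt m (i + 1)) →
      dist (γ' x : Y) (γ' (tt m i)) < δ := by
    intro i x hx
    rw [← hH1, ← hH1]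
    refine lt_of_lt_of_le (hθ' ?_) hρ
    rw [Prod.dist_eq]
    exact max_lt (by simpa using hθ) (hnear i x hx)
  have f0 := hpath 0 γ (fun i => hu2 0 i rfl) hγd
  have f1 := hpath m γ' (fun i => hu3 m i rfl) hγd'
  rw [← cl_eq, f0, f1, hrow m]

end Pool.Agent.NH55.VA
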