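import Pool.Agent.NH55.VA.Stm
import Pool.Agent.TH710.SP.Pi1

/-!
Moving paths into a subset.
-/

set_option autoImplicit false

open Metric Topology
open scoped unitInterval

namespace Pool.Agent.NH55.VA

namespace TB

variable {X : Type} [MetricSpace X]

/-- the good open sets -/
structure Good (V : Set X) (N : Set X) : Prop where
  op : IsOpen N
  pc : IsPathConnected N
  pcV : IsPathConnected (N ∩ V)
  hom : ∀ (a b : X) (γ γ' : Path a b), (∀ t, γ t ∈ N) → (∀ t, γ' t ∈ N) → γ.Homotopic γ'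

theorem lift_path {V N : Set X} (v w : V) (h : JoinedIn (N ∩ V) (v : X) (w : X)) :
    ∃ η : Path v w, ∀ t, ((η.map continuous_subtype_val) t) ∈ N := by
  obtain ⟨η, hη⟩ := h
  exact ⟨{ toFun := fun t => ⟨η t, (hη t).2⟩
           continuous_toFun := η.continuous.subtype_mk _
           source' := Subtype.ext η.source
           target' := Subtype.ext η.target }, fun t => (hη t).1⟩

theorem main {V : Set X} (hb : ∀ (x : X) (W : Set X), IsOpen W → x ∈ W →
      ∃ N, Good V N ∧ x ∈ N ∧ N ⊆ W) (g : C(I, X)) (h0 : g 0 ∈ V) (h1 : g 1 ∈ V)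
    (α : Path (0 : I) 1) : ∃ γ' : Path (⟨g 0, h0⟩ : V) ⟨g 1, h1⟩,
      (α.map g.continuous).Homotopic (γ'.map continuous_subtype_val) := by
  classical
  obtain ⟨t, ht0, htm, ⟨M, hM⟩, ht⟩ := exists_monotone_Icc_subset_open_cover_unitInterval
    (c := fun N : {N : Set X // Good V N} => g ⁻¹' N.1)
    (fun N => N.2.op.preimage g.continuous) (by
      intro u _
      obtain ⟨N, hN, hxN, -⟩ := hb (g u) Set.univ isOpen_univ trivial
      exact Set.mem_iUnion.2 ⟨⟨N, hN⟩, hxN⟩)
  have claim : ∀ n, ∀ s : I, t n = s → ∀ N : Set X, Good V N → g s ∈ N → ∀ v : V, (v : X) ∈ N →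
      ∀ β : Path (g s) (v : X), (∀ u, β u ∈ N) → ∀ α : Path (0 : I) s,
      ∃ γ' : Path (⟨g 0, h0⟩ : V) v,
        ((α.map g.continuous).trans β).Homotopic (γ'.map continuous_subtype_val) := by
    intro n
    induction n with
    | zero =>
      intro s hs N hN hgs v hv β hβ α
      rw [ht0] at hs
      subst hs
      obtain ⟨η, hη⟩ := lift_path (N := N) (⟨g 0, h0⟩ : V) v
        (hN.pcV.joinedIn _ ⟨hgs, h0⟩ _ ⟨hv, v.2⟩)
      refine ⟨η, ?_⟩
      have e1 : α.Homotopic (Path.refl 0) := SimplyConnectedSpace.paths_homotopic _ _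
      have e2 := e1.map g
      have e3 : ((α.map g.continuous).trans β).Homotopic ((Path.refl (g 0)).trans β) :=
        e2.hcomp (Path.Homotopic.refl β)
      have e4 : ((Path.refl (g 0)).trans β).Homotopic β := ⟨Path.Homotopy.reflTrans β⟩
      exact (e3.trans e4).trans (hN.hom _ _ _ _ hβ hη)
    | succ n ih =>
      intro s hs N hN hgs v hv β hβ α
      subst hs
      obtain ⟨⟨N1, hN1⟩, hi1⟩ := ht n
      obtain ⟨α1, -⟩ := TH710.SP.seg_path 0 (t n) (by
        rw [← ht0]
        exact htm (Nat.zero_le _))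
      obtain ⟨β0, hβ0⟩ := TH710.SP.seg_path (t n) (t (n + 1)) (htm (Nat.le_succ n))
      have hmem1 : g (t n) ∈ N1 := hi1 ⟨le_rfl, htm (Nat.le_succ n)⟩
      have hmem2 : g (t (n + 1)) ∈ N1 := hi1 ⟨htm (Nat.le_succ n), le_rfl⟩
      obtain ⟨N', hN', hgN', hN's⟩ := hb (g (t (n + 1))) (N ∩ N1) (hN.op.inter hN1.op)
        ⟨hgs, hmem2⟩
      obtain ⟨w, hw⟩ := hN'.pcV.nonempty
      obtain ⟨δ, hδ⟩ := hN'.pc.joinedIn _ hgN' _ hw.1
      obtain ⟨γ'', hγ''⟩ := ih (t n) rfl N1 hN1 hmem1 ⟨w, hw.2⟩ (hN's hw.1).2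
        ((β0.map g.continuous).trans δ) (by
          intro u
          rw [Path.trans_apply]
          split_ifs
          · exact hi1 (hβ0 _)
          · exact (hN's (hδ _)).2) α1
      obtain ⟨η, hη⟩ := lift_path (N := N) (⟨w, hw.2⟩ : V) v
        (hN.pcV.joinedIn _ ⟨(hN's hw.1).1, hw.2⟩ _ ⟨hv, v.2⟩)
      refine ⟨γ''.trans η, ?_⟩
      rw [Path.map_trans]
      have e1 : α.Homotopic (α1.trans β0) := SimplyConnectedSpace.paths_homotopic _ _
      have e2 := e1.map g
      rw [Path.map_trans] at e2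
      have e3 : β.Homotopic (δ.trans (η.map continuous_subtype_val)) := by
        refine hN.hom _ _ _ _ hβ ?_
        intro u
        rw [Path.trans_apply]
        split_ifs
        · exact (hN's (hδ _)).1
        · exact hη _
      have e4 := e2.hcomp e3
      refine e4.trans ?_
      set A := α1.map g.continuous
      set B := β0.map g.continuous
      set E := η.map continuous_subtype_val
      have f1 : ((A.trans B).trans (δ.trans E)).Homotopic (A.trans (B.trans (δ.trans E))) :=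
        ⟨Path.Homotopy.transAssoc _ _ _⟩
      have f2 : (A.trans (B.trans (δ.trans E))).Homotopic (A.trans ((B.trans δ).trans E)) :=
        (Path.Homotopic.refl A).hcomp ⟨(Path.Homotopy.transAssoc _ _ _).symm⟩
      have f3 : (A.trans ((B.trans δ).trans E)).Homotopic ((A.trans (B.trans δ)).trans E) :=
        ⟨(Path.Homotopy.transAssoc _ _ _).symm⟩
      exact ((f1.trans f2).trans f3).trans (hγ''.hcomp (Path.Homotopic.refl E))
  obtain ⟨N, hN, hgN, -⟩ := hb (g 1) Set.univ isOpen_univ trivial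
  obtain ⟨γ', hγ'⟩ := claim M 1 (hM M le_rfl) N hN hgN ⟨g 1, h1⟩ hgN (Path.refl (g 1))
    (fun _ => hgN) α
  have e1 : (α.map g.continuous).Homotopic ((α.map g.continuous).trans (Path.refl (g 1))) :=
    ⟨(Path.Homotopy.transRefl _).symm⟩
  exact ⟨γ', e1.trans hγ'⟩

end TB

theorem tb : S_tb := by
  intro X _ _ V hX a b γ
  have hb : ∀ (x : X) (W : Set X), IsOpen W → x ∈ W → ∃ N, TB.Good V N ∧ x ∈ N ∧ N ⊆ W := by
    intro x W hW hx
    obtain ⟨ε, hε, hεW⟩ := Metric.isOpen_iff.1 hW x hx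
    obtain ⟨N, h1, h2, h3, h4, h5, h6⟩ := hX x ε hε
    exact ⟨N, ⟨h1, h4, h5, h6⟩, h2, h3.trans hεW⟩
  let α : Path (0 : I) 1 :=
    { toFun := fun t => t, continuous_toFun := continuous_id, source' := rfl, target' := rfl }
  have e0 : γ.toContinuousMap 0 = a := γ.source
  have e1 : γ.toContinuousMap 1 = b := γ.target
  obtain ⟨γ', hγ'⟩ := TB.main hb γ.toContinuousMap (by rw [e0]; exact a.2)
    (by rw [e1]; exact b.2) α
  refine ⟨γ'.cast (Subtype.ext e0.symm) (Subtype.ext e1.symm), ?_⟩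
  have h2 := hγ'.pathCast e0.symm e1.symm
  exact h2

end Pool.Agent.NH55.VA
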