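import Pool.Agent.NH55.VA.Asm
import Pool.Agent.NH55.VA.BaseB
import Pool.Agent.NH55.VA.TA
import Pool.Agent.NH55.VA.TB
import Pool.Agent.NH55.VA.Grp
import Pool.Agent.NH55.VA.Loc
import Pool.Agent.NH55.VA.Ch
import Pool.Agent.NH55.VA.Nz
import Pool.Agent.NH55.VA.Cov
import Pool.Agent.NH55.VA.Alg

/-!
# Dominated varieties
-/

set_option autoImplicit false

open FF MvPolynomial Metric Topology Pool.Agent.W602.GT Pool.Agent.TH710.SP
open scoped unitInterval

namespace Pool.Agent.NH55.VA

/-- The variety of dimension `n` with the function field `K` is dominated by a smooth projective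
variety of dimension `n` with virtually abelian fundamental group. -/
def VADom (n : ℕ) (K : Type) [Field K] [Algebra ℂ K] : Prop :=
  ∃ (E : Type) (_ : Field E) (_ : Algebra ℂ E) (M : ℕ) (y : Fin (M + 1) → E), SmoothProj n y ∧
    (∀ p : VPts y, VirtAb (FundamentalGroup (VPts y) p)) ∧ Nonempty (K →ₐ[ℂ] E)

/-- the property `VADom` passes to subfields -/
theorem va_descends (n : ℕ) (K : Type) [Field K] [Algebra ℂ K] (L : Type) [Field L] [Algebra ℂ L]
    [Algebra L K] [IsScalarTower ℂ L K] (h : VADom n K) : VADom n L := by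
  obtain ⟨E, i1, i2, M, y, h1, h2, ⟨φ⟩⟩ := h
  exact ⟨E, i1, i2, M, y, h1, h2, ⟨φ.comp (IsScalarTower.toAlgHom ℂ L K)⟩⟩

/-- **Fundamental groups and dominant rational maps**, for an embedding of the function fields -/
theorem pi1_embed {L E : Type} [Field L] [Algebra ℂ L] [Field E] [Algebra ℂ E]
    {n M M' : ℕ} {x : Fin (M + 1) → L} {y : Fin (M' + 1) → E} (hx : SmoothProj n x)
    (hy : SmoothProj n y) (φ : L →ₐ[ℂ] E) :
    ((∀ p : VPts y, VirtAb (FundamentalGroup (VPts y) p)) →
      ∀ p : VPts x, VirtAb (FundamentalGroup (VPts x) p)) ∧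
    ((∀ p : VPts y, Subsingleton (FundamentalGroup (VPts y) p)) →
      ∀ p : VPts x, Finite (FundamentalGroup (VPts x) p)) ∧
    ((∀ p : VPts y, Subsingleton (FundamentalGroup (VPts y) p)) → Function.Surjective φ →
      ∀ p : VPts x, Subsingleton (FundamentalGroup (VPts x) p)) ∧
    (PathConnectedSpace (VPts y) → PathConnectedSpace (VPts x)) := by
  let _ : Algebra L E := φ.toRingHom.toAlgebra
  have : IsScalarTower ℂ L E := IsScalarTower.of_algebraMap_eq fun c => (φ.commutes c).symm
  have : FiniteDimensional L E := finite_embed hx.dim hy.dim (finite_ratios y) hy.gen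
  exact pi1_dominated ta tb grp conn loc ext_ cp (ch cp) nz alg (cov cp) hx hy

/-- smooth projective varieties with the property `VADom` have virtually abelian fundamental
groups -/
theorem va_of_dom {L : Type} [Field L] [Algebra ℂ L] {n M : ℕ}
    {x : Fin (M + 1) → L} (hx : SmoothProj n x) (h : VADom n L) (p : VPts x) :
    VirtAb (FundamentalGroup (VPts x) p) := by
  obtain ⟨E, i1, i2, M', y, h1, h2, ⟨φ⟩⟩ := h
  exact (pi1_embed hx h1 φ).1 h2 p

theorem subsingleton_ptP (n : ℕ) (p : VPts (ptP n)) :
    Subsingleton (FundamentalGroup (VPts (ptP n)) p) := by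
  have := simply_ptP n
  infer_instance

theorem virtAb_of_subsingleton {G : Type} [Group G] (h : Subsingleton G) : VirtAb G :=
  ⟨⊤, inferInstance, fun _ _ _ _ => Subsingleton.elim _ _⟩

theorem virtAb_of_finite {G : Type} [Group G] (h : Finite G) : VirtAb G :=
  ⟨⊥, inferInstance, fun a ha b hb => by
    rw [Subgroup.mem_bot] at ha hb
    rw [ha, hb]⟩

/-- unirational varieties have the property `VADom` -/
theorem va_of_unirational {n : ℕ} {L : Type} [Field L] [Algebra ℂ L]
    (φ : L →ₐ[ℂ] FractionRing (MvPolynomial (Fin n) ℂ)) : VADom n L :=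
  ⟨_, inferInstance, inferInstance, n, ptP n, smooth_ptP n,
    fun p => virtAb_of_subsingleton (subsingleton_ptP n p), ⟨φ⟩⟩

/-- the fundamental group of a unirational smooth projective variety is finite -/
theorem finite_of_unirational {n M : ℕ} {L : Type} [Field L] [Algebra ℂ L]
    {x : Fin (M + 1) → L} (hx : SmoothProj n x)
    (φ : L →ₐ[ℂ] FractionRing (MvPolynomial (Fin n) ℂ)) :
    PathConnectedSpace (VPts x) ∧ ∀ p : VPts x, Finite (FundamentalGroup (VPts x) p) := by
  have h1 := simply_ptP n
  have h2 := pi1_embed hx (smooth_ptP n) φ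
  exact ⟨h2.2.2.2 inferInstance, h2.2.1 (subsingleton_ptP n)⟩

/-- rational smooth projective varieties are simply connected -/
theorem simply_of_rational {n M : ℕ} {L : Type} [Field L] [Algebra ℂ L]
    {x : Fin (M + 1) → L} (hx : SmoothProj n x)
    (φ : L →ₐ[ℂ] FractionRing (MvPolynomial (Fin n) ℂ)) (hφ : Function.Surjective φ) :
    SimplyConnectedSpace (VPts x) := by
  have h1 := simply_ptP n
  have h2 := pi1_embed hx (smooth_ptP n) φ
  have h3 : PathConnectedSpace (VPts x) := h2.2.2.2 inferInstance
  have h4 := h2.2.2.1 (subsingleton_ptP n) hφ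
  rw [simply_connected_iff_loops_nullhomotopic]
  refine ⟨h3, fun p γ => ?_⟩
  have h5 := h4 p
  apply Path.Homotopic.Quotient.exact
  exact h5.elim (FundamentalGroup.fromPath (Path.Homotopic.Quotient.mk γ))
    (FundamentalGroup.fromPath (Path.Homotopic.Quotient.mk (Path.refl p)))

end Pool.Agent.NH55.VA
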