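import Pool.Agent.NH55.VA.Stm

/-!
# The topology of the projective space, extension of holomorphic maps from plane domains
-/

set_option autoImplicit false

open FF MvPolynomial Metric Topology Pool.Agent.W602.GT Pool.Agent.TH710.SP

namespace Pool.Agent.NH55.VA.Ext

variable {n : ℕ}

abbrev NV (n : ℕ) : Type := {x : Fin (n + 1) → ℂ // x ≠ 0}

theorem mk_eq {x y : NV n} :
    mkP x = mkP y ↔ ∃ c : ℂ, c ≠ 0 ∧ x.1 = c • y.1 := by
  refine (Projectivization.mk_eq_mk_iff' ℂ x.1 y.1 x.2 y.2).trans ?_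
  constructor
  · rintro ⟨c, hc⟩
    refine ⟨c, ?_, hc.symm⟩
    rintro rfl
    apply x.2
    rw [← hc, zero_smul]
  · rintro ⟨c, -, hc⟩
    exact ⟨c, hc.symm⟩

theorem mk_cont : Continuous (mkP (n := n)) := continuous_coinduced_rng

theorem mk_surj : Function.Surjective (mkP (n := n)) := by
  intro p
  induction p using Projectivization.ind with
  | h v hv => exact ⟨⟨v, hv⟩, rfl⟩

theorem mk_open : IsOpenMap (mkP (n := n)) := by
  intro U hU
  rw [isOpen_coinduced]
  have h1 : mkP ⁻¹' (mkP '' U) = ⋃ c : ℂˣ, (fun x : NV n =>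
      (⟨(c : ℂ) • x.1, smul_ne_zero c.ne_zero x.2⟩ : NV n)) ⁻¹' U := by
    ext x
    simp only [Set.mem_preimage, Set.mem_image, Set.mem_iUnion]
    constructor
    · rintro ⟨z, hz, h⟩
      obtain ⟨c, hc, h'⟩ := mk_eq.1 h
      refine ⟨Units.mk0 c hc, ?_⟩
      convert hz using 1
      exact Subtype.ext h'.symm
    · rintro ⟨c, hc⟩
      exact ⟨_, hc, mk_eq.2 ⟨c, c.ne_zero, rfl⟩⟩
  rw [h1]
  refine isOpen_iUnion fun c => hU.preimage ?_
  exact Continuous.subtype_mk (by fun_prop) _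

theorem mk_oq : IsOpenQuotientMap (mkP (n := n)) :=
  ⟨mk_surj, mk_cont, mk_open⟩

/-- the sum of the squares of the absolute values of the coordinates -/
noncomputable def nn (x : Fin (n + 1) → ℂ) : ℝ := ∑ k, ‖x k‖ ^ 2

theorem nn_pos (x : NV n) : 0 < nn x.1 := by
  have h : ∃ k, x.1 k ≠ 0 := by
    by_contra h
    push Not at h
    exact x.2 (funext h)
  obtain ⟨k, hk⟩ := h
  exact Finset.sum_pos' (fun i _ => by positivity) ⟨k, Finset.mem_univ _, by positivity⟩

theorem nn_smul (c : ℂ) (x : Fin (n + 1) → ℂ) : nn (c • x) = ‖c‖ ^ 2 * nn x := by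
  unfold nn
  rw [Finset.mul_sum]
  refine Finset.sum_congr rfl fun k _ => ?_
  rw [Pi.smul_apply, smul_eq_mul, norm_mul, mul_pow]

/-- the projector -/
noncomputable def gg (x : NV n) : Fin (n + 1) → Fin (n + 1) → ℂ :=
  fun i j => x.1 i * (starRingEnd ℂ) (x.1 j) / (nn x.1 : ℂ)

theorem gg_cont : Continuous (gg (n := n)) := by
  refine continuous_pi fun i => continuous_pi fun j => ?_
  unfold gg
  refine Continuous.div ?_ ?_ fun x => ?_
  · exact ((continuous_apply i).comp continuous_subtype_val).mul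
      (Complex.continuous_conj.comp ((continuous_apply j).comp continuous_subtype_val))
  · unfold nn
    refine Complex.continuous_ofReal.comp (continuous_finsetSum _ fun k _ => ?_)
    exact (((continuous_apply k).comp continuous_subtype_val).norm).pow 2
  · exact_mod_cast (nn_pos x).ne'

theorem gg_eq {x y : NV n} : gg x = gg y ↔ mkP x = mkP y := by
  rw [mk_eq]
  have hx := nn_pos x
  have hy := nn_pos y
  have hx' : (nn x.1 : ℂ) ≠ 0 := by exact_mod_cast hx.ne'
  have hy' : (nn y.1 : ℂ) ≠ 0 := by exact_mod_cast hy.ne'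
  constructor
  · intro h
    have h1 : ∀ i j, x.1 i * (starRingEnd ℂ) (x.1 j) / (nn x.1 : ℂ) =
        y.1 i * (starRingEnd ℂ) (y.1 j) / (nn y.1 : ℂ) := fun i j => congrFun (congrFun h i) j
    obtain ⟨k, hk⟩ : ∃ k, y.1 k ≠ 0 := by
      by_contra h
      push Not at h
      exact y.2 (funext h)
    have hk' : (starRingEnd ℂ) (y.1 k) ≠ 0 := by
      rwa [map_ne_zero]
    have hxk : (starRingEnd ℂ) (x.1 k) ≠ 0 := by
      intro h0
      have h2 := h1 k k
      rw [h0, mul_zero, zero_div, eq_comm, div_eq_zero_iff] at h2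
      rcases h2 with h2 | h2
      · exact (mul_ne_zero hk hk') h2
      · exact hy' h2
    refine ⟨(nn x.1 : ℂ) / (starRingEnd ℂ) (x.1 k) * ((starRingEnd ℂ) (y.1 k) / (nn y.1 : ℂ)), ?_, ?_⟩
    · positivity
    · funext i
      rw [Pi.smul_apply, smul_eq_mul]
      have h2 := h1 i k
      rw [div_eq_div_iff hx' hy'] at h2
      field_simp
      linear_combination h2
  · rintro ⟨c, hc, h⟩
    funext i j
    unfold gg
    rw [h, nn_smul, Pi.smul_apply, Pi.smul_apply, smul_eq_mul, smul_eq_mul, map_mul]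
    have e : ((‖c‖ ^ 2 * nn y.1 : ℝ) : ℂ) = (c * (starRingEnd ℂ) c) * (nn y.1 : ℂ) := by
      rw [Complex.mul_conj, Complex.normSq_eq_norm_sq]
      push_cast
      ring
    rw [e]
    have hc' : (starRingEnd ℂ) c ≠ 0 := by rwa [map_ne_zero]
    rw [show c * y.1 i * ((starRingEnd ℂ) c * (starRingEnd ℂ) (y.1 j)) =
      (c * (starRingEnd ℂ) c) * (y.1 i * (starRingEnd ℂ) (y.1 j)) by ring,
      mul_div_mul_left _ _ (mul_ne_zero hc hc')]

/-- the embedding of the projective space -/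
noncomputable def emb (p : CP n) : Fin (n + 1) → Fin (n + 1) → ℂ := gg (mk_surj p).choose

theorem emb_mk (x : NV n) : emb (mkP x) = gg x := gg_eq.2 (mk_surj (mkP x)).choose_spec

theorem emb_cont : Continuous (emb (n := n)) := by
  refine continuous_coinduced_dom.2 ?_
  have : emb ∘ mkP (n := n) = gg := funext emb_mk
  rw [this]
  exact gg_cont

theorem emb_inj : Function.Injective (emb (n := n)) := by
  intro p q h
  obtain ⟨x, rfl⟩ := mk_surj p
  obtain ⟨y, rfl⟩ := mk_surj q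
  rw [emb_mk, emb_mk] at h
  exact gg_eq.1 h

instance t2 : T2Space (CP n) := T2Space.of_injective_continuous emb_inj emb_cont

instance cpt : CompactSpace (CP n) := by
  have hs : ∀ x : sphere (0 : Fin (n + 1) → ℂ) 1, x.1 ≠ 0 := by
    intro x h0
    have h1 := x.2
    rw [mem_sphere_zero_iff_norm, h0, norm_zero] at h1
    exact zero_ne_one h1
  have hcs : CompactSpace (sphere (0 : Fin (n + 1) → ℂ) 1) :=
    isCompact_iff_compactSpace.1 (isCompact_sphere _ _)
  have hc : Continuous fun x : sphere (0 : Fin (n + 1) → ℂ) 1 => mkP ⟨x.1, hs x⟩ :=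
    mk_cont.comp (continuous_subtype_val.subtype_mk _)
  have hsur : Function.Surjective fun x : sphere (0 : Fin (n + 1) → ℂ) 1 => mkP ⟨x.1, hs x⟩ := by
    intro p
    obtain ⟨x, rfl⟩ := mk_surj p
    have hn : ‖x.1‖ ≠ 0 := norm_ne_zero_iff.2 x.2
    have hn' : ((‖x.1‖ : ℝ) : ℂ) ≠ 0 := by exact_mod_cast hn
    refine ⟨⟨((‖x.1‖ : ℝ) : ℂ)⁻¹ • x.1, ?_⟩, ?_⟩
    · rw [mem_sphere_zero_iff_norm, norm_smul, norm_inv, Complex.norm_real, norm_norm,
        inv_mul_cancel₀ hn]
    · exact mk_eq.2 ⟨((‖x.1‖ : ℝ) : ℂ)⁻¹, inv_ne_zero hn', rfl⟩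
  exact ⟨by rw [← hsur.range_eq]; exact isCompact_range hc⟩

theorem metr : TopologicalSpace.MetrizableSpace (CP n) :=
  (emb_cont.isClosedEmbedding emb_inj).isEmbedding.metrizableSpace

theorem val_smul (c : ℂ) (x : Fin (n + 1) → ℂ) {G : MvPolynomial (Fin (n + 1)) ℂ} {d : ℕ}
    (hG : G.IsHomogeneous d) : val (c • x) G = c ^ d * val x G := by
  unfold val
  rw [MvPolynomial.aeval_def, MvPolynomial.aeval_def, Algebra.algebraMap_self]
  change eval (c • x) G = c ^ d * eval x G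
  rw [eval_eq, eval_eq, Finset.mul_sum]
  refine Finset.sum_congr rfl fun m hm => ?_
  have hdeg : ∑ i ∈ m.support, m i = d := by
    have := hG.degree_eq_sum_deg_support hm
    rw [this]
  simp only [Pi.smul_apply, smul_eq_mul, mul_pow, Finset.prod_mul_distrib, Finset.prod_pow_eq_pow_sum]
  rw [hdeg]
  ring

theorem closed {K : Type} [Field K] [Algebra ℂ K] (y : Fin (n + 1) → K) : IsClosed (VPts y) := by
  rw [isClosed_coinduced]
  have e : mkP ⁻¹' (VPts y) = {x : NV n | ∀ G : MvPolynomial (Fin (n + 1)) ℂ, IsForm G →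
      val y G = 0 → val x.1 G = 0} := by
    ext x
    constructor
    · rintro ⟨z, hz, hz'⟩ G hG hyG
      obtain ⟨c, hc, h⟩ := mk_eq.1 hz.symm
      obtain ⟨d, hd⟩ := hG
      rw [h, val_smul c _ hd, hz'.2 G ⟨d, hd⟩ hyG, mul_zero]
    · intro hx
      exact ⟨x, rfl, x.2, hx⟩
  rw [e]
  simp only [Set.ofPred_forall]
  refine isClosed_iInter fun G => isClosed_iInter fun _ => isClosed_iInter fun _ => ?_
  refine isClosed_eq ?_ continuous_const
  unfold val
  have h1 : Continuous fun x : Fin (n + 1) → ℂ => eval x G := MvPolynomial.continuous_eval G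
  exact h1.comp continuous_subtype_val

open Filter in
theorem ext_aux (M : ℕ) (D : Set ℂ) (f : ℂ → Fin (M + 1) → ℂ) (hD : IsOpen D) (hc : Convex ℝ D)
    (hf : DifferentiableOn ℂ f D) (h0 : ∃ l ∈ D, f l ≠ 0) :
    ∃ Φ : ℂ → CP M, ContinuousOn Φ D ∧ (∀ (l : ℂ) (h : f l ≠ 0), l ∈ D → Φ l = mkP ⟨f l, h⟩) ∧
    D ⊆ closure {l | l ∈ D ∧ f l ≠ 0} := by
  classical
  obtain ⟨l0, hl0, hfl0⟩ := h0
  have hA : AnalyticOnNhd ℂ f D := hf.analyticOnNhd hD
  have hnz : ∀ l ∈ D, ¬ ∀ᶠ z in 𝓝 l, f z = 0 := by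
    intro l hl h
    exact hfl0 (hA.eqOn_zero_of_preconnected_of_eventuallyEq_zero hc.isPreconnected hl h hl0)
  have hex : ∀ l : ℂ, ∃ (k : ℕ) (g : ℂ → Fin (M + 1) → ℂ), g l ≠ 0 ∧ (l ∈ D → AnalyticAt ℂ g l ∧
      ∀ᶠ z in 𝓝 l, f z = (z - l) ^ k • g z) := by
    intro l
    by_cases hl : l ∈ D
    · obtain ⟨k, g, h1, h2, h3⟩ := (hA l hl).exists_eventuallyEq_pow_smul_nonzero_iff.2 (hnz l hl)
      exact ⟨k, g, h2, fun _ => ⟨h1, h3⟩⟩
    · exact ⟨0, fun _ => f l0, hfl0, fun h => absurd h hl⟩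
  choose k g hg hkg using hex
  obtain ⟨Φ, hΦ⟩ : ∃ Φ : ℂ → CP M, ∀ l, Φ l = mkP ⟨g l l, hg l⟩ := ⟨_, fun _ => rfl⟩
  have hval : ∀ (l : ℂ) (h : f l ≠ 0), l ∈ D → Φ l = mkP ⟨f l, h⟩ := by
    intro l h hl
    have h1 := (hkg l hl).2.self_of_nhds
    rw [sub_self] at h1
    have h2 : k l = 0 := by
      by_contra hk
      rw [zero_pow hk, zero_smul] at h1
      exact h h1
    rw [h2, pow_zero, one_smul] at h1
    rw [hΦ]
    congr 1
    exact Subtype.ext h1.symm
  refine ⟨Φ, ?_, hval, ?_⟩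
  · intro l hl
    apply ContinuousAt.continuousWithinAt
    have hgc : ContinuousAt (g l) l := (hkg l hl).1.continuousAt
    have hgn : ∀ᶠ z in 𝓝 l, g l z ≠ 0 := hgc.eventually_ne (hg l)
    let w : ℂ → NV M := fun z => ⟨if g l z ≠ 0 then g l z else g l l, by
      split_ifs with h
      · exact h
      · exact hg l⟩
    have hw : ContinuousAt w l := by
      refine tendsto_subtype_rng.2 ?_
      have h5 : ContinuousAt (fun z => (w z).1) l := by
        refine hgc.congr ?_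
        filter_upwards [hgn] with z hz
        simp only [w]
        rw [if_pos hz]
      exact h5
    have h1 : ContinuousAt (mkP ∘ w) l := mk_cont.continuousAt.comp hw
    refine h1.congr ?_
    filter_upwards [hgn, (hkg l hl).2, hD.mem_nhds hl] with z hz1 hz2 hz3
    simp only [Function.comp_apply]
    by_cases hzl : z = l
    · rw [hzl, hΦ]
      congr 1
      apply Subtype.ext
      show (if g l l ≠ 0 then g l l else g l l) = g l l
      split_ifs <;> rfl
    · have h2 : f z ≠ 0 := by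
        rw [hz2]
        exact smul_ne_zero (pow_ne_zero _ (sub_ne_zero.2 hzl)) hz1
      rw [hval z h2 hz3, mk_eq]
      refine ⟨((z - l) ^ k l)⁻¹, inv_ne_zero (pow_ne_zero _ (sub_ne_zero.2 hzl)), ?_⟩
      show (if g l z ≠ 0 then g l z else g l l) = ((z - l) ^ k l)⁻¹ • f z
      rw [if_pos hz1, hz2, smul_smul, inv_mul_cancel₀ (pow_ne_zero _ (sub_ne_zero.2 hzl)), one_smul]
  · intro l hl
    have h1 : ∀ᶠ z in 𝓝[≠] l, z ∈ D ∧ f z ≠ 0 := by
      rw [eventually_nhdsWithin_iff]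
      filter_upwards [(hkg l hl).1.continuousAt.eventually_ne (hg l), (hkg l hl).2,
        hD.mem_nhds hl] with z hz1 hz2 hz3 hzl
      refine ⟨hz3, ?_⟩
      rw [hz2]
      exact smul_ne_zero (pow_ne_zero _ (sub_ne_zero.2 hzl)) hz1
    rw [mem_closure_iff_frequently]
    exact h1.frequently.filter_mono nhdsWithin_le_nhds

end Pool.Agent.NH55.VA.Ext

namespace Pool.Agent.NH55.VA

open Ext

theorem ext_ : S_ext := fun M D f hD hc hf h0 => ext_aux M D f hD hc hf h0

theorem cp : S_cp := ⟨fun _ => ⟨t2, cpt, metr, mk_oq⟩, fun _ _ _ _ y => closed y⟩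

end Pool.Agent.NH55.VA
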