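import Pool.Agent.TH710.SP.Defs

/-!
# Fundamental groups and dominant rational maps: definitions and statements

Project VA (MP_d6dd57_ag). `VPts y` is the set of the complex points of the projective variety with
generic point `y`, with the classical topology (`Pool/Agent/TH710/SP/Defs.lean`).
-/

set_option autoImplicit false

open FF MvPolynomial Metric Topology Pool.Agent.W602.GT Pool.Agent.TH710.SP
open scoped unitInterval

namespace Pool.Agent.NH55.VA

/-- virtually abelian groups -/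
def VirtAb (G : Type) [Group G] : Prop :=
  ∃ H : Subgroup G, H.FiniteIndex ∧ ∀ a ∈ H, ∀ b ∈ H, a * b = b * a

/-- The projective variety `X` in `P^M` with function field `K` and generic point `y` has dimension
`n` and is smooth: near each of its points the cone over `X` is the set of zeros of `M - n` forms
whose differentials are linearly independent at the point. -/
structure SmoothProj {K : Type} [Field K] [Algebra ℂ K] (n : ℕ) {M : ℕ} (y : Fin (M + 1) → K) :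
    Prop where
  ne : y ≠ 0
  gen : coords ℂ y = ⊤
  dim : Algebra.trdeg ℂ K = n
  smooth : ∀ x ∈ VarPts ℂ y, ∃ (q : ℕ) (G : Fin q → MvPolynomial (Fin (M + 1)) ℂ), q + n = M ∧
    (∀ j, IsForm (G j)) ∧ LinearIndependent ℂ (fun j i => eval x (pderiv i (G j))) ∧
    ∀ᶠ z in 𝓝 x, (z ∈ VarPts ℂ y ↔ ∀ j, eval z (G j) = 0)

/-- the images of the paths under `F` are homotopic -/
def HomIm {U X : Type} [TopologicalSpace U] [TopologicalSpace X] (F : C(U, X)) {a b : U}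
    (γ γ' : Path a b) : Prop :=
  (γ.map F.continuous).Homotopic (γ'.map F.continuous)

/-! ### topology -/

/-- (TA) a map `F` on a part `U` of a compact metric space `Y` which is trivial on the small loops
is trivial on the loops of `U` which are null-homotopic in `Y` -/
def S_ta : Prop := ∀ (Y X : Type) [MetricSpace Y] [CompactSpace Y] [TopologicalSpace X] (U : Set Y)
  (F : C(U, X)),
  (∀ (y : Y) (ε : ℝ), 0 < ε → ∃ N : Set Y, IsOpen N ∧ y ∈ N ∧ N ⊆ ball y ε ∧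
    IsPathConnected (N ∩ U) ∧ ∀ (a b : U) (γ γ' : Path a b), (∀ t, (γ t : Y) ∈ N) →
      (∀ t, (γ' t : Y) ∈ N) → HomIm F γ γ') →
  ∀ (a b : U) (γ γ' : Path a b),
    (γ.map continuous_subtype_val).Homotopic (γ'.map continuous_subtype_val) → HomIm F γ γ'

/-- (TB) the paths of a compact metric space `X` with ends in a part `V` with small path connected
pieces can be moved into `V` -/
def S_tb : Prop := ∀ (X : Type) [MetricSpace X] [CompactSpace X] (V : Set X),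
  (∀ (x : X) (ε : ℝ), 0 < ε → ∃ N : Set X, IsOpen N ∧ x ∈ N ∧ N ⊆ ball x ε ∧
    IsPathConnected N ∧ IsPathConnected (N ∩ V) ∧ ∀ (a b : X) (γ γ' : Path a b), (∀ t, γ t ∈ N) →
      (∀ t, γ' t ∈ N) → γ.Homotopic γ') →
  ∀ (a b : V) (γ : Path (a : X) (b : X)), ∃ γ' : Path a b,
    γ.Homotopic (γ'.map continuous_subtype_val)

/-- the path lifting property -/
def Lifts {U V : Type} [TopologicalSpace U] [TopologicalSpace V] (F : C(U, V)) : Prop :=
  ∀ (γ : C(I, V)) (p : U), F p = γ 0 → ∃ Γ : C(I, U), (∀ t, F (Γ t) = γ t) ∧ Γ 0 = p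

/-- the inclusion of a subset, composed with `F` -/
def incl {U X : Type} [TopologicalSpace U] [TopologicalSpace X] {V : Set X} (F : C(U, V)) :
    C(U, X) := ⟨fun u => (F u : X), continuous_subtype_val.comp F.continuous⟩

/-- (GRP) the fundamental groups, for a finite covering `F : U → V` between parts of `Y` and `X` -/
def S_grp : Prop := ∀ (Y X : Type) [TopologicalSpace Y] [TopologicalSpace X] (U : Set Y)
  (V : Set X) (F : C(U, V)), Function.Surjective F → (∀ q, (F ⁻¹' {q}).Finite) → Lifts F →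
  (∀ (a b : U) (γ γ' : Path a b),
    (γ.map continuous_subtype_val).Homotopic (γ'.map continuous_subtype_val) →
      HomIm (incl F) γ γ') →
  (∀ (a b : U) (γ : Path (a : Y) (b : Y)), ∃ γ' : Path a b,
    γ.Homotopic (γ'.map continuous_subtype_val)) →
  (∀ (a b : V) (γ : Path (a : X) (b : X)), ∃ γ' : Path a b,
    γ.Homotopic (γ'.map continuous_subtype_val)) →
  (∀ x : X, ∃ v : V, Joined x (v : X)) →
  ((∀ y : Y, VirtAb (FundamentalGroup Y y)) → ∀ x : X, VirtAb (FundamentalGroup X x)) ∧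
  ((∀ y : Y, Subsingleton (FundamentalGroup Y y)) → ∀ x : X, Finite (FundamentalGroup X x)) ∧
  ((∀ y : Y, Subsingleton (FundamentalGroup Y y)) → Function.Injective F →
    ∀ x : X, Subsingleton (FundamentalGroup X x)) ∧
  (PathConnectedSpace Y → Nonempty U → PathConnectedSpace X)

/-! ### holomorphic functions on the polydisc -/

/-- (CONN) the complement of the zeros of a holomorphic function is path connected -/
def S_conn : Prop := ∀ (n : ℕ) (h : (Fin n → ℂ) → ℂ), DifferentiableOn ℂ h (ball 0 1) →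
  (∃ z ∈ ball (0 : Fin n → ℂ) 1, h z ≠ 0) →
  IsPathConnected {z : Fin n → ℂ | z ∈ ball (0 : Fin n → ℂ) 1 ∧ h z ≠ 0}

/-- (LOC) a map which extends to the discs is trivial on the loops -/
def S_loc : Prop := ∀ (n : ℕ) (h : (Fin n → ℂ) → ℂ), DifferentiableOn ℂ h (ball 0 1) →
  ∀ (X : Type) [TopologicalSpace X]
    (F : C({z : Fin n → ℂ | z ∈ ball (0 : Fin n → ℂ) 1 ∧ h z ≠ 0}, X)),
  (∀ a ∈ {z : Fin n → ℂ | z ∈ ball (0 : Fin n → ℂ) 1 ∧ h z ≠ 0}, ∀ v : Fin n → ℂ,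
    ∃ Φ : ℂ → X, ContinuousOn Φ {l : ℂ | a + l • v ∈ ball (0 : Fin n → ℂ) 1} ∧
      ∀ (l : ℂ) (hl : a + l • v ∈ {z : Fin n → ℂ | z ∈ ball (0 : Fin n → ℂ) 1 ∧ h z ≠ 0}),
        Φ l = F ⟨a + l • v, hl⟩) →
  ∀ (a b : {z : Fin n → ℂ | z ∈ ball (0 : Fin n → ℂ) 1 ∧ h z ≠ 0}) (γ γ' : Path a b),
    HomIm F γ γ'

/-- (EXT) holomorphic maps from plane domains to the projective space extend -/
def S_ext : Prop := ∀ (M : ℕ) (D : Set ℂ) (f : ℂ → Fin (M + 1) → ℂ), IsOpen D → Convex ℝ D →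
  DifferentiableOn ℂ f D → (∃ l ∈ D, f l ≠ 0) →
  ∃ Φ : ℂ → CP M, ContinuousOn Φ D ∧ (∀ (l : ℂ) (h : f l ≠ 0), l ∈ D → Φ l = mkP ⟨f l, h⟩) ∧
    D ⊆ closure {l | l ∈ D ∧ f l ≠ 0}

/-- (CP) the topology of the projective space -/
def S_cp : Prop := (∀ M : ℕ, T2Space (CP M) ∧ CompactSpace (CP M) ∧
    TopologicalSpace.MetrizableSpace (CP M) ∧ IsOpenQuotientMap (mkP (n := M))) ∧
  ∀ (K : Type) [Field K] [Algebra ℂ K] (M : ℕ) (y : Fin (M + 1) → K), IsClosed (VPts y)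

/-! ### charts -/

/-- a chart of the variety with generic point `y`, given by homogeneous coordinates; `n` of the
coordinates are the standard ones -/
structure Chart {K : Type} [Field K] [Algebra ℂ K] (n : ℕ) {M : ℕ} (y : Fin (M + 1) → K)
    (N : Set (VPts y)) where
  φ : (Fin n → ℂ) → Fin (M + 1) → ℂ
  diff : DifferentiableOn ℂ φ (ball 0 1)
  i0 : Fin (M + 1)
  ix : Fin n → Fin (M + 1)
  a : Fin n → ℂ
  r : ℝ
  hr : 0 < r
  one : ∀ z ∈ ball (0 : Fin n → ℂ) 1, φ z i0 = 1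
  coord : ∀ z ∈ ball (0 : Fin n → ℂ) 1, ∀ k, φ z (ix k) = a k + r * z k
  e : ball (0 : Fin n → ℂ) 1 ≃ₜ N
  pt : ∀ z : ball (0 : Fin n → ℂ) 1, ∃ h : φ z ≠ 0, (((e z : N) : VPts y) : CP M) = mkP ⟨φ z, h⟩

/-- (CH) existence of small charts -/
def S_ch : Prop := ∀ (K : Type) [Field K] [Algebra ℂ K] (n M : ℕ) (y : Fin (M + 1) → K),
  SmoothProj n y → ∀ (p : VPts y), ∀ W ∈ 𝓝 p, ∃ N : Set (VPts y), IsOpen N ∧ p ∈ N ∧ N ⊆ W ∧
    Nonempty (Chart n y N)

/-- (NZ) a form which does not vanish on the variety does not vanish on a chart -/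
def S_nz : Prop := ∀ (K : Type) [Field K] [Algebra ℂ K] (n M : ℕ) (y : Fin (M + 1) → K),
  SmoothProj n y → ∀ (N : Set (VPts y)) (c : Chart n y N) (g : MvPolynomial (Fin (M + 1)) ℂ),
  IsForm g → val y g ≠ 0 → ∃ z ∈ ball (0 : Fin n → ℂ) 1, eval (c.φ z) g ≠ 0

/-! ### rational maps of finite degree -/

/-- the monic polynomial with the coefficients `c`, its derivative -/
def pol {d : ℕ} (c : Fin d → ℂ) (τ : ℂ) : ℂ := τ ^ d + ∑ k, c k * τ ^ (k : ℕ)
def dpol {d : ℕ} (c : Fin d → ℂ) (τ : ℂ) : ℂ :=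
  d * τ ^ (d - 1) + ∑ k, c k * ((k : ℕ) * τ ^ ((k : ℕ) - 1))

/-- A dominant rational map of degree `d` from the variety with generic point `y` to the variety with
generic point `x`, given by the forms `f`; over the set `g ≠ 0` it is given by the roots of a
polynomial of degree `d`. -/
structure CovDat {K L : Type} [Field K] [Algebra ℂ K] [Field L] [Algebra ℂ L] {M M' : ℕ}
    (x : Fin (M + 1) → L) (y : Fin (M' + 1) → K) (d : ℕ) where
  i0 : Fin (M + 1)
  j0 : Fin (M' + 1)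
  D : ℕ
  f : Fin (M + 1) → MvPolynomial (Fin (M' + 1)) ℂ
  fhom : ∀ i, (f i).IsHomogeneous D
  h : MvPolynomial (Fin (M' + 1)) ℂ
  hform : IsForm h
  hne : val y h ≠ 0
  hj : ∀ p, eval p h ≠ 0 → p j0 ≠ 0
  g : MvPolynomial (Fin (M + 1)) ℂ
  gform : IsForm g
  gne : val x g ≠ 0
  gi : ∀ q, eval q g ≠ 0 → q i0 ≠ 0
  m : Fin d → (Fin (M + 1) → ℂ) → ℂ
  mcont : ∀ k, ContinuousOn (m k) {q | eval q g ≠ 0}
  mhom : ∀ (k : Fin d) (c : ℂ) (q : Fin (M + 1) → ℂ), c ≠ 0 → eval q g ≠ 0 → m k (c • q) = m k q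
  R : Fin (M' + 1) → (Fin (M + 1) → ℂ) → ℂ → ℂ
  Rcont : ∀ j, ContinuousOn (fun z : (Fin (M + 1) → ℂ) × ℂ => R j z.1 z.2)
    {z | eval z.1 g ≠ 0}
  Rhom : ∀ (j : Fin (M' + 1)) (c : ℂ) (q : Fin (M + 1) → ℂ) (τ : ℂ), c ≠ 0 → eval q g ≠ 0 →
    R j (c • q) τ = R j q τ
  θ : (Fin (M' + 1) → ℂ) → ℂ
  θcont : ContinuousOn θ {p | eval p h ≠ 0}
  θhom : ∀ (c : ℂ) (p : Fin (M' + 1) → ℂ), c ≠ 0 → eval p h ≠ 0 → θ (c • p) = θ p
  img : ∀ p ∈ VarPts ℂ y, eval p h ≠ 0 → (fun i => eval p (f i)) ∈ VarPts ℂ x ∧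
    eval (fun i => eval p (f i)) g ≠ 0 ∧ pol (fun k => m k fun i => eval p (f i)) (θ p) = 0 ∧
    ∀ j, R j (fun i => eval p (f i)) (θ p) = p j / p j0
  lift : ∀ q ∈ VarPts ℂ x, eval q g ≠ 0 → ∀ τ : ℂ, pol (fun k => m k q) τ = 0 →
    dpol (fun k => m k q) τ ≠ 0 ∧ (fun j => R j q τ) ∈ VarPts ℂ y ∧
    eval (fun j => R j q τ) h ≠ 0 ∧ θ (fun j => R j q τ) = τ ∧
    ∃ c : ℂ, c ≠ 0 ∧ ∀ i, eval (fun j => R j q τ) (f i) = c * q i

/-- (ALG) existence of the data for a dominant rational map between varieties of the same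
dimension -/
def S_alg : Prop := ∀ (K L : Type) [Field K] [Algebra ℂ K] [Field L] [Algebra ℂ L] [Algebra L K]
  [IsScalarTower ℂ L K] [FiniteDimensional L K] (M M' : ℕ) (x : Fin (M + 1) → L)
  (y : Fin (M' + 1) → K), x ≠ 0 → coords ℂ x = ⊤ → y ≠ 0 → coords ℂ y = ⊤ →
  Nonempty (CovDat x y (Module.finrank L K))

/-- the part of the variety with generic point `y` where the form `h` does not vanish -/
def NZ {K : Type} [Field K] [Algebra ℂ K] {M : ℕ} (h : MvPolynomial (Fin (M + 1)) ℂ)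
    (y : Fin (M + 1) → K) : Set (VPts y) :=
  {p | ∃ x : {x : Fin (M + 1) → ℂ // x ≠ 0}, mkP x = (p : CP M) ∧ eval x.1 h ≠ 0}

/-- (COV) the covering -/
def S_cov : Prop := ∀ (K L : Type) [Field K] [Algebra ℂ K] [Field L] [Algebra ℂ L] (M M' d : ℕ)
  (x : Fin (M + 1) → L) (y : Fin (M' + 1) → K) (A : CovDat x y d), 0 < d →
  ∃ F : C(NZ A.h y, NZ A.g x), Function.Surjective F ∧ (∀ q, (F ⁻¹' {q}).Finite) ∧ Lifts F ∧
    (d = 1 → Function.Injective F) ∧
    ∀ (p : NZ A.h y) (z : {z : Fin (M' + 1) → ℂ // z ≠ 0}), mkP z = ((p : VPts y) : CP M') →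
      ∃ hz : (fun i => eval z.1 (A.f i)) ≠ 0,
        (((F p : NZ A.g x) : VPts x) : CP M) = mkP ⟨fun i => eval z.1 (A.f i), hz⟩

end Pool.Agent.NH55.VA
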